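import Pool.Agent.H31R3.Kes.Defs

/-!
T9: exponential decay of the one-arm probability below the critical point.
-/

set_option maxHeartbeats 400000

namespace H31K

open H974 Finset

/-- Doubly exponential decay along dyadic scales. -/
theorem eps_pow2 {p : ℝ} (h0 : 0 ≤ p) (h1 : p ≤ 1) {N : ℕ} (hN : 2 ≤ N)
    (he : eps p N ≤ 1/100) (j : ℕ) : 25 * eps p (2^j * N) ≤ (1/4)^(2^j) := by
  induction j with
  | zero => norm_num; linarith
  | succ j ih =>
      have h2 : 2 ≤ 2^j * N := by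
        calc 2 ≤ N := hN
          _ ≤ 2^j * N := Nat.le_mul_of_pos_left _ (by positivity)
      have h3 := eps_double h0 h1 h2
      have h4 := eps_nonneg h0 h1 (2^j * N)
      have h5 : 2^(j+1) * N = 2 * (2^j * N) := by rw [pow_succ]; ring
      rw [h5]
      have h6 : ((1:ℝ)/4)^(2^(j+1)) = ((1/4)^(2^j))^2 := by
        rw [← pow_mul, pow_succ]
      rw [h6]
      have h7 : (25 * eps p (2^j * N))^2 ≤ ((1/4)^(2^j))^2 :=
        pow_le_pow_left₀ (by positivity) ih 2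
      nlinarith

/-- If dual crossings exist at scale `N`, the arm to distance `2 N` is unlikely. -/
theorem arm_le_eps {p : ℝ} (h0 : 0 ≤ p) (h1 : p ≤ 1) {N : ℕ} (hN : 2 ≤ N) :
    arm p (2 * N) ≤ 20 * eps (1 - p) N := by
  have hN' : (2:ℤ) ≤ N := by exact_mod_cast hN
  have ok := okq h0 h1
  set n : ℤ := (N:ℤ) with hn
  set S := boxE (2 * N) with hS
  have sub : ∀ a b c d : ℤ, -(2 * n) ≤ a → b ≤ 2 * n → -(2 * n) ≤ c → d ≤ 2 * n →
      RE a b c d ⊆ S := by
    intro a b c d ha hb hc hd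
    rw [hS]
    unfold boxE
    exact RE_subset (by push_cast; omega) (by push_cast; omega) (by push_cast; omega)
      (by push_cast; omega)
  have e1 : Pr (fun _ => p) S (LRc (n - 1) (2 * n - 1) (-(2 * n - 1)) (2 * n - 1)) =
      hh p n (4 * n - 2) := by
    rw [pr_LRc p (LRE_subset_RE.trans (sub _ _ _ _ (by omega) (by omega) (by omega) (by omega)))]
    congr 1 <;> ring
  have e2 : Pr (fun _ => p) S (LRc (-(2 * n - 1)) (-(n - 1)) (-(2 * n - 1)) (2 * n - 1)) =
      hh p n (4 * n - 2) := by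
    rw [pr_LRc p (LRE_subset_RE.trans (sub _ _ _ _ (by omega) (by omega) (by omega) (by omega)))]
    congr 1 <;> ring
  have e3 : Pr (fun _ => p) S (TBc (-(2 * n - 1)) (2 * n - 1) (n - 1) (2 * n - 1)) =
      hh p n (4 * n - 2) := by
    rw [pr_TBc p (TBE_subset_RE.trans (sub _ _ _ _ (by omega) (by omega) (by omega) (by omega)))]
    congr 1 <;> ring
  have e4 : Pr (fun _ => p) S (TBc (-(2 * n - 1)) (2 * n - 1) (-(2 * n - 1)) (-(n - 1))) =
      hh p n (4 * n - 2) := by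
    rw [pr_TBc p (TBE_subset_RE.trans (sub _ _ _ _ (by omega) (by omega) (by omega) (by omega)))]
    congr 1 <;> ring
  have i1 : arm p (2 * N) ≤ Pr (fun _ => p) S (fun F =>
      ((LRc (n - 1) (2 * n - 1) (-(2 * n - 1)) (2 * n - 1) F ∨
        LRc (-(2 * n - 1)) (-(n - 1)) (-(2 * n - 1)) (2 * n - 1) F)) ∨
      (TBc (-(2 * n - 1)) (2 * n - 1) (n - 1) (2 * n - 1) F ∨
        TBc (-(2 * n - 1)) (2 * n - 1) (-(2 * n - 1)) (-(n - 1)) F)) := by
    unfold arm
    apply Pr_mono ok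
    rintro F hF ⟨v, hv, hr⟩
    have hnb := not_blk_of_arm (F := F) (R1 := n - 1) (R2 := 2 * n - 1) (by omega) (by omega)
      (v := v) (hr.mono Set.inter_subset_left) (by
        rcases hv.2 with hv | hv | hv | hv <;> push_cast at hv <;> omega)
    unfold Blk at hnb
    tauto
  have i2 := Pr_or_le ok S (fun F => LRc (n - 1) (2 * n - 1) (-(2 * n - 1)) (2 * n - 1) F ∨
        LRc (-(2 * n - 1)) (-(n - 1)) (-(2 * n - 1)) (2 * n - 1) F)
      (fun F => TBc (-(2 * n - 1)) (2 * n - 1) (n - 1) (2 * n - 1) F ∨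
        TBc (-(2 * n - 1)) (2 * n - 1) (-(2 * n - 1)) (-(n - 1)) F)
  have i3 := Pr_or_le ok S (LRc (n - 1) (2 * n - 1) (-(2 * n - 1)) (2 * n - 1))
    (LRc (-(2 * n - 1)) (-(n - 1)) (-(2 * n - 1)) (2 * n - 1))
  have i4 := Pr_or_le ok S (TBc (-(2 * n - 1)) (2 * n - 1) (n - 1) (2 * n - 1))
    (TBc (-(2 * n - 1)) (2 * n - 1) (-(2 * n - 1)) (-(n - 1)))
  rw [e1, e2] at i3
  rw [e3, e4] at i4
  have d1 := hh_dual (q := p) (w := n) (h := 4 * n - 2) (by omega) (by omega)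
  have d2 : hh (1 - p) (4 * n) (n - 1) ≤ hh (1 - p) (4 * n - 2 + 1) (n - 1) :=
    hh_mono (by linarith) (by linarith) (by omega) (by omega) le_rfl
  have d3 := long_cross (p := 1 - p) (by linarith) (by linarith) hN
  rw [← hn] at d3
  linarith

theorem arm_decay_far {p : ℝ} (h0 : 0 ≤ p) (h1 : p ≤ 1) {N : ℕ} (hN : 2 ≤ N)
    (he : eps (1 - p) N ≤ 1/100) (j : ℕ) : arm p (2 * (2^j * N)) ≤ (1/4)^(2^j) := by
  have h2 : 2 ≤ 2^j * N := by
    calc 2 ≤ N := hN
      _ ≤ 2^j * N := Nat.le_mul_of_pos_left _ (by positivity)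
  have h3 := arm_le_eps h0 h1 h2
  have h4 := eps_nonneg (p := 1 - p) (by linarith) (by linarith) (2^j * N)
  have h5 := eps_pow2 (p := 1 - p) (by linarith) (by linarith) hN he j
  linarith

end H31K
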