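import Pool.Agent.H31R3.Kes.Beta0
import Pool.Agent.H31R3.Kes.Stab

/-!
T7: `β = 5/36`. (`beta_lower` is in `Beta0`.)
-/

set_option maxHeartbeats 400000

namespace H31K

open H974 Finset

theorem beta_upper (I : Inp) {ε : ℝ} (he : 0 < ε) : ∃ C : ℝ, 0 < C ∧ ∀ p : unitInterval,
    (1/2 : ℝ) < p → theta p ≤ C * ((p:ℝ) - 1/2)^(5/36 - ε) :=
  beta_upper_of I (fun _ h => stab_inp I h) he

theorem beta_eq (I : Inp) : Filter.Tendsto
    (fun s : ℝ => Real.log (theta (Set.projIcc 0 1 zero_le_one (1/2 + s))) / Real.log s)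
    (nhdsWithin 0 (Set.Ioi 0)) (nhds (5/36)) :=
  beta_eq_of I (fun _ h => stab_inp I h)

end H31K
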