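import Pool.Agent.H31R3.Kes.Defs
import Pool.Agent.H974R2.Infinite

/-!
T7: `β = 5/36` from the statement of T6 (taken as the hypothesis `StabInp`).
-/

set_option maxHeartbeats 400000

namespace H31K

open H974 Finset

/-- The statement of T6. -/
def StabInp : Prop := ∀ ε : ℝ, 0 < ε → ∃ κ : ℝ, 0 < κ ∧ ∀ n : ℕ, 1 ≤ n → ∀ q : ℝ,
    |q - 1/2| ≤ κ * (n:ℝ)^(-(3/4) - ε) →
      H12S.Win q κ n ∧ arm q n ≤ 3 * arm (1/2) n ∧ arm (1/2) n ≤ 3 * arm q n

theorem beta_loglog {f : ℝ → ℝ} {a : ℝ}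
    (hlo : ∀ ε : ℝ, 0 < ε → ∃ c : ℝ, 0 < c ∧ ∀ s : ℝ, 0 < s → s ≤ 1/2 → c * s^(a + ε) ≤ f s)
    (hup : ∀ ε : ℝ, 0 < ε → ∃ C : ℝ, 0 < C ∧ ∀ s : ℝ, 0 < s → s ≤ 1/2 → f s ≤ C * s^(a - ε)) :
    Filter.Tendsto (fun s : ℝ => Real.log (f s) / Real.log s)
      (nhdsWithin 0 (Set.Ioi 0)) (nhds a) := by
  have hlog : Filter.Tendsto Real.log (nhdsWithin 0 (Set.Ioi 0)) Filter.atBot :=
    Real.tendsto_log_nhdsGT_zero
  have hz : ∀ x : ℝ, Filter.Tendsto (fun s : ℝ => x / Real.log s)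
      (nhdsWithin 0 (Set.Ioi 0)) (nhds 0) := by
    intro x
    have h1 : Filter.Tendsto (fun s : ℝ => -Real.log s) (nhdsWithin 0 (Set.Ioi 0)) Filter.atTop :=
      Filter.tendsto_neg_atBot_atTop.comp hlog
    have h2 := (h1.const_div_atTop x).neg
    refine Filter.Tendsto.congr (fun s => ?_) (by simpa using h2)
    rw [div_neg, neg_neg]
  have hmem : ∀ᶠ s : ℝ in nhdsWithin 0 (Set.Ioi 0), 0 < s ∧ s ≤ 1/2 := by
    have : Set.Ioc (0:ℝ) (1/2) ∈ nhdsWithin (0:ℝ) (Set.Ioi 0) :=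
      Ioc_mem_nhdsGT (by norm_num)
    exact this
  rw [tendsto_order]
  constructor
  · intro l hl
    obtain ⟨C, hC, hCs⟩ := hup ((a - l)/2) (by linarith)
    obtain ⟨c, hc, hcs⟩ := hlo 1 one_pos
    have h1 : ∀ᶠ s : ℝ in nhdsWithin 0 (Set.Ioi 0), -((a - l)/2) < Real.log C / Real.log s :=
      (hz (Real.log C)).eventually_const_lt (by linarith)
    filter_upwards [h1, hmem] with s h1 hs
    have hs0 := hs.1
    have hls : Real.log s < 0 := Real.log_neg hs0 (by linarith [hs.2])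
    have hf : 0 < f s := lt_of_lt_of_le (by positivity) (hcs s hs0 hs.2)
    have h2 : Real.log (f s) ≤ Real.log C + (a - (a - l)/2) * Real.log s := by
      have := Real.log_le_log hf (hCs s hs0 hs.2)
      rwa [Real.log_mul hC.ne' (Real.rpow_pos_of_pos hs0 _).ne', Real.log_rpow hs0] at this
    have h3 : Real.log C / Real.log s + (a - (a - l)/2) ≤ Real.log (f s) / Real.log s := by
      rw [le_div_iff_of_neg hls, add_mul, div_mul_cancel₀ _ hls.ne]
      exact h2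
    linarith
  · intro u hu
    obtain ⟨c, hc, hcs⟩ := hlo ((u - a)/2) (by linarith)
    have h1 : ∀ᶠ s : ℝ in nhdsWithin 0 (Set.Ioi 0), Real.log c / Real.log s < (u - a)/2 :=
      (hz (Real.log c)).eventually_lt_const (by linarith)
    filter_upwards [h1, hmem] with s h1 hs
    have hs0 := hs.1
    have hls : Real.log s < 0 := Real.log_neg hs0 (by linarith [hs.2])
    have h2 : Real.log c + (a + (u - a)/2) * Real.log s ≤ Real.log (f s) := by
      have := Real.log_le_log (by positivity) (hcs s hs0 hs.2)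
      rwa [Real.log_mul hc.ne' (Real.rpow_pos_of_pos hs0 _).ne', Real.log_rpow hs0] at this
    have h3 : Real.log (f s) / Real.log s ≤ Real.log c / Real.log s + (a + (u - a)/2) := by
      rw [div_le_iff_of_neg hls, add_mul, div_mul_cancel₀ _ hls.ne]
      exact h2
    linarith

theorem theta_le_one (p : unitInterval) : theta p ≤ 1 :=
  (theta_le_arm p 0).trans (arm_le_one p.2.1 p.2.2 0)

theorem beta_upper_of (I : Inp) (hst : StabInp) {ε : ℝ} (he : 0 < ε) :
    ∃ C : ℝ, 0 < C ∧ ∀ p : unitInterval,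
    (1/2 : ℝ) < p → theta p ≤ C * ((p:ℝ) - 1/2)^(5/36 - ε) := by
  set ε1 : ℝ := min (ε/2) (1/48) with hε1
  have h1pos : 0 < ε1 := lt_min (by linarith) (by norm_num)
  have h1le : ε1 ≤ ε/2 := min_le_left _ _
  have h1le' : ε1 ≤ 1/48 := min_le_right _ _
  obtain ⟨κ, hκ, hst⟩ := hst ε1 h1pos
  obtain ⟨C, hC, harm⟩ := I.arm ε1 h1pos
  set a : ℝ := 3/4 + ε1 with ha
  set b : ℝ := 5/48 - ε1 with hb
  have ha0 : 0 < a := by positivity
  have hb0 : 0 < b := by rw [hb]; linarith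
  set e : ℝ := 5/36 - ε with he'
  have hba : e ≤ b / a := by
    rw [le_div_iff₀ ha0, he', hb, ha]
    nlinarith
  refine ⟨3 * C * (2:ℝ)^b * κ^(-(b/a)) + κ^(-|e|), by positivity, ?_⟩
  intro p hp
  set s : ℝ := (p:ℝ) - 1/2 with hs
  have hs0 : 0 < s := by rw [hs]; linarith
  have hs1 : s ≤ 1/2 := by have := p.2.2; rw [hs]; linarith
  have hse : 0 < s^e := Real.rpow_pos_of_pos hs0 _
  rcases lt_or_ge κ s with hks | hks
  · -- far from the critical point
    have h2 : κ^|e| ≤ s^e := by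
      calc κ^|e| ≤ s^|e| := Real.rpow_le_rpow hκ.le hks.le (abs_nonneg _)
        _ ≤ s^e := Real.rpow_le_rpow_of_exponent_ge hs0 (by linarith) (le_abs_self _)
    have h3 : 1 ≤ κ^(-|e|) * s^e := by
      rw [Real.rpow_neg hκ.le, ← div_eq_inv_mul, le_div_iff₀ (Real.rpow_pos_of_pos hκ _), one_mul]
      exact h2
    calc theta p ≤ 1 := theta_le_one p
      _ ≤ κ^(-|e|) * s^e := h3
      _ ≤ (3 * C * (2:ℝ)^b * κ^(-(b/a)) + κ^(-|e|)) * s^e := by
          apply mul_le_mul_of_nonneg_right _ hse.le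
          have : 0 < 3 * C * (2:ℝ)^b * κ^(-(b/a)) := by positivity
          linarith
  · set x : ℝ := (κ/s)^(1/a) with hx
    have hks1 : 1 ≤ κ/s := by rw [le_div_iff₀ hs0, one_mul]; exact hks
    have hx1 : 1 ≤ x := Real.one_le_rpow hks1 (by positivity)
    have hxa : x^a = κ/s := by
      rw [hx, ← Real.rpow_mul (by positivity), one_div, inv_mul_cancel₀ ha0.ne', Real.rpow_one]
    set n : ℕ := ⌊x⌋₊ with hn
    have hn1 : 1 ≤ n := Nat.le_floor (by exact_mod_cast hx1)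
    have hn1' : (1:ℝ) ≤ n := by exact_mod_cast hn1
    have hnx : (n:ℝ) ≤ x := Nat.floor_le (by linarith)
    have hxn : x ≤ 2 * n := by
      have := Nat.lt_floor_add_one x
      have h3 : x < n + 1 := this
      linarith
    have hwin : |(p:ℝ) - 1/2| ≤ κ * (n:ℝ)^(-(3/4) - ε1) := by
      rw [abs_of_pos hs0]
      have h3 : (n:ℝ)^a ≤ κ/s := by
        rw [← hxa]; exact Real.rpow_le_rpow (by positivity) hnx ha0.le
      have h4 : (n:ℝ)^(-(3/4) - ε1) = ((n:ℝ)^a)⁻¹ := by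
        rw [← Real.rpow_neg (by positivity)]; congr 1; rw [ha]; ring
      rw [h4, ← div_eq_mul_inv, le_div_iff₀ (by positivity)]
      rw [le_div_iff₀ hs0] at h3
      linarith
    obtain ⟨_, h5, _⟩ := hst n hn1 p hwin
    have h6 := (harm n hn1).1
    have h7 : (n:ℝ)^(-(5/48) + ε1) ≤ (2:ℝ)^b * κ^(-(b/a)) * s^e := by
      have h8 : (n:ℝ)^(-(5/48) + ε1) = (n:ℝ)^(-b) := by congr 1; rw [hb]; ring
      rw [h8]
      calc (n:ℝ)^(-b) ≤ (x/2)^(-b) :=
            Real.rpow_le_rpow_of_nonpos (by positivity) (by linarith) (by linarith)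
        _ = (2:ℝ)^b * (κ/s)^(-(b/a)) := by
            rw [Real.div_rpow (by linarith) (by norm_num), hx, ← Real.rpow_mul (by positivity),
              Real.rpow_neg (by norm_num : (0:ℝ) ≤ 2), div_inv_eq_mul, mul_comm]
            congr 2
            field_simp
        _ = (2:ℝ)^b * κ^(-(b/a)) * s^(b/a) := by
            rw [Real.div_rpow hκ.le hs0.le, Real.rpow_neg hs0.le, div_inv_eq_mul, mul_assoc]
        _ ≤ (2:ℝ)^b * κ^(-(b/a)) * s^e := by
            apply mul_le_mul_of_nonneg_left _ (by positivity)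
            exact Real.rpow_le_rpow_of_exponent_ge hs0 (by linarith) hba
    calc theta p ≤ arm p n := theta_le_arm p n
      _ ≤ 3 * arm (1/2) n := h5
      _ ≤ 3 * (C * (n:ℝ)^(-(5/48) + ε1)) := by linarith
      _ ≤ 3 * (C * ((2:ℝ)^b * κ^(-(b/a)) * s^e)) := by
          have := mul_le_mul_of_nonneg_left h7 hC.le
          linarith
      _ = (3 * C * (2:ℝ)^b * κ^(-(b/a))) * s^e := by ring
      _ ≤ (3 * C * (2:ℝ)^b * κ^(-(b/a)) + κ^(-|e|)) * s^e := by
          apply mul_le_mul_of_nonneg_right _ hse.le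
          have : 0 < κ^(-|e|) := by positivity
          linarith

theorem beta_lower (I : Inp) {ε : ℝ} (he : 0 < ε) : ∃ c : ℝ, 0 < c ∧ ∀ p : unitInterval,
    (1/2 : ℝ) < p → c * ((p:ℝ) - 1/2)^(5/36 + ε) ≤ theta p := by
  set ε1 : ℝ := min (ε/4) (1/4) with hε1
  have h1pos : 0 < ε1 := lt_min (by linarith) (by norm_num)
  have h1le : ε1 ≤ ε/4 := min_le_left _ _
  have h1le' : ε1 ≤ 1/4 := min_le_right _ _
  obtain ⟨C, hC, harm⟩ := I.arm ε1 h1pos
  obtain ⟨N0, hN0⟩ := I.far ε1 h1pos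
  set a : ℝ := 3/4 - ε1 with ha
  set b : ℝ := 5/48 + ε1 with hb
  have ha0 : 0 < a := by rw [ha]; linarith
  have hb0 : 0 < b := by positivity
  set e : ℝ := 5/36 + ε with he'
  have hba : b / a ≤ e := by
    rw [div_le_iff₀ ha0, he', hb, ha]
    nlinarith
  refine ⟨1/2 * (C⁻¹ * (2 * ((N0:ℝ) + 4))^(-b)), by positivity, ?_⟩
  intro p hp
  set s : ℝ := (p:ℝ) - 1/2 with hs
  have hs0 : 0 < s := by rw [hs]; linarith
  have hs1 : s ≤ 1/2 := by have := p.2.2; rw [hs]; linarith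
  set x : ℝ := s^(-(1/a)) with hx
  have hx1 : 1 ≤ x := Real.one_le_rpow_of_pos_of_le_one_of_nonpos hs0 (by linarith)
    (by have : 0 < 1/a := by positivity
        linarith)
  set N : ℕ := ⌈x⌉₊ + N0 + 2 with hN
  have hNx : x ≤ N := by
    have := Nat.le_ceil x
    rw [hN]; push_cast
    have h2 : (0:ℝ) ≤ N0 := by positivity
    linarith
  have hNle : (N:ℝ) ≤ (N0 + 4) * x := by
    have := Nat.ceil_lt_add_one (a := x) (by linarith)
    rw [hN]; push_cast
    have h2 : (0:ℝ) ≤ N0 := by positivity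
    nlinarith
  have hN1 : (1:ℝ) ≤ N := hx1.trans hNx
  have hfar : eps p N ≤ 1/100 := by
    apply hN0 N (by omega) p _ p.2.2
    have h3 : (N:ℝ)^(-(3/4) + ε1) ≤ s := by
      have h4 : (N:ℝ)^(-(3/4) + ε1) = (N:ℝ)^(-a) := by congr 1; rw [ha]; ring
      rw [h4]
      calc (N:ℝ)^(-a) ≤ x^(-a) :=
            Real.rpow_le_rpow_of_nonpos (by linarith) hNx (by linarith)
        _ = s := by
            rw [hx, ← Real.rpow_mul hs0.le]
            have : -(1/a) * -a = 1 := by field_simp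
            rw [this, Real.rpow_one]
    rw [hs] at h3
    linarith
  have h5 : 1/2 * arm p (2 * N) ≤ theta p :=
    le_theta p (fun m => arm_chain p.2.1 p.2.2 (by omega) hfar m)
  have h6 : arm (1/2) (2 * N) ≤ arm p (2 * N) :=
    arm_mono_param (by norm_num) hp.le p.2.2 _
  have h7 := (harm (2 * N) (by omega)).2
  have h8 : C⁻¹ * ((2 * N : ℕ) : ℝ)^(-(5/48) - ε1) ≤ arm (1/2) (2 * N) := by
    rw [inv_mul_le_iff₀ hC]; exact h7
  have h9 : (2 * ((N0:ℝ) + 4))^(-b) * s^e ≤ ((2 * N : ℕ) : ℝ)^(-(5/48) - ε1) := by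
    have h10 : ((2 * N : ℕ) : ℝ)^(-(5/48) - ε1) = ((2 * N : ℕ) : ℝ)^(-b) := by
      congr 1; rw [hb]; ring
    rw [h10]
    have h11 : ((2 * N : ℕ) : ℝ) ≤ (2 * ((N0:ℝ) + 4)) * x := by push_cast; linarith
    calc (2 * ((N0:ℝ) + 4))^(-b) * s^e ≤ (2 * ((N0:ℝ) + 4))^(-b) * s^(b/a) := by
          apply mul_le_mul_of_nonneg_left _ (by positivity)
          exact Real.rpow_le_rpow_of_exponent_ge hs0 (by linarith) hba
      _ = (2 * ((N0:ℝ) + 4))^(-b) * x^(-b) := by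
          rw [hx, ← Real.rpow_mul hs0.le]
          congr 2
          field_simp
      _ = ((2 * ((N0:ℝ) + 4)) * x)^(-b) :=
          (Real.mul_rpow (x := 2 * ((N0:ℝ) + 4)) (y := x) (by positivity) (by linarith)).symm
      _ ≤ ((2 * N : ℕ) : ℝ)^(-b) :=
          Real.rpow_le_rpow_of_nonpos (by push_cast; linarith) h11 (by linarith)
  calc 1/2 * (C⁻¹ * (2 * ((N0:ℝ) + 4))^(-b)) * s^e
      = 1/2 * (C⁻¹ * ((2 * ((N0:ℝ) + 4))^(-b) * s^e)) := by ring
    _ ≤ 1/2 * (C⁻¹ * ((2 * N : ℕ) : ℝ)^(-(5/48) - ε1)) := by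
        have := mul_le_mul_of_nonneg_left h9 (inv_pos.2 hC).le
        linarith
    _ ≤ 1/2 * arm p (2 * N) := by linarith
    _ ≤ theta p := h5

theorem beta_eq_of (I : Inp) (hst : StabInp) : Filter.Tendsto
    (fun s : ℝ => Real.log (theta (Set.projIcc 0 1 zero_le_one (1/2 + s))) / Real.log s)
    (nhdsWithin 0 (Set.Ioi 0)) (nhds (5/36)) := by
  apply beta_loglog (f := fun s : ℝ => theta (Set.projIcc 0 1 zero_le_one (1/2 + s)))
  · intro ε hε
    obtain ⟨c, hc, h⟩ := beta_lower I hε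
    refine ⟨c, hc, fun s hs0 hs1 => ?_⟩
    have h1 : ((Set.projIcc 0 1 zero_le_one (1/2 + s) : unitInterval) : ℝ) = 1/2 + s := by
      rw [Set.projIcc_of_mem zero_le_one ⟨by linarith, by linarith⟩]
    have := h (Set.projIcc 0 1 zero_le_one (1/2 + s)) (by rw [h1]; linarith)
    rw [h1] at this
    simpa using this
  · intro ε hε
    obtain ⟨C, hC, h⟩ := beta_upper_of I hst hε
    refine ⟨C, hC, fun s hs0 hs1 => ?_⟩
    have h1 : ((Set.projIcc 0 1 zero_le_one (1/2 + s) : unitInterval) : ℝ) = 1/2 + s := by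
      rw [Set.projIcc_of_mem zero_le_one ⟨by linarith, by linarith⟩]
    have := h (Set.projIcc 0 1 zero_le_one (1/2 + s)) (by rw [h1]; linarith)
    rw [h1] at this
    simpa using this

end H31K
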