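import Pool.Agent.H31R3.Kes.Defs

/-!
T1: circuits decide the one-arm event.
-/

set_option maxHeartbeats 400000

namespace H31K

open H974 Finset

theorem ends_inR {a b c d : ℤ} {e : Edg} (he : e ∈ RE a b c d) :
    inR a b c d (src e) ∧ inR a b c d (tgt e) := by
  obtain ⟨x, y, _ | _⟩ := e
  · rw [mem_RE_false] at he
    simp only [src_mk, tgt_false, inR]; omega
  · rw [mem_RE_true] at he
    simp only [src_mk, tgt_true, inR]; omega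

theorem avoid_or {G : Set Edg} {a b c d : ℤ} {x y : Vtx} (h : Reach G x y) :
    Reach (G \ ↑(RE a b c d)) x y ∨ ∃ w, inR a b c d w ∧ Reach G x w ∧ Reach G w y := by
  induction h with
  | refl => exact Or.inl (Reach.refl _ _)
  | @tail v v' h1 hs ih =>
    rcases ih with ih | ⟨w, k1, k2, k3⟩
    · obtain ⟨e, heG, hcase⟩ := id hs
      by_cases hm : e ∈ RE a b c d
      · right
        obtain ⟨m1, m2⟩ := ends_inR hm
        refine ⟨v, ?_, h1, hs.reach⟩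
        rcases hcase with ⟨h3, h4⟩ | ⟨h3, h4⟩
        · rw [← h3]; exact m1
        · rw [← h4]; exact m2
      · left
        have hadj : Adj (G \ ↑(RE a b c d)) v v' := ⟨e, ⟨heG, hm⟩, hcase⟩
        exact ih.trans hadj.reach
    · exact Or.inr ⟨w, k1, k2, k3.trans hs.reach⟩

theorem circ_pt {c1 c2 : ℤ} {r : ℕ} (hr : 1 ≤ r) {F : Finset Edg} (hO : OC c1 c2 r F) :
    ∃ z : Vtx, ∀ u v : Vtx, inR (c1 - 4 * r) (c1 + 4 * r) (c2 - 4 * r) (c2 + 4 * r) u →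
      (v.1 ≤ c1 - 8 * r ∨ c1 + 8 * r ≤ v.1 ∨ v.2 ≤ c2 - 8 * r ∨ c2 + 8 * r ≤ v.2) →
      Reach (↑F : Set Edg) u v → Reach (↑F ∩ ↑(Bg c1 c2 r)) u z := by
  have hr' : (1:ℤ) ≤ r := by exact_mod_cast hr
  set g := trl (-c1) (-c2) with hg
  obtain ⟨z, hz⟩ := circ_meet (R1 := ((4 * r : ℕ) : ℤ)) (R2 := ((8 * r : ℕ) : ℤ))
    (by positivity) (by push_cast; omega) hO
  have hB : g.mp (Bg c1 c2 r) = RE (-((8 * r : ℕ) : ℤ)) ((8 * r : ℕ) : ℤ)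
      (-((8 * r : ℕ) : ℤ)) ((8 * r : ℕ) : ℤ) := by
    unfold Bg
    rw [hg, trl_RE]
    congr 1 <;> push_cast <;> ring
  have himg : g.φ '' ((↑F : Set Edg) ∩ ↑(Bg c1 c2 r)) = ↑(g.mp F) ∩
      ↑(RE (-((8 * r : ℕ) : ℤ)) ((8 * r : ℕ) : ℤ) (-((8 * r : ℕ) : ℤ)) ((8 * r : ℕ) : ℤ)) := by
    rw [LSym.image_inter, hB]
  obtain ⟨z1, z2⟩ := z
  refine ⟨(z1 + c1, z2 + c2), ?_⟩
  rintro ⟨u1, u2⟩ v hu hv hreach
  unfold inR at hu
  simp only at hu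
  obtain ⟨⟨w1, w2⟩, k1, k2, k3⟩ := first_exit (a := c1 - 8 * r) (b := c1 + 8 * r)
    (c := c2 - 8 * r) (d := c2 + 8 * r) (by unfold inR; simp only; omega) hreach hv
  have h1 := g.reach k3
  have h2 : Reach (↑(g.mp F) ∩ ↑(RE (-((8 * r : ℕ) : ℤ)) ((8 * r : ℕ) : ℤ)
      (-((8 * r : ℕ) : ℤ)) ((8 * r : ℕ) : ℤ))) (g.ψ (u1, u2)) (g.ψ (w1, w2)) := by
    rw [← himg]; exact h1
  simp only at k2
  have h3 := hz (g.ψ (u1, u2)) (g.ψ (w1, w2))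
    (by rw [hg, trl_ψ]; unfold inR; simp only; push_cast; omega)
    (by rw [hg, trl_ψ]; simp only; push_cast; omega) h2
  rw [← himg] at h3
  have h4 : ((z1, z2) : Vtx) = g.ψ (z1 + c1, z2 + c2) := by
    rw [hg, trl_ψ]; ext <;> simp
  rw [h4] at h3
  exact g.reach_iff.mp h3

theorem Bg_sub {n : ℕ} {c1 c2 : ℤ} {r : ℕ} (ha : Adm n c1 c2 r) : Bg c1 c2 r ⊆ boxE n := by
  unfold Bg boxE
  exact RE_subset ha.l1 ha.u1 ha.l2 ha.u2

theorem Lam_sub_Bg {c1 c2 : ℤ} {r : ℕ} : Lam c1 c2 r ⊆ Bg c1 c2 r := by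
  unfold Bg Lam
  exact RE_subset (by omega) (by omega) (by omega) (by omega)

theorem OC_arm {n : ℕ} {c1 c2 : ℤ} {r : ℕ} (ha : Adm n c1 c2 r) {F : Finset Edg}
    (hO : OC c1 c2 r F) (h : Arm n (F ∪ Lam c1 c2 r)) : Arm n F := by
  have hr := ha.pos
  have hr' : (1:ℤ) ≤ r := by exact_mod_cast hr
  obtain ⟨z, hz⟩ := circ_pt hr hO
  obtain ⟨v, hv, hreach⟩ := h
  have hsub : ((↑(F ∪ Lam c1 c2 r) : Set Edg) ∩ ↑(boxE n)) \ ↑(Lam c1 c2 r) ⊆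
      ↑F ∩ ↑(boxE n) := by
    rintro e ⟨⟨h1, h2⟩, h3⟩
    rw [Finset.coe_union] at h1
    exact ⟨h1.resolve_right h3, h2⟩
  have hBn : (↑F : Set Edg) ∩ ↑(Bg c1 c2 r) ⊆ ↑F ∩ ↑(boxE n) :=
    Set.inter_subset_inter_right _ (by exact_mod_cast Bg_sub ha)
  have hv' := hv
  unfold onB inR at hv'
  obtain ⟨l1, u1, l2, u2, or0⟩ := And.intro ha.l1 (And.intro ha.u1 (And.intro ha.l2
    (And.intro ha.u2 ha.or0)))
  rcases avoid_or (a := c1 - 4 * r) (b := c1 + 4 * r) (c := c2 - 4 * r) (d := c2 + 4 * r)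
    hreach with h1 | ⟨w, k1, k2, k3⟩
  · exact ⟨v, hv, h1.mono hsub⟩
  · obtain ⟨x, p1, -, p3⟩ := first_entry (G := (↑(F ∪ Lam c1 c2 r) : Set Edg) ∩ ↑(boxE n))
      (a := c1 - 4 * r) (b := c1 + 4 * r) (c := c2 - 4 * r) (d := c2 + 4 * r) (w := (0, 0))
      (v := w) (by left; unfold inR; simp only; omega) k2 k1
    obtain ⟨y, q1, -, q3⟩ := first_entry (G := (↑(F ∪ Lam c1 c2 r) : Set Edg) ∩ ↑(boxE n))
      (a := c1 - 4 * r) (b := c1 + 4 * r) (c := c2 - 4 * r) (d := c2 + 4 * r) (w := v)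
      (v := w) (by left; unfold inR; omega) k3.symm k1
    have p4 : Reach (↑F ∩ ↑(boxE n)) (0, 0) x := p3.mono hsub
    have q4 : Reach (↑F ∩ ↑(boxE n)) v y := q3.mono hsub
    have p5 := hz x (0, 0) p1 (by simp only; omega) (p4.symm.mono Set.inter_subset_left)
    have q5 := hz y v q1 (by omega) (q4.symm.mono Set.inter_subset_left)
    exact ⟨v, hv, p4.trans ((p5.mono hBn).trans ((q5.mono hBn).symm.trans q4.symm))⟩

theorem DC_arm {n : ℕ} {c1 c2 : ℤ} {r : ℕ} (ha : Adm n c1 c2 r) {F : Finset Edg}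
    (hD : DC c1 c2 r F) (h : Arm n F) : Arm n (F \ Lam c1 c2 r) := by
  have hr := ha.pos
  have hr' : (1:ℤ) ≤ r := by exact_mod_cast hr
  obtain ⟨v, hv, hreach⟩ := h
  have or0 := ha.or0
  rcases avoid_or (a := c1 - 4 * r) (b := c1 + 4 * r) (c := c2 - 4 * r) (d := c2 + 4 * r)
    hreach with h1 | ⟨w, k1, k2, k3⟩
  · refine ⟨v, hv, h1.mono ?_⟩
    rintro e ⟨⟨h2, h3⟩, h4⟩
    rw [Finset.coe_sdiff]
    exact ⟨⟨h2, h4⟩, h3⟩
  · exfalso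
    obtain ⟨w1, w2⟩ := w
    unfold inR at k1
    simp only at k1
    have h2 : Reach (↑F : Set Edg) (w1, w2) (0, 0) := (k2.mono Set.inter_subset_left).symm
    have h3 := (trl (-c1) (-c2)).reach h2
    rw [trl_ψ, trl_ψ, ← LSym.coe_mp] at h3
    exact not_blk_of_reach (R1 := ((4 * r : ℕ) : ℤ)) (R2 := ((8 * r : ℕ) : ℤ))
      (by push_cast; omega) (by unfold inR; simp only; push_cast; omega) h3
      (by simp only; push_cast; omega) hD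

end H31K
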