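import Pool.Agent.H31R3.Kes.Defs

/-!
Locality, monotonicity and probabilities of the open and dual circuits; gluing of arms in the
near-critical window.
-/

set_option maxHeartbeats 400000

namespace H31K

open H974 Finset

theorem circ_local {R1 R2 : ℤ} (h0 : 0 ≤ R1) (h1 : R1 ≤ R2) {T : Finset Edg}
    (hT : RE (-R2) R2 (-R2) R2 ⊆ T) (F : Finset Edg) :
    Circ R1 R2 F ↔ Circ R1 R2 (F ∩ T) := by
  have s1 : LRE (-R2) R2 R1 R2 ⊆ T :=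
    LRE_subset_RE.trans ((RE_subset le_rfl le_rfl (by omega) le_rfl).trans hT)
  have s2 : LRE (-R2) R2 (-R2) (-R1) ⊆ T :=
    LRE_subset_RE.trans ((RE_subset le_rfl le_rfl le_rfl (by omega)).trans hT)
  have s3 : TBE R1 R2 (-R2) R2 ⊆ T :=
    TBE_subset_RE.trans ((RE_subset (by omega) le_rfl le_rfl le_rfl).trans hT)
  have s4 : TBE (-R2) (-R1) (-R2) R2 ⊆ T :=
    TBE_subset_RE.trans ((RE_subset le_rfl (by omega) le_rfl le_rfl).trans hT)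
  unfold Circ
  rw [LRc_local (F := F) s1, LRc_local (F := F) s2, TBc_local (F := F) s3,
    TBc_local (F := F) s4]

theorem blk_subs {R1 R2 : ℤ} (h0 : 0 ≤ R1) (h1 : R1 ≤ R2) {T : Finset Edg}
    (hT : RE (-R2) R2 (-R2) R2 ⊆ T) :
    LRE R1 R2 (-R2) R2 ⊆ T ∧ LRE (-R2) (-R1) (-R2) R2 ⊆ T ∧
      TBE (-R2) R2 R1 R2 ⊆ T ∧ TBE (-R2) R2 (-R2) (-R1) ⊆ T :=
  ⟨LRE_subset_RE.trans ((RE_subset (by omega) le_rfl le_rfl le_rfl).trans hT),
    LRE_subset_RE.trans ((RE_subset le_rfl (by omega) le_rfl le_rfl).trans hT),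
    TBE_subset_RE.trans ((RE_subset le_rfl le_rfl (by omega) le_rfl).trans hT),
    TBE_subset_RE.trans ((RE_subset le_rfl le_rfl le_rfl (by omega)).trans hT)⟩

theorem blk_local {R1 R2 : ℤ} (h0 : 0 ≤ R1) (h1 : R1 ≤ R2) {T : Finset Edg}
    (hT : RE (-R2) R2 (-R2) R2 ⊆ T) (F : Finset Edg) :
    Blk R1 R2 F ↔ Blk R1 R2 (F ∩ T) := by
  obtain ⟨s1, s2, s3, s4⟩ := blk_subs h0 h1 hT
  unfold Blk
  rw [LRc_local (F := F) s1, LRc_local (F := F) s2, TBc_local (F := F) s3,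
    TBc_local (F := F) s4]

theorem trl_Bg (c1 c2 : ℤ) (r : ℕ) : (trl (-c1) (-c2)).mp (Bg c1 c2 r) =
    RE (-((8 * r : ℕ) : ℤ)) ((8 * r : ℕ) : ℤ) (-((8 * r : ℕ) : ℤ)) ((8 * r : ℕ) : ℤ) := by
  unfold Bg
  rw [trl_RE]
  congr 1 <;> push_cast <;> ring

theorem trl_Bg_sub {c1 c2 : ℤ} {r : ℕ} {S : Finset Edg} (hS : Bg c1 c2 r ⊆ S) :
    RE (-((8 * r : ℕ) : ℤ)) ((8 * r : ℕ) : ℤ) (-((8 * r : ℕ) : ℤ)) ((8 * r : ℕ) : ℤ) ⊆
      (trl (-c1) (-c2)).mp S := by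
  rw [← trl_Bg c1 c2 r]
  exact LSym.mp_mono _ hS

theorem OC_local {c1 c2 : ℤ} {r : ℕ} (_hr : 1 ≤ r) {S : Finset Edg} (hS : Bg c1 c2 r ⊆ S)
    (F : Finset Edg) : OC c1 c2 r F ↔ OC c1 c2 r (F ∩ S) := by
  unfold OC
  rw [LSym.mp_inter]
  exact circ_local (by positivity) (by push_cast; omega) (trl_Bg_sub hS) _

theorem DC_local {c1 c2 : ℤ} {r : ℕ} (_hr : 1 ≤ r) {S : Finset Edg} (hS : Bg c1 c2 r ⊆ S)
    (F : Finset Edg) : DC c1 c2 r F ↔ DC c1 c2 r (F ∩ S) := by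
  unfold DC
  rw [LSym.mp_inter]
  exact blk_local (by positivity) (by push_cast; omega) (trl_Bg_sub hS) _

theorem OC_mono {c1 c2 : ℤ} {r : ℕ} {F G : Finset Edg} (h : F ⊆ G) (hF : OC c1 c2 r F) :
    OC c1 c2 r G :=
  Circ.mono (LSym.mp_mono _ h) hF

theorem blk_anti {R1 R2 : ℤ} {F G : Finset Edg} (h : F ⊆ G) (hG : Blk R1 R2 G) :
    Blk R1 R2 F :=
  ⟨fun k => hG.1 (k.imp (LRc.mono h) (LRc.mono h)),
    fun k => hG.2 (k.imp (TBc.mono h) (TBc.mono h))⟩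

theorem DC_anti {c1 c2 : ℤ} {r : ℕ} {F G : Finset Edg} (h : F ⊆ G) (hG : DC c1 c2 r G) :
    DC c1 c2 r F :=
  blk_anti (LSym.mp_mono _ h) hG

theorem pO_ge {q κ : ℝ} {n : ℕ} (hW : H12S.Win q κ n) (c1 c2 : ℤ) {r : ℕ} (hr : 1 ≤ r)
    (hn : r + 1 ≤ n) : κ^4 ≤ pO q c1 c2 r := by
  have h0 : 0 ≤ q := by linarith [hW.lo]
  have h1 : q ≤ 1 := by linarith [hW.hi]
  unfold pO
  have e : Pr (fun _ => q) (Bg c1 c2 r) (OC c1 c2 r) =
      Pr (fun _ => q) ((trl (-c1) (-c2)).mp (Bg c1 c2 r))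
        (Circ ((4 * r : ℕ) : ℤ) ((8 * r : ℕ) : ℤ)) := by
    rw [LSym.pr]
    rfl
  rw [e]
  refine le_trans ?_ (pr_Circ h0 h1 (by positivity) (by push_cast; omega) (trl_Bg c1 c2 r).ge)
  apply pow_le_pow_left₀ hW.kpos.le
  refine (hW.pri r hr (by omega)).trans ?_
  apply hh_mono h0 h1
  · push_cast; omega
  · push_cast; omega
  · push_cast; omega

theorem strip_dual {q κ : ℝ} {n : ℕ} (hW : H12S.Win q κ n) {r : ℕ} (hr : 1 ≤ r)
    (hn : r + 1 ≤ n) : κ ≤ 1 - hh q (4 * r) (16 * r) := by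
  have h0 : 0 ≤ 1 - q := by linarith [hW.hi]
  have h1 : 1 - q ≤ 1 := by linarith [hW.lo]
  have hd := hh_dual (q := q) (w := 4 * r) (h := 16 * r) (by omega) (by omega)
  have h2 := hW.dua (r + 1) (by omega) hn
  have h3 : hh (1 - q) (16 * ((r + 1 : ℕ) : ℤ)) ((r + 1 : ℕ) : ℤ) ≤
      hh (1 - q) (16 * r + 1) (4 * r - 1) := by
    apply hh_mono h0 h1
    · omega
    · push_cast; omega
    · push_cast; omega
  linarith

theorem pD_ge {q κ : ℝ} {n : ℕ} (hW : H12S.Win q κ n) (c1 c2 : ℤ) {r : ℕ} (hr : 1 ≤ r)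
    (hn : r + 1 ≤ n) : κ^4 ≤ pD q c1 c2 r := by
  have h0 : 0 ≤ q := by linarith [hW.lo]
  have h1 : q ≤ 1 := by linarith [hW.hi]
  have ok := okq h0 h1
  unfold pD
  have e : Pr (fun _ => q) (Bg c1 c2 r) (DC c1 c2 r) =
      Pr (fun _ => q) ((trl (-c1) (-c2)).mp (Bg c1 c2 r))
        (Blk ((4 * r : ℕ) : ℤ) ((8 * r : ℕ) : ℤ)) := by
    rw [LSym.pr]
    rfl
  rw [e]
  set S := (trl (-c1) (-c2)).mp (Bg c1 c2 r) with hS
  set R1 : ℤ := ((4 * r : ℕ) : ℤ) with hR1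
  set R2 : ℤ := ((8 * r : ℕ) : ℤ) with hR2
  have hR1' : R1 = 4 * r := by rw [hR1]; push_cast; ring
  have hR2' : R2 = 8 * r := by rw [hR2]; push_cast; ring
  obtain ⟨s1, s2, s3, s4⟩ := blk_subs (R1 := R1) (R2 := R2) (by omega) (by omega)
    (trl_Bg c1 c2 r).ge
  have e1 := pr_LRc q s1
  have e2 := pr_LRc q s2
  have e3 := pr_TBc q s3
  have e4 := pr_TBc q s4
  have d1 : R2 - R1 = 4 * r := by omega
  have d2 : R2 - -R2 = 16 * r := by omega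
  have d3 : -R1 - -R2 = 4 * r := by omega
  rw [d1, d2] at e1
  rw [d3, d2] at e2
  rw [d1, d2] at e3
  rw [d3, d2] at e4
  have hval := strip_dual hW hr hn
  have i1 := Pr_harris_dd ok (LRc_incr S R1 R2 (-R2) R2) (LRc_incr S (-R2) (-R1) (-R2) R2)
  have i2 := Pr_harris_dd ok (TBc_incr S (-R2) R2 R1 R2) (TBc_incr S (-R2) R2 (-R2) (-R1))
  rw [e1, e2] at i1
  rw [e3, e4] at i2
  have c1 : IncrE S (fun F => LRc R1 R2 (-R2) R2 F ∨ LRc (-R2) (-R1) (-R2) R2 F) :=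
    fun F G hFG _ hF => hF.imp (LRc.mono hFG) (LRc.mono hFG)
  have c2 : IncrE S (fun F => TBc (-R2) R2 R1 R2 F ∨ TBc (-R2) R2 (-R2) (-R1) F) :=
    fun F G hFG _ hF => hF.imp (TBc.mono hFG) (TBc.mono hFG)
  have i3 := Pr_harris_dd ok c1 c2
  rw [← Pr_not, ← Pr_not] at i3
  have j1 : Pr (fun _ => q) S (fun F => ¬ (LRc R1 R2 (-R2) R2 F ∨
      LRc (-R2) (-R1) (-R2) R2 F)) = Pr (fun _ => q) S (fun F => ¬ LRc R1 R2 (-R2) R2 F ∧
      ¬ LRc (-R2) (-R1) (-R2) R2 F) := Pr_congr (fun F _ => not_or)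
  have j2 : Pr (fun _ => q) S (fun F => ¬ (TBc (-R2) R2 R1 R2 F ∨
      TBc (-R2) R2 (-R2) (-R1) F)) = Pr (fun _ => q) S (fun F => ¬ TBc (-R2) R2 R1 R2 F ∧
      ¬ TBc (-R2) R2 (-R2) (-R1) F) := Pr_congr (fun F _ => not_or)
  rw [j1, j2] at i3
  have hk := hW.kpos
  have k1 : κ * κ ≤ (1 - hh q (4 * r) (16 * r)) * (1 - hh q (4 * r) (16 * r)) :=
    mul_le_mul hval hval hk.le (hk.le.trans hval)
  have k2 : (κ * κ) * (κ * κ) ≤ _ := mul_le_mul (k1.trans i1) (k1.trans i2) (by positivity)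
    ((by positivity : 0 ≤ κ * κ).trans (k1.trans i1))
  calc κ^4 = (κ * κ) * (κ * κ) := by ring
    _ ≤ _ := k2
    _ ≤ _ := i3

/-- Gluing an arm, a circuit and a crossing. -/
theorem arm_of_glue3 {F : Finset Edg} {r n : ℕ} (hr : 1 ≤ r) (h2 : 2 * r ≤ n)
    (hA : Arm (2 * r) F) (hC : Circ r ((2 * r : ℕ) : ℤ) F) (hL : LRc 0 n (-r) r F) :
    Arm n F := by
  obtain ⟨z, hz⟩ := circ_meet (by positivity) (by push_cast; omega) hC
  obtain ⟨v, hv, hrv⟩ := hA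
  obtain ⟨y, y', hy, hy', hp⟩ := hL
  have m1 := hz (0, 0) v (by unfold inR; simp) hv.2 hrv
  obtain ⟨w, k1, k2, k3⟩ := first_exit (a := -((2 * r : ℕ) : ℤ)) (b := ((2 * r : ℕ) : ℤ))
    (c := -((2 * r : ℕ) : ℤ)) (d := ((2 * r : ℕ) : ℤ))
    (by unfold inR; simp only; push_cast; omega) hp (by simp only; push_cast; omega)
  have m2 := hz (0, y) w (by unfold inR; simp only; omega) k2
    (k3.mono (by rintro e ⟨⟨h4, -⟩, h5⟩; exact ⟨h4, h5⟩))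
  have hsub : (↑F : Set Edg) ∩ ↑(RE (-((2 * r : ℕ) : ℤ)) ((2 * r : ℕ) : ℤ)
      (-((2 * r : ℕ) : ℤ)) ((2 * r : ℕ) : ℤ)) ⊆ ↑F ∩ ↑(boxE n) :=
    Set.inter_subset_inter_right _ (by exact_mod_cast boxE_mono h2)
  have hsub2 : (↑F : Set Edg) ∩ ↑(LRE 0 n (-(r:ℤ)) r) ⊆ ↑F ∩ ↑(boxE n) := by
    apply Set.inter_subset_inter_right
    have : LRE 0 n (-(r:ℤ)) r ⊆ boxE n := by
      refine LRE_subset_RE.trans ?_
      unfold boxE
      apply RE_subset <;> omega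
    exact_mod_cast this
  refine ⟨(n, y'), ?_, (m1.mono hsub).trans ((m2.mono hsub).symm.trans (hp.mono hsub2))⟩
  refine ⟨?_, Or.inr (Or.inl rfl)⟩
  unfold inR
  simp only
  omega

theorem arm_glue_win {q κ : ℝ} {r n : ℕ} (hW : H12S.Win q κ (2 * r)) (hr : 1 ≤ r)
    (h2 : 2 * r ≤ n) (h3 : n ≤ 32 * r) : κ^5 * arm q (2 * r) ≤ arm q n := by
  have h0 : 0 ≤ q := by linarith [hW.lo]
  have h1 : q ≤ 1 := by linarith [hW.hi]
  have ok := okq h0 h1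
  have hsub : boxE (2 * r) ⊆ boxE n := boxE_mono h2
  have hk := hW.kpos
  have e1 := pr_Arm q hsub
  have e2 : κ^4 ≤ Pr (fun _ => q) (boxE n) (Circ r ((2 * r : ℕ) : ℤ)) := by
    refine le_trans ?_ (pr_Circ h0 h1 (R1 := r) (R2 := ((2 * r : ℕ) : ℤ)) (by positivity)
      (by push_cast; omega) hsub)
    apply pow_le_pow_left₀ hk.le
    refine (hW.pri r hr (by omega)).trans ?_
    apply hh_mono h0 h1
    · push_cast; omega
    · push_cast; omega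
    · push_cast; omega
  have hsub2 : LRE 0 n (-(r:ℤ)) r ⊆ boxE n := by
    refine LRE_subset_RE.trans ?_
    unfold boxE
    apply RE_subset <;> omega
  have e3 : κ ≤ Pr (fun _ => q) (boxE n) (LRc 0 n (-(r:ℤ)) r) := by
    rw [pr_LRc q hsub2]
    refine (hW.pri (2 * r) (by omega) le_rfl).trans ?_
    apply hh_mono h0 h1
    · omega
    · push_cast; omega
    · push_cast; omega
  have i1 := Pr_harris ok (Arm_incr (boxE n) (2 * r))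
    (B := Circ r ((2 * r : ℕ) : ℤ)) (fun F G h _ hF => hF.mono h)
  have i2 := Pr_harris ok (S := boxE n)
    (A := fun F => Arm (2 * r) F ∧ Circ r ((2 * r : ℕ) : ℤ) F)
    (B := LRc 0 n (-(r:ℤ)) r) (fun F G h _ hF => ⟨hF.1.mono h, hF.2.mono h⟩)
    (LRc_incr _ _ _ _ _)
  have i3 : Pr (fun _ => q) (boxE n)
      (fun F => (Arm (2 * r) F ∧ Circ r ((2 * r : ℕ) : ℤ) F) ∧ LRc 0 n (-(r:ℤ)) r F) ≤
        arm q n := by
    unfold arm
    apply Pr_mono ok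
    rintro F _ ⟨⟨k1, k2⟩, k3⟩
    exact arm_of_glue3 hr h2 k1 k2 k3
  rw [e1] at i1
  have ha : 0 ≤ arm q (2 * r) := arm_nonneg h0 h1 _
  have j1 : arm q (2 * r) * κ^4 ≤ _ := (mul_le_mul_of_nonneg_left e2 ha).trans i1
  have j2 : (arm q (2 * r) * κ^4) * κ ≤ _ :=
    (mul_le_mul j1 e3 hk.le ((by positivity : 0 ≤ arm q (2 * r) * κ^4).trans j1)).trans i2
  calc κ^5 * arm q (2 * r) = (arm q (2 * r) * κ^4) * κ := by ring
    _ ≤ _ := j2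
    _ ≤ _ := i3

end H31K
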