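import Pool.Agent.H31R3.Kes.Defs
import Pool.Agent.H31R3.Kes.Circuits
import Pool.Agent.H31R3.Kes.Prob

/-! T3: the block inequality (FKG and Cauchy-Schwarz). -/

set_option maxHeartbeats 400000

namespace H31K

open H974 Finset

theorem okW {q κ : ℝ} {n : ℕ} (hW : H12S.Win q κ n) : Ok (fun _ : Edg => q) :=
  okq (by linarith [hW.lo]) (by linarith [hW.hi])

theorem VV_local (q : ℝ) {c1 c2 : ℤ} {r : ℕ} (hr : 1 ≤ r) {S : Finset Edg}
    (hS : Bg c1 c2 r ⊆ S) (F : Finset Edg) : VV q c1 c2 r F = VV q c1 c2 r (F ∩ S) := by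
  unfold VV
  rw [ind_congr (OC_local hr hS F), ind_congr (DC_local hr hS F)]

theorem pr_OC (q : ℝ) {c1 c2 : ℤ} {r : ℕ} (hr : 1 ≤ r) {S : Finset Edg}
    (hS : Bg c1 c2 r ⊆ S) : Ex (fun _ => q) S (fun F => ind (OC c1 c2 r F)) = pO q c1 c2 r := by
  unfold pO Pr
  exact Ex_local hS (fun F _ => ind_congr (OC_local hr (Finset.Subset.refl _) F))

theorem pr_DC (q : ℝ) {c1 c2 : ℤ} {r : ℕ} (hr : 1 ≤ r) {S : Finset Edg}
    (hS : Bg c1 c2 r ⊆ S) : Ex (fun _ => q) S (fun F => ind (DC c1 c2 r F)) = pD q c1 c2 r := by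
  unfold pD Pr
  exact Ex_local hS (fun F _ => ind_congr (DC_local hr (Finset.Subset.refl _) F))

theorem VV_mean {q κ : ℝ} {n : ℕ} (hW : H12S.Win q κ n) (c1 c2 : ℤ) {r : ℕ} (hr : 1 ≤ r)
    (hn : r + 1 ≤ n) {S : Finset Edg} (hS : Bg c1 c2 r ⊆ S) :
    Ex (fun _ => q) S (VV q c1 c2 r) = 0 := by
  have hκ : 0 < κ ^ 4 := pow_pos hW.kpos 4
  have h1 := pO_ge hW c1 c2 hr hn
  have h2 := pD_ge hW c1 c2 hr hn
  have e : Ex (fun _ => q) S (VV q c1 c2 r) =
      Ex (fun _ => q) S (fun F => ind (OC c1 c2 r F) * (pO q c1 c2 r)⁻¹ -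
        ind (DC c1 c2 r F) * (pD q c1 c2 r)⁻¹) := by
    apply Ex_congr
    intro F _
    unfold VV
    rw [div_eq_mul_inv, div_eq_mul_inv]
  rw [e, Ex_sub, Ex_mul_right, Ex_mul_right, pr_OC q hr hS, pr_DC q hr hS,
    mul_inv_cancel₀ (by linarith), mul_inv_cancel₀ (by linarith), sub_self]

theorem VV_abs {q κ : ℝ} {n : ℕ} (hW : H12S.Win q κ n) (c1 c2 : ℤ) {r : ℕ} (hr : 1 ≤ r)
    (hn : r + 1 ≤ n) (F : Finset Edg) : |VV q c1 c2 r F| ≤ 1 / κ^4 := by
  have hκ : 0 < κ ^ 4 := pow_pos hW.kpos 4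
  have h1 := pO_ge hW c1 c2 hr hn
  have h2 := pD_ge hW c1 c2 hr hn
  have a1 : ind (OC c1 c2 r F) / pO q c1 c2 r ≤ 1 / κ^4 :=
    div_le_div₀ zero_le_one (ind_le_one _) hκ h1
  have a2 : ind (DC c1 c2 r F) / pD q c1 c2 r ≤ 1 / κ^4 :=
    div_le_div₀ zero_le_one (ind_le_one _) hκ h2
  have b1 : 0 ≤ ind (OC c1 c2 r F) / pO q c1 c2 r :=
    div_nonneg (ind_nonneg _) (by linarith)
  have b2 : 0 ≤ ind (DC c1 c2 r F) / pD q c1 c2 r :=
    div_nonneg (ind_nonneg _) (by linarith)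
  unfold VV
  rw [abs_le]
  constructor <;> linarith

theorem Adm.le {n : ℕ} {c1 c2 : ℤ} {r : ℕ} (ha : Adm n c1 c2 r) : r + 1 ≤ n := by
  have h1 := ha.pos
  have h2 := ha.l1
  have h3 := ha.u1
  omega

theorem Adm.sub {n : ℕ} {c1 c2 : ℤ} {r : ℕ} (ha : Adm n c1 c2 r) : Bg c1 c2 r ⊆ boxE n := by
  have h1 := ha.pos
  have h2 := ha.l1
  have h3 := ha.u1
  have h4 := ha.l2
  have h5 := ha.u2
  unfold Bg boxE
  exact RE_subset (by omega) (by omega) (by omega) (by omega)

/-- FKG: the pivotality of the box is at most the correlation with `VV`. -/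
theorem piv_VV {q κ : ℝ} {n : ℕ} (hW : H12S.Win q κ n) {c1 c2 : ℤ} {r : ℕ}
    (ha : Adm n c1 c2 r) :
    Pr (fun _ => q) (boxE n) (PB n c1 c2 r) ≤
      Ex (fun _ => q) (boxE n) (fun F => ind (Arm n F) * VV q c1 c2 r F) := by
  have hκ : 0 < κ ^ 4 := pow_pos hW.kpos 4
  have h1 := pO_ge hW c1 c2 ha.pos ha.le
  have h2 := pD_ge hW c1 c2 ha.pos ha.le
  have ok := okW hW
  -- the pivotality
  have e0 : Pr (fun _ => q) (boxE n) (PB n c1 c2 r) =
      Ex (fun _ => q) (boxE n) (fun F => ind (Arm n (F ∪ Lam c1 c2 r))) -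
        Ex (fun _ => q) (boxE n) (fun F => ind (Arm n (F \ Lam c1 c2 r))) := by
    unfold Pr
    rw [← Ex_sub]
    apply Ex_congr
    intro F _
    unfold PB
    rw [ind_and, ind_not]
    by_cases h : Arm n (F \ Lam c1 c2 r)
    · have h' : Arm n (F ∪ Lam c1 c2 r) :=
        h.mono (Finset.sdiff_subset.trans Finset.subset_union_left)
      rw [ind_of h, ind_of h']; ring
    · rw [ind_not_of h]; ring
  -- the open circuit
  have e1 : Ex (fun _ => q) (boxE n) (fun F => ind (Arm n (F ∪ Lam c1 c2 r))) * pO q c1 c2 r ≤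
      Ex (fun _ => q) (boxE n) (fun F => ind (Arm n F) * ind (OC c1 c2 r F)) := by
    rw [← pr_OC q ha.pos ha.sub]
    have h := harris (p := fun _ : Edg => q) ok (S := boxE n)
      (f := fun F => ind (Arm n (F ∪ Lam c1 c2 r))) (g := fun F => ind (OC c1 c2 r F))
      (fun A B hAB _ => ind_mono (fun h => h.mono (Finset.union_subset_union_left hAB)))
      (fun A B hAB _ => ind_mono (fun h => OC_mono hAB h))
    refine h.trans (le_of_eq ?_)
    apply Ex_congr
    intro F _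
    rw [← ind_and, ← ind_and]
    apply ind_congr
    constructor
    · rintro ⟨k1, k2⟩
      exact ⟨OC_arm ha k2 k1, k2⟩
    · rintro ⟨k1, k2⟩
      exact ⟨k1.mono Finset.subset_union_left, k2⟩
  -- the dual circuit
  have e2 : Ex (fun _ => q) (boxE n) (fun F => ind (Arm n F) * ind (DC c1 c2 r F)) ≤
      Ex (fun _ => q) (boxE n) (fun F => ind (Arm n (F \ Lam c1 c2 r))) * pD q c1 c2 r := by
    rw [← pr_DC q ha.pos ha.sub]
    have h := Pr_harris_decr (p := fun _ : Edg => q) ok (S := boxE n)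
      (A := fun F => Arm n (F \ Lam c1 c2 r)) (B := fun F => DC c1 c2 r F)
      (fun A B hAB _ h => h.mono (Finset.sdiff_subset_sdiff hAB (Finset.Subset.refl _)))
      (fun A B hAB _ h hB => h (DC_anti hAB hB))
    refine le_trans (le_of_eq ?_) h
    unfold Pr
    apply Ex_congr
    intro F _
    rw [← ind_and]
    apply ind_congr
    constructor
    · rintro ⟨k1, k2⟩
      exact ⟨DC_arm ha k2 k1, k2⟩
    · rintro ⟨k1, k2⟩
      exact ⟨k1.mono Finset.sdiff_subset, k2⟩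
  have e3 : Ex (fun _ => q) (boxE n) (fun F => ind (Arm n F) * VV q c1 c2 r F) =
      Ex (fun _ => q) (boxE n) (fun F => ind (Arm n F) * ind (OC c1 c2 r F)) *
        (pO q c1 c2 r)⁻¹ -
      Ex (fun _ => q) (boxE n) (fun F => ind (Arm n F) * ind (DC c1 c2 r F)) *
        (pD q c1 c2 r)⁻¹ := by
    rw [← Ex_mul_right, ← Ex_mul_right, ← Ex_sub]
    apply Ex_congr
    intro F _
    unfold VV
    rw [div_eq_mul_inv, div_eq_mul_inv]
    ring
  have hpO : 0 < pO q c1 c2 r := by linarith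
  have hpD : 0 < pD q c1 c2 r := by linarith
  have f1 : Ex (fun _ => q) (boxE n) (fun F => ind (Arm n (F ∪ Lam c1 c2 r))) ≤
      Ex (fun _ => q) (boxE n) (fun F => ind (Arm n F) * ind (OC c1 c2 r F)) *
        (pO q c1 c2 r)⁻¹ := by
    rw [← div_eq_mul_inv, le_div_iff₀ hpO]
    exact e1
  have f2 : Ex (fun _ => q) (boxE n) (fun F => ind (Arm n F) * ind (DC c1 c2 r F)) *
        (pD q c1 c2 r)⁻¹ ≤
      Ex (fun _ => q) (boxE n) (fun F => ind (Arm n (F \ Lam c1 c2 r))) := by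
    rw [← div_eq_mul_inv, div_le_iff₀ hpD]
    exact e2
  rw [e0, e3]
  linarith

/-- Consequence: a pivotal box costs only a constant. -/
theorem piv_le_arm {q κ : ℝ} {n : ℕ} (hW : H12S.Win q κ n) {c1 c2 : ℤ} {r : ℕ}
    (ha : Adm n c1 c2 r) : Pr (fun _ => q) (boxE n) (PB n c1 c2 r) ≤ 1 / κ^4 * arm q n := by
  refine (piv_VV hW ha).trans ?_
  unfold arm Pr
  rw [← Ex_mul_left]
  refine Ex_mono (okW hW) fun F _ => ?_
  have h1 := (abs_le.1 (VV_abs hW c1 c2 ha.pos ha.le F)).2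
  have h2 := mul_le_mul_of_nonneg_left h1 (ind_nonneg (Arm n F))
  linarith

/-- Cauchy-Schwarz given the inner arm. -/
theorem cs_arm {q : ℝ} (h0 : 0 ≤ q) (h1 : q ≤ 1) {n r1 : ℕ} (hr : r1 ≤ n)
    {G : Finset Edg → ℝ} (hG : ∀ F, F ⊆ boxE n → G F = G (F ∩ (boxE n \ boxE r1))) {M : ℝ}
    (hM : Ex (fun _ => q) (boxE n) (fun F => (G F)^2) ≤ M) :
    Ex (fun _ => q) (boxE n) (fun F => ind (Arm n F) * G F) ≤
      Real.sqrt (arm q n * arm q r1 * M) := by
  have ok : Ok (fun _ : Edg => q) := okq h0 h1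
  have e1 : Ex (fun _ => q) (boxE n) (fun F => ind (Arm n F) * G F) =
      Ex (fun _ => q) (boxE n) (fun F => ind (Arm n F) * (ind (Arm r1 F) * G F)) := by
    apply Ex_congr
    intro F _
    by_cases h : Arm n F
    · rw [ind_of h, ind_of (Arm_anti hr h)]; ring
    · rw [ind_not_of h]; ring
  rw [e1]
  refine (le_abs_self _).trans (Real.abs_le_sqrt ?_)
  refine (Ex_cs ok _ _ _).trans ?_
  have e2 : Ex (fun _ => q) (boxE n) (fun F => (ind (Arm n F))^2) = arm q n := by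
    unfold arm Pr
    apply Ex_congr
    intro F _
    rw [pow_two, ind_sq]
  have e3 : Ex (fun _ => q) (boxE n) (fun F => (ind (Arm r1 F) * G F)^2) =
      arm q r1 * Ex (fun _ => q) (boxE n) (fun F => (G F)^2) := by
    rw [← pr_Arm q (boxE_mono hr)]
    have h := Ex_mul_indep (p := fun _ : Edg => q) (U := boxE n) (S := boxE r1)
      (T := boxE n \ boxE r1) (boxE_mono hr) Finset.sdiff_subset Finset.disjoint_sdiff
      (f := fun F => ind (Arm r1 F)) (g := fun F => (G F)^2)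
      (fun F _ => ind_congr (Arm_local (Finset.Subset.refl _)))
      (fun F hF => congrArg (fun x => x^2) (hG F hF))
    refine Eq.trans ?_ h
    apply Ex_congr
    intro F _
    rw [mul_pow, pow_two (ind _), ind_sq]
  rw [e2, e3]
  have h2 : 0 ≤ arm q n := arm_nonneg h0 h1 n
  have h3 : 0 ≤ arm q r1 := arm_nonneg h0 h1 r1
  rw [mul_assoc]
  exact mul_le_mul_of_nonneg_left (mul_le_mul_of_nonneg_left hM h3) h2

theorem Bg_disj {r : ℕ} (hr : 1 ≤ r) {t t' : ℤ × ℤ}
    (h : ¬ (|t.1 - t'.1| ≤ 8 ∧ |t.2 - t'.2| ≤ 8)) :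
    Disjoint (Bg (2 * r * t.1 + r) (2 * r * t.2 + r) r)
      (Bg (2 * r * t'.1 + r) (2 * r * t'.2 + r) r) := by
  have hr' : (1 : ℤ) ≤ (r : ℤ) := by exact_mod_cast hr
  rw [Finset.disjoint_left]
  obtain ⟨t1, t2⟩ := t
  obtain ⟨s1, s2⟩ := t'
  simp only [] at h ⊢
  have key : 9 ≤ t1 - s1 ∨ 9 ≤ s1 - t1 ∨ 9 ≤ t2 - s2 ∨ 9 ≤ s2 - t2 := by
    rw [not_and_or, not_le, not_le] at h
    rcases h with h | h
    · rcases lt_abs.1 h with h | h <;> omega
    · rcases lt_abs.1 h with h | h <;> omega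
  have key' : (r:ℤ) * 9 ≤ r * t1 - r * s1 ∨ (r:ℤ) * 9 ≤ r * s1 - r * t1 ∨
      (r:ℤ) * 9 ≤ r * t2 - r * s2 ∨ (r:ℤ) * 9 ≤ r * s2 - r * t2 := by
    have hm : ∀ a b : ℤ, 9 ≤ a - b → (r:ℤ) * 9 ≤ r * a - r * b := by
      intro a b hab
      have := mul_le_mul_of_nonneg_left hab (by omega : (0:ℤ) ≤ r)
      linarith [mul_sub (r:ℤ) a b]
    rcases key with h | h | h | h
    · exact Or.inl (hm _ _ h)
    · exact Or.inr (Or.inl (hm _ _ h))
    · exact Or.inr (Or.inr (Or.inl (hm _ _ h)))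
    · exact Or.inr (Or.inr (Or.inr (hm _ _ h)))
  have e1 : 2 * (r:ℤ) * t1 = 2 * (r * t1) := by ring
  have e2 : 2 * (r:ℤ) * t2 = 2 * (r * t2) := by ring
  have e3 : 2 * (r:ℤ) * s1 = 2 * (r * s1) := by ring
  have e4 : 2 * (r:ℤ) * s2 = 2 * (r * s2) := by ring
  rw [e1, e2, e3, e4]
  generalize (r:ℤ) * t1 = a1 at *
  generalize (r:ℤ) * t2 = a2 at *
  generalize (r:ℤ) * s1 = b1 at *
  generalize (r:ℤ) * s2 = b2 at *
  unfold Bg
  rintro ⟨x, y, _ | _⟩ h1 h2
  · simp only [mem_RE_false] at h1 h2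
    omega
  · simp only [mem_RE_true] at h1 h2
    omega

/-- The block inequality for boxes of a grid. -/
theorem blk {q κ : ℝ} {n : ℕ} (hW : H12S.Win q κ n) {r r1 : ℕ} (hr1 : r1 ≤ n)
    (T : Finset (ℤ × ℤ)) (hT : ∀ t ∈ T, Adm n (2 * r * t.1 + r) (2 * r * t.2 + r) r)
    (hd : ∀ t ∈ T, Disjoint (Bg (2 * r * t.1 + r) (2 * r * t.2 + r) r) (boxE r1)) :
    ∑ t ∈ T, Pr (fun _ => q) (boxE n) (PB n (2 * r * t.1 + r) (2 * r * t.2 + r) r) ≤
      17 / κ^4 * Real.sqrt (T.card * (arm q n * arm q r1)) := by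
  classical
  have hκ : 0 < κ ^ 4 := pow_pos hW.kpos 4
  have h0 : 0 ≤ q := by linarith [hW.lo]
  have h1 : q ≤ 1 := by linarith [hW.hi]
  have ok := okW hW
  set W : ℤ × ℤ → Finset Edg → ℝ := fun t => VV q (2 * r * t.1 + r) (2 * r * t.2 + r) r with hWdef
  set G : Finset Edg → ℝ := fun F => ∑ t ∈ T, W t F with hG
  have a1 : ∑ t ∈ T, Pr (fun _ => q) (boxE n) (PB n (2 * r * t.1 + r) (2 * r * t.2 + r) r) ≤
      Ex (fun _ => q) (boxE n) (fun F => ind (Arm n F) * G F) := by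
    have e : Ex (fun _ => q) (boxE n) (fun F => ind (Arm n F) * G F) =
        ∑ t ∈ T, Ex (fun _ => q) (boxE n) (fun F => ind (Arm n F) * W t F) := by
      rw [← Ex_sum]
      apply Ex_congr
      intro F _
      rw [hG]
      exact Finset.mul_sum _ _ _
    rw [e]
    exact Finset.sum_le_sum fun t ht => piv_VV hW (hT t ht)
  have a2 : Ex (fun _ => q) (boxE n) (fun F => (G F)^2) ≤ 289 * T.card * (1 / κ^4)^2 := by
    have e : Ex (fun _ => q) (boxE n) (fun F => (G F)^2) =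
        ∑ t ∈ T, ∑ t' ∈ T, Ex (fun _ => q) (boxE n) (fun F => W t F * W t' F) := by
      rw [Finset.sum_congr rfl (fun t _ => (Ex_sum _ _ T (fun t' F => W t F * W t' F)).symm),
        ← Ex_sum]
      apply Ex_congr
      intro F _
      rw [hG, pow_two]
      exact Finset.sum_mul_sum _ _ _ _
    rw [e]
    have b : ∀ t ∈ T, ∑ t' ∈ T, Ex (fun _ => q) (boxE n) (fun F => W t F * W t' F) ≤
        289 * (1 / κ^4)^2 := by
      intro t ht
      have c : ∀ t' ∈ T, Ex (fun _ => q) (boxE n) (fun F => W t F * W t' F) ≤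
          if (|t.1 - t'.1| ≤ 8 ∧ |t.2 - t'.2| ≤ 8) then (1 / κ^4)^2 else 0 := by
        intro t' ht'
        split_ifs with hc
        · refine Ex_le_of_le ok fun F _ => ?_
          refine (le_abs_self _).trans ?_
          rw [abs_mul, pow_two]
          exact mul_le_mul (VV_abs hW _ _ (hT t ht).pos (hT t ht).le F)
            (VV_abs hW _ _ (hT t' ht').pos (hT t' ht').le F) (abs_nonneg _)
            (div_nonneg zero_le_one hκ.le)
        · apply le_of_eq
          rw [Ex_mul_indep (hT t ht).sub (hT t' ht').sub (Bg_disj (hT t ht).pos hc)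
            (fun F _ => VV_local q (hT t ht).pos (Finset.Subset.refl _) F)
            (fun F _ => VV_local q (hT t' ht').pos (Finset.Subset.refl _) F)]
          have hm : Ex (fun _ => q) (boxE n) (fun F => VV q (2 * r * t.1 + r)
              (2 * r * t.2 + r) r F) = 0 :=
            VV_mean hW _ _ (hT t ht).pos (hT t ht).le (hT t ht).sub
          rw [hm, zero_mul]
      refine (Finset.sum_le_sum c).trans ?_
      rw [← Finset.sum_filter, Finset.sum_const, nsmul_eq_mul]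
      apply mul_le_mul_of_nonneg_right _ (sq_nonneg _)
      have hsub : T.filter (fun t' => |t.1 - t'.1| ≤ 8 ∧ |t.2 - t'.2| ≤ 8) ⊆
          Finset.Icc (t.1 - 8) (t.1 + 8) ×ˢ Finset.Icc (t.2 - 8) (t.2 + 8) := by
        intro t' ht'
        rw [Finset.mem_filter] at ht'
        obtain ⟨-, h1, h2⟩ := ht'
        rw [abs_le] at h1 h2
        rw [Finset.mem_product, Finset.mem_Icc, Finset.mem_Icc]
        omega
      have hcard := Finset.card_le_card hsub
      rw [Finset.card_product, Int.card_Icc, Int.card_Icc] at hcard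
      have e1 : (t.1 + 8 + 1 - (t.1 - 8)).toNat = 17 := by omega
      have e2 : (t.2 + 8 + 1 - (t.2 - 8)).toNat = 17 := by omega
      rw [e1, e2] at hcard
      exact_mod_cast hcard
    refine (Finset.sum_le_sum b).trans ?_
    rw [Finset.sum_const, nsmul_eq_mul]
    apply le_of_eq; ring
  have a3 : ∀ F, F ⊆ boxE n → G F = G (F ∩ (boxE n \ boxE r1)) := by
    intro F _
    rw [hG]
    refine Finset.sum_congr rfl fun t ht => ?_
    refine VV_local q (hT t ht).pos ?_ F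
    intro e he
    rw [Finset.mem_sdiff]
    exact ⟨(hT t ht).sub he, Finset.disjoint_left.1 (hd t ht) he⟩
  refine a1.trans ((cs_arm h0 h1 hr1 a3 a2).trans (le_of_eq ?_))
  have e : arm q n * arm q r1 * (289 * T.card * (1 / κ^4)^2) =
      (17 / κ^4)^2 * (T.card * (arm q n * arm q r1)) := by
    rw [div_pow, div_pow]
    ring
  rw [e, Real.sqrt_mul (sq_nonneg _), Real.sqrt_sq (div_nonneg (by norm_num) hκ.le)]

/-- The same for single edges. -/
theorem blk_edges {q : ℝ} (h0 : 1/4 ≤ q) (h1 : q ≤ 3/4) {n r1 : ℕ} (hr1 : r1 ≤ n)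
    (T : Finset Edg) (hT : T ⊆ boxE n \ boxE r1) :
    ∑ e ∈ T, Pr (fun _ => q) ((boxE n).erase e) (PivA n e) ≤
      3 * Real.sqrt (T.card * (arm q n * arm q r1)) := by
  classical
  have h0' : 0 ≤ q := by linarith
  have h1' : q ≤ 1 := by linarith
  have ok : Ok (fun _ : Edg => q) := okq h0' h1'
  have hTn : ∀ e ∈ T, e ∈ boxE n := fun e he => (Finset.mem_sdiff.1 (hT he)).1
  set G : Finset Edg → ℝ := fun F => ∑ e ∈ T, (ind (e ∈ F) - q) with hG
  set Q : ℝ := q * (1 - q) with hQ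
  have hQ1 : 1/9 ≤ Q := by rw [hQ]; nlinarith
  -- the sum as a correlation
  have a1 : Q * ∑ e ∈ T, Pr (fun _ => q) ((boxE n).erase e) (PivA n e) =
      Ex (fun _ => q) (boxE n) (fun F => ind (Arm n F) * G F) := by
    have e : Ex (fun _ => q) (boxE n) (fun F => ind (Arm n F) * G F) =
        ∑ e ∈ T, Ex (fun _ => q) (boxE n) (fun F => (ind (e ∈ F) - q) * ind (Arm n F)) := by
      rw [← Ex_sum]
      apply Ex_congr
      intro F _
      rw [hG, mul_comm]
      exact Finset.sum_mul _ _ _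
    rw [e, Finset.mul_sum]
    refine Finset.sum_congr rfl fun e he => ?_
    have h := Ex_diff (p := fun _ : Edg => q) (hTn e he) (fun F => ind (Arm n F))
    rw [h]
    unfold Pr
    rw [hQ]
    congr 1
    apply Ex_congr
    intro F _
    rw [ind_piv]
  have a2 : Ex (fun _ => q) (boxE n) (fun F => (G F)^2) ≤ T.card * Q := by
    have e : Ex (fun _ => q) (boxE n) (fun F => (G F)^2) =
        ∑ e ∈ T, ∑ e' ∈ T, Ex (fun _ => q) (boxE n)
          (fun F => (ind (e ∈ F) - q) * (ind (e' ∈ F) - q)) := by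
      rw [Finset.sum_congr rfl (fun t _ => (Ex_sum _ _ T
        (fun t' F => (ind (t ∈ F) - q) * (ind (t' ∈ F) - q))).symm), ← Ex_sum]
      apply Ex_congr
      intro F _
      rw [hG, pow_two]
      exact Finset.sum_mul_sum _ _ _ _
    rw [e]
    apply le_of_eq
    rw [← nsmul_eq_mul, ← Finset.sum_const]
    refine Finset.sum_congr rfl fun e he => ?_
    rw [Finset.sum_eq_single e]
    · have h := Ex_diff (p := fun _ : Edg => q) (hTn e he) (fun F => ind (e ∈ F) - q)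
      rw [h]
      rw [hQ]
      have h2 : Ex (fun _ => q) ((boxE n).erase e)
          (fun F => ind (e ∈ insert e F) - q - (ind (e ∈ F) - q)) = 1 := by
        rw [← Ex_const (fun _ => q) ((boxE n).erase e) 1]
        apply Ex_congr
        intro F hF
        rw [ind_of (Finset.mem_insert_self _ _),
          ind_not_of (fun h => Finset.notMem_erase e _ (hF h))]
        ring
      rw [h2, mul_one]
    · intro e' he' hne
      have h := Ex_diff (p := fun _ : Edg => q) (hTn e he) (fun F => ind (e' ∈ F) - q)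
      rw [h]
      have h2 : Ex (fun _ => q) ((boxE n).erase e)
          (fun F => ind (e' ∈ insert e F) - q - (ind (e' ∈ F) - q)) = 0 := by
        rw [← Ex_const (fun _ => q) ((boxE n).erase e) 0]
        apply Ex_congr
        intro F hF
        have : e' ∈ insert e F ↔ e' ∈ F := by
          rw [Finset.mem_insert]
          exact ⟨fun h => h.resolve_left hne, Or.inr⟩
        rw [ind_congr this]
        ring
      rw [h2, mul_zero]
    · intro h; exact absurd he h
  have a3 : ∀ F, F ⊆ boxE n → G F = G (F ∩ (boxE n \ boxE r1)) := by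
    intro F _
    rw [hG]
    refine Finset.sum_congr rfl fun e he => ?_
    have : e ∈ F ↔ e ∈ F ∩ (boxE n \ boxE r1) := by
      rw [Finset.mem_inter]
      exact ⟨fun h => ⟨h, hT he⟩, fun h => h.1⟩
    rw [ind_congr this]
  have a4 := cs_arm h0' h1' hr1 a3 a2
  rw [← a1] at a4
  have e : arm q n * arm q r1 * (T.card * Q) = Q * (T.card * (arm q n * arm q r1)) := by ring
  have hQ0 : 0 < Q := by linarith
  rw [e, Real.sqrt_mul hQ0.le] at a4
  set A : ℝ := Real.sqrt (T.card * (arm q n * arm q r1)) with hA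
  have hA0 : 0 ≤ A := Real.sqrt_nonneg _
  have hs : Real.sqrt Q * A ≤ Q * (3 * A) := by
    have h3 : Real.sqrt Q ≤ 3 * Q := by
      have h4 : 1/3 ≤ Real.sqrt Q := by
        apply Real.le_sqrt_of_sq_le
        norm_num
        linarith
      have h5 := Real.mul_self_sqrt hQ0.le
      nlinarith
    have := mul_le_mul_of_nonneg_right h3 hA0
    linarith
  exact le_of_mul_le_mul_left (a4.trans hs) hQ0

end H31K
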