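import Pool.Agent.H31R3.Kes.Defs

/-!
PART III [F], task T4: the local four-arm event.
-/

set_option maxHeartbeats 400000

namespace H31K

open H974 Finset

theorem pr_F4_le {q : ℝ} (h0 : 0 ≤ q) (h1 : q ≤ 1) {c1 c2 : ℤ} {r : ℕ} (hr : 1 ≤ r) {e : Edg}
    (he : e ∈ Cor c1 c2 r) :
    Pr (fun _ => q) ((Lam c1 c2 r).erase e) (F4 src tgt (BL c1 c2 r) e) ≤
      H12S.a4 q (3 * r) := by
  obtain ⟨x, y, b⟩ := e
  have hr' : (1:ℤ) ≤ r := by exact_mod_cast hr
  have hpos : (c1 - r ≤ x ∧ x ≤ c1 + r) ∧ (c2 - r ≤ y ∧ y ≤ c2 + r) := by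
    unfold Cor at he
    cases b
    · rw [mem_RE_false] at he; omega
    · rw [mem_RE_true] at he; omega
  set e : Edg := (x, y, b) with he'
  set S : Finset Edg := RE (x - 3 * r) (x + 3 * r) (y - 3 * r) (y + 3 * r) with hS
  set g := trl (-x) (-y) with hg
  have hgS : g.mp S = boxE (3 * r) := by
    rw [hg, hS, trl_RE]
    unfold boxE
    push_cast
    congr 1 <;> ring
  have hge : g.φ e = H12S.e0 b := by
    rw [hg, he', trl_φ]
    simp [H12S.e0]
  have hsrc : g.ψ (src e) = src (H12S.e0 b) := by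
    rw [hg, he']
    simp [H12S.e0]
  have htgt : g.ψ (tgt e) = tgt (H12S.e0 b) := by
    rw [hg, he']
    cases b <;> simp [H12S.e0, add_comm, add_left_comm]
  have hSL : S ⊆ Lam c1 c2 r :=
    RE_subset (by omega) (by omega) (by omega) (by omega)
  have heS : e ∈ S := by
    rw [hS, he']
    cases b
    · rw [mem_RE_false]; omega
    · rw [mem_RE_true]; omega
  set A : Finset Edg → Prop := fun F =>
    H12S.A4 (-((3 * r : ℕ) : ℤ)) ((3 * r : ℕ) : ℤ) (-((3 * r : ℕ) : ℤ)) ((3 * r : ℕ) : ℤ)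
      (H12S.e0 b) (↑F : Set Edg) with hA
  have ok := okq h0 h1
  -- step 1
  have s1 : Pr (fun _ => q) ((Lam c1 c2 r).erase e) (F4 src tgt (BL c1 c2 r) e) ≤
      Pr (fun _ => q) ((Lam c1 c2 r).erase e) (fun F => A (g.mp F)) := by
    apply Pr_mono ok
    rintro F hF ⟨⟨w, hw, hwr⟩, ⟨w', hw', hwr'⟩, hno⟩
    have heF : e ∉ F := fun h => (Finset.notMem_erase e _) (hF h)
    have key : ∀ u v : Vtx, inR (x - 3 * r) (x + 3 * r) (y - 3 * r) (y + 3 * r) u →
        v ∈ BL c1 c2 r → Reach (↑F : Set Edg) u v →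
        ∃ z ∈ bdR (-((3 * r : ℕ) : ℤ)) ((3 * r : ℕ) : ℤ) (-((3 * r : ℕ) : ℤ)) ((3 * r : ℕ) : ℤ),
          Reach (((↑(g.mp F) : Set Edg) ∩ ↑(RE (-((3 * r : ℕ) : ℤ)) ((3 * r : ℕ) : ℤ)
            (-((3 * r : ℕ) : ℤ)) ((3 * r : ℕ) : ℤ))) \ {H12S.e0 b}) (g.ψ u) z := by
      intro u v hu hv huv
      unfold BL bdR inR at hv
      simp only [Set.mem_ofPred_eq] at hv
      obtain ⟨z, k1, k2, k3⟩ := first_exit hu huv (by omega)
      refine ⟨g.ψ z, ?_, ?_⟩
      · obtain ⟨z1, z2⟩ := z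
        unfold inR at k1
        unfold bdR inR
        rw [hg, trl_ψ]
        simp only [Set.mem_ofPred_eq] at k1 k2 ⊢
        push_cast
        omega
      · have h3 := g.reach k3
        rw [← hS, LSym.image_inter, hgS] at h3
        refine h3.mono ?_
        rintro f ⟨f1, f2⟩
        refine ⟨⟨f1, f2⟩, ?_⟩
        intro hf
        rw [Set.mem_singleton_iff] at hf
        rw [Finset.mem_coe, LSym.mem_mp, hf, ← hge, Equiv.symm_apply_apply] at f1
        exact heF f1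
    refine ⟨?_, ?_, ?_⟩
    · obtain ⟨z, z1, z2⟩ := key (src e) w (by rw [he']; unfold inR; simp only [src_mk]; omega) hw hwr
      rw [hsrc] at z2
      exact ⟨z, z1, z2⟩
    · obtain ⟨z, z1, z2⟩ := key (tgt e) w' (by
        rw [he']; unfold inR
        cases b
        · simp only [tgt_false]; omega
        · simp only [tgt_true]; omega) hw' hwr'
      rw [htgt] at z2
      exact ⟨z, z1, z2⟩
    · intro h3
      have h4 : Reach (↑(g.mp F) : Set Edg) (src (H12S.e0 b)) (tgt (H12S.e0 b)) :=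
        h3.mono (fun f hf => hf.1.1)
      rw [LSym.coe_mp, ← hsrc, ← htgt, LSym.reach_iff] at h4
      exact hno h4
  -- step 2
  have hdep : ∀ F T : Finset Edg, S.erase e ⊆ T → (A (g.mp F) ↔ A (g.mp (F ∩ T))) := by
    intro F T hT
    have hset : ((↑(g.mp F) : Set Edg) ∩ ↑(boxE (3 * r))) \ {H12S.e0 b} =
        ((↑(g.mp (F ∩ T)) : Set Edg) ∩ ↑(boxE (3 * r))) \ {H12S.e0 b} := by
      ext f
      simp only [Set.mem_sdiff, Set.mem_inter_iff, Finset.mem_coe, LSym.mem_mp, Finset.mem_inter,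
        Set.mem_singleton_iff]
      constructor
      · rintro ⟨⟨f1, f2⟩, f3⟩
        refine ⟨⟨⟨f1, hT ?_⟩, f2⟩, f3⟩
        rw [Finset.mem_erase]
        refine ⟨?_, ?_⟩
        · intro h
          apply f3
          rw [← hge, ← h, Equiv.apply_symm_apply]
        · rw [← hgS, LSym.mem_mp] at f2
          exact f2
      · rintro ⟨⟨⟨f1, _⟩, f2⟩, f3⟩
        exact ⟨⟨f1, f2⟩, f3⟩
    rw [hA]
    unfold H12S.A4
    unfold boxE at hset
    simp only
    rw [hset]
  have s2 : Pr (fun _ => q) ((Lam c1 c2 r).erase e) (fun F => A (g.mp F)) =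
      Pr (fun _ => q) (S.erase e) (fun F => A (g.mp F)) :=
    Pr_local (Finset.erase_subset_erase _ hSL) (fun F _ => hdep F _ (Finset.Subset.refl _))
  have s3 : Pr (fun _ => q) S (fun F => A (g.mp F)) =
      Pr (fun _ => q) (S.erase e) (fun F => A (g.mp F)) :=
    Pr_local (Finset.erase_subset _ _) (fun F _ => hdep F _ (Finset.Subset.refl _))
  have s4 : Pr (fun _ => q) S (fun F => A (g.mp F)) = Pr (fun _ => q) (boxE (3 * r)) A := by
    rw [← hgS, LSym.pr]
  have s5 : Pr (fun _ => q) (boxE (3 * r)) A ≤ H12S.a4 q (3 * r) := by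
    unfold H12S.a4
    have n1 := Pr_nonneg ok (boxE (3 * r)) (fun F => H12S.A4 (-((3 * r : ℕ) : ℤ)) ((3 * r : ℕ) : ℤ)
      (-((3 * r : ℕ) : ℤ)) ((3 * r : ℕ) : ℤ) (H12S.e0 true) (↑F : Set Edg))
    have n2 := Pr_nonneg ok (boxE (3 * r)) (fun F => H12S.A4 (-((3 * r : ℕ) : ℤ)) ((3 * r : ℕ) : ℤ)
      (-((3 * r : ℕ) : ℤ)) ((3 * r : ℕ) : ℤ) (H12S.e0 false) (↑F : Set Edg))
    cases b
    · exact le_add_of_nonneg_left n1
    · exact le_add_of_nonneg_right n2
  calc Pr (fun _ => q) ((Lam c1 c2 r).erase e) (F4 src tgt (BL c1 c2 r) e)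
      ≤ _ := s1
    _ = Pr (fun _ => q) (boxE (3 * r)) A := by rw [s2, ← s3, s4]
    _ ≤ _ := s5

theorem piv_le_PB {q : ℝ} (h0 : 0 ≤ q) (h1 : q ≤ 1) {n : ℕ} {c1 c2 : ℤ} {r : ℕ}
    (ha : Adm n c1 c2 r) {e : Edg} (he : e ∈ Cor c1 c2 r) :
    Pr (fun _ => q) ((boxE n).erase e) (PivA n e) ≤
      Pr (fun _ => q) (boxE n) (PB n c1 c2 r) * H12S.a4 q (3 * r) := by
  obtain ⟨hr, l1, u1, l2, u2, or0⟩ := ha
  have hr' : (1:ℤ) ≤ r := by exact_mod_cast hr
  have ok := okq h0 h1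
  set U := (boxE n).erase e with hU
  have heL : e ∈ Lam c1 c2 r := Cor_sub c1 c2 r he
  have hLn : Lam c1 c2 r ⊆ boxE n := RE_subset (by omega) (by omega) (by omega) (by omega)
  have s1 : boxE n \ Lam c1 c2 r ⊆ U := by
    intro g hg
    rw [Finset.mem_sdiff] at hg
    rw [hU, Finset.mem_erase]
    exact ⟨fun h => hg.2 (h ▸ heL), hg.1⟩
  have s2 : (Lam c1 c2 r).erase e ⊆ U := by
    intro g hg
    rw [Finset.mem_erase] at hg
    rw [hU, Finset.mem_erase]
    exact ⟨hg.1, hLn hg.2⟩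
  have hdis0 : Disjoint (Lam c1 c2 r) (boxE 0) := by
    rw [Finset.disjoint_right]
    intro g hg
    exfalso
    unfold boxE at hg
    obtain ⟨x, y, _ | _⟩ := g
    · rw [mem_RE_false] at hg; push_cast at hg; omega
    · rw [mem_RE_true] at hg; push_cast at hg; omega
  have t1 : Pr (fun _ => q) U (PivA n e) ≤ Pr (fun _ => q) U (fun F => PB n c1 c2 r F ∧
      F4 src tgt (BL c1 c2 r) e (F ∩ (Lam c1 c2 r).erase e)) := by
    apply Pr_mono ok
    intro F hF hp
    have h4 := piv_split (r1 := 0) (r2 := n) he (by omega) hdis0 (Nat.zero_le _) le_rfl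
      (by omega) hF hp
    refine ⟨⟨?_, ?_⟩, h4.2.2⟩
    · refine hp.1.mono ?_
      intro g hg
      rw [Finset.mem_insert] at hg
      rw [Finset.mem_union]
      rcases hg with hg | hg
      · right; rw [hg]; exact heL
      · left; exact hg
    · intro h
      exact hp.2 (h.mono Finset.sdiff_subset)
  have hloc : ∀ F, F ⊆ boxE n → (PB n c1 c2 r F ↔ PB n c1 c2 r (F ∩ (boxE n \ Lam c1 c2 r))) := by
    intro F hF
    have e1 : F ∩ (boxE n \ Lam c1 c2 r) ∪ Lam c1 c2 r = F ∪ Lam c1 c2 r := by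
      ext g
      simp only [Finset.mem_union, Finset.mem_inter, Finset.mem_sdiff]
      constructor
      · rintro (⟨h, _⟩ | h)
        · exact Or.inl h
        · exact Or.inr h
      · rintro (h | h)
        · by_cases hL : g ∈ Lam c1 c2 r
          · exact Or.inr hL
          · exact Or.inl ⟨h, hF h, hL⟩
        · exact Or.inr h
    have e2 : (F ∩ (boxE n \ Lam c1 c2 r)) \ Lam c1 c2 r = F \ Lam c1 c2 r := by
      ext g
      simp only [Finset.mem_inter, Finset.mem_sdiff]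
      constructor
      · rintro ⟨⟨h, _⟩, h'⟩
        exact ⟨h, h'⟩
      · rintro ⟨h, h'⟩
        exact ⟨⟨h, hF h, h'⟩, h'⟩
    unfold PB
    rw [e1, e2]
  have d1 : Disjoint (boxE n \ Lam c1 c2 r) ((Lam c1 c2 r).erase e) := by
    rw [Finset.disjoint_left]
    intro g hg hg'
    rw [Finset.mem_sdiff] at hg
    exact hg.2 (Finset.mem_of_mem_erase hg')
  have i1 := Pr_indep (p := fun _ => q) s1 s2 d1 (A := PB n c1 c2 r)
    (B := fun F => F4 src tgt (BL c1 c2 r) e (F ∩ (Lam c1 c2 r).erase e))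
    (fun F hF => hloc F (hF.trans (Finset.erase_subset _ _)))
    (by
      intro F _
      rw [Finset.inter_assoc, Finset.inter_self])
  rw [i1] at t1
  have u1 : Pr (fun _ => q) U (PB n c1 c2 r) = Pr (fun _ => q) (boxE n) (PB n c1 c2 r) := by
    rw [Pr_local s1 (fun F hF => hloc F (hF.trans (Finset.erase_subset _ _))),
      Pr_local (Finset.sdiff_subset (s := boxE n) (t := Lam c1 c2 r)) (fun F hF => hloc F hF)]
  have u2 : Pr (fun _ => q) U (fun F => F4 src tgt (BL c1 c2 r) e (F ∩ (Lam c1 c2 r).erase e)) =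
      Pr (fun _ => q) ((Lam c1 c2 r).erase e) (F4 src tgt (BL c1 c2 r) e) := by
    rw [Pr_local s2 (fun F _ => by rw [Finset.inter_assoc, Finset.inter_self])]
    apply Pr_congr
    intro F hF
    rw [Finset.inter_eq_left.mpr hF]
  rw [u1, u2] at t1
  exact t1.trans (mul_le_mul_of_nonneg_left (pr_F4_le h0 h1 hr he) (Pr_nonneg ok _ _))

end H31K
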