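import Pool.Agent.H31R3.Kes.Blk
import Pool.Agent.H31R3.Kes.Four

/-!
T5: summation over all edges (Whitney decomposition).
-/

set_option maxHeartbeats 400000

namespace H31K

open H974 Finset

/-- Distance of an edge to the origin. -/
def Mx (e : Edg) : ℕ := max e.1.natAbs e.2.1.natAbs

/-- The edges at scale `r`. -/
noncomputable def Er (n r : ℕ) : Finset Edg :=
  (boxE n).filter (fun e => 9 * r ≤ Mx e ∧ Mx e + 9 * r ≤ n ∧
    (Mx e < 18 * r ∨ n < Mx e + 18 * r))

/-- The index of the covering box. -/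
def tt (r : ℕ) (e : Edg) : ℤ × ℤ := (e.1 / (2 * r), e.2.1 / (2 * r))

theorem box_coord {n : ℕ} {e : Edg} (he : e ∈ boxE n) :
    -(n:ℤ) ≤ e.1 ∧ e.1 ≤ n ∧ -(n:ℤ) ≤ e.2.1 ∧ e.2.1 ≤ n := by
  obtain ⟨x, y, b⟩ := e
  unfold boxE at he
  cases b
  · rw [mem_RE_false] at he; simp only; omega
  · rw [mem_RE_true] at he; simp only; omega

theorem Mx_le {n : ℕ} {e : Edg} (he : e ∈ boxE n) : Mx e ≤ n := by
  have := box_coord he
  unfold Mx
  omega

theorem tt_spec {r : ℕ} (hr : 1 ≤ r) (e : Edg) :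
    (e.1 - r < 2 * r * (tt r e).1 + r ∧ 2 * (r:ℤ) * (tt r e).1 + r ≤ e.1 + r) ∧
    (e.2.1 - r < 2 * r * (tt r e).2 + r ∧ 2 * (r:ℤ) * (tt r e).2 + r ≤ e.2.1 + r) := by
  have h2 : (0:ℤ) < 2 * r := by positivity
  have k1 := Int.mul_ediv_add_emod e.1 (2 * r)
  have k2 := Int.emod_nonneg e.1 h2.ne'
  have k3 := Int.emod_lt_of_pos e.1 h2
  have l1 := Int.mul_ediv_add_emod e.2.1 (2 * r)
  have l2 := Int.emod_nonneg e.2.1 h2.ne'
  have l3 := Int.emod_lt_of_pos e.2.1 h2
  unfold tt
  simp only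
  constructor <;> constructor <;> linarith

theorem tt_adm {n r : ℕ} (hr : 1 ≤ r) {e : Edg} (he : e ∈ Er n r) :
    Adm n (2 * r * (tt r e).1 + r) (2 * r * (tt r e).2 + r) r := by
  obtain ⟨⟨h1, h2⟩, h3, h4⟩ := tt_spec hr e
  unfold Er at he
  rw [Finset.mem_filter] at he
  obtain ⟨hb, h5, h6, -⟩ := he
  have hc := box_coord hb
  unfold Mx at h5 h6
  generalize 2 * (r:ℤ) * (tt r e).1 + r = c1 at *
  generalize 2 * (r:ℤ) * (tt r e).2 + r = c2 at *
  constructor <;> omega

theorem tt_cor {r : ℕ} (hr : 1 ≤ r) (e : Edg) :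
    e ∈ Cor (2 * r * (tt r e).1 + r) (2 * r * (tt r e).2 + r) r :=
  cen_mem (by omega) e

/-- The probability that the box `t` is pivotal. -/
noncomputable def Pt (q : ℝ) (n r : ℕ) (t : ℤ × ℤ) : ℝ :=
  Pr (fun _ => q) (boxE n) (PB n (2 * r * t.1 + r) (2 * r * t.2 + r) r)

theorem okWin {q κ : ℝ} {n : ℕ} (hW : H12S.Win q κ n) : Ok (fun _ : Edg => q) :=
  fun _ => ⟨by linarith [hW.lo], by linarith [hW.hi]⟩

theorem a4_nonneg {q κ : ℝ} {n : ℕ} (hW : H12S.Win q κ n) (m : ℕ) : 0 ≤ H12S.a4 q m := by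
  unfold H12S.a4
  exact add_nonneg (Pr_nonneg (okWin hW) _ _) (Pr_nonneg (okWin hW) _ _)

theorem sum_Er_le {q κ : ℝ} {n r : ℕ} (hW : H12S.Win q κ n) (hr : 1 ≤ r) :
    ∑ e ∈ Er n r, Pr (fun _ => q) ((boxE n).erase e) (PivA n e) ≤
      18 * (r:ℝ)^2 * H12S.a4 q (3 * r) * ∑ t ∈ (Er n r).image (tt r), Pt q n r t := by
  classical
  rw [← Finset.sum_fiberwise_of_maps_to (g := tt r)
    (fun e he => Finset.mem_image_of_mem (tt r) he), Finset.mul_sum]
  refine Finset.sum_le_sum ?_
  intro t _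
  have ha4 := a4_nonneg hW (3 * r)
  have hP0 : 0 ≤ Pt q n r t := Pr_nonneg (okWin hW) _ _
  have hle : ∀ e ∈ (Er n r).filter (fun e => tt r e = t),
      Pr (fun _ => q) ((boxE n).erase e) (PivA n e) ≤ Pt q n r t * H12S.a4 q (3 * r) := by
    intro e he
    rw [Finset.mem_filter] at he
    obtain ⟨he, rfl⟩ := he
    exact piv_le_PB (okWin hW e).1 (okWin hW e).2 (tt_adm hr he) (tt_cor hr e)
  have hcard : (((Er n r).filter (fun e => tt r e = t)).card : ℝ) ≤ 18 * (r:ℝ)^2 := by
    refine le_trans ?_ (card_Cor (2 * r * t.1 + r) (2 * r * t.2 + r) hr)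
    have : (Er n r).filter (fun e => tt r e = t) ⊆
        Cor (2 * r * t.1 + r) (2 * r * t.2 + r) r := by
      intro e he
      rw [Finset.mem_filter] at he
      obtain ⟨he, rfl⟩ := he
      exact tt_cor hr e
    exact_mod_cast Finset.card_le_card this
  calc ∑ e ∈ (Er n r).filter (fun e => tt r e = t),
        Pr (fun _ => q) ((boxE n).erase e) (PivA n e)
      ≤ ((Er n r).filter (fun e => tt r e = t)).card • (Pt q n r t * H12S.a4 q (3 * r)) :=
        Finset.sum_le_card_nsmul _ _ _ hle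
    _ = ((Er n r).filter (fun e => tt r e = t)).card * (Pt q n r t * H12S.a4 q (3 * r)) := by
        rw [nsmul_eq_mul]
    _ ≤ 18 * (r:ℝ)^2 * (Pt q n r t * H12S.a4 q (3 * r)) :=
        mul_le_mul_of_nonneg_right hcard (mul_nonneg hP0 ha4)
    _ = _ := by ring

/-- Bounds for the window constant. -/
theorem kap_bounds {q κ : ℝ} {n : ℕ} (hW : H12S.Win q κ n) :
    1 ≤ 1 / κ^3 ∧ 1 ≤ 1 / κ^7 ∧ 1 / κ^4 ≤ 1 / κ^7 ∧ Real.sqrt (1 / κ^5) ≤ 1 / κ^3 := by
  have h0 := hW.kpos
  have h1 : κ ≤ 1 := by linarith [hW.kle]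
  have hp : ∀ k : ℕ, 1 ≤ 1 / κ^k := by
    intro k
    rw [le_div_iff₀ (pow_pos h0 k), one_mul]
    exact pow_le_one₀ h0.le h1
  refine ⟨hp 3, hp 7, ?_, ?_⟩
  · have : 1 / κ^7 = 1 / κ^4 * (1 / κ^3) := by
      field_simp
    rw [this]
    have h4 := hp 4
    have h3 := hp 3
    nlinarith
  · rw [Real.sqrt_le_left (by positivity)]
    have : (1 / κ^3)^2 = 1 / κ^5 * (1 / κ^1) := by
      field_simp
    rw [this]
    have h4 := hp 5
    have h3 := hp 1
    nlinarith

/-- The arm to distance `2 (n / 8)`. -/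
theorem arm_r1 {q κ : ℝ} {n : ℕ} (hn : 64 ≤ n) (hW : H12S.Win q κ n) :
    arm q (2 * (n / 8)) ≤ 1 / κ^5 * arm q n := by
  have h1 := arm_glue_win (r := n / 8) (n := n) (hW.anti (by omega)) (by omega) (by omega)
    (by omega)
  have h0 : 0 < κ^5 := pow_pos hW.kpos 5
  rw [div_mul_eq_mul_div, one_mul, le_div_iff₀ h0]
  linarith

theorem sqrt_aux {κ N a a1 : ℝ} (hκ : Real.sqrt (1 / κ^5) ≤ 1 / κ^3) (hk : 0 < κ)
    (hN : 0 ≤ N) (ha : 0 ≤ a) (h1 : a1 ≤ 1 / κ^5 * a) :
    Real.sqrt (N * (a * a1)) ≤ 1 / κ^3 * (Real.sqrt N * a) := by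
  have h2 : N * (a * a1) ≤ (1 / κ^5) * (N * a^2) := by
    have := mul_le_mul_of_nonneg_left h1 (mul_nonneg hN ha)
    nlinarith
  calc Real.sqrt (N * (a * a1)) ≤ Real.sqrt ((1 / κ^5) * (N * a^2)) := Real.sqrt_le_sqrt h2
    _ = Real.sqrt (1 / κ^5) * (Real.sqrt N * a) := by
        rw [Real.sqrt_mul (by positivity), Real.sqrt_mul hN, Real.sqrt_sq ha]
    _ ≤ _ := mul_le_mul_of_nonneg_right hκ (mul_nonneg (Real.sqrt_nonneg _) ha)

theorem card_boxes {T : Finset (ℤ × ℤ)} {a b : ℤ} {c : ℕ}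
    (hsub : T ⊆ Finset.Icc a b ×ˢ Finset.Icc a b) (h : b - a < c) : (T.card : ℝ) ≤ c * c := by
  have h1 : T.card ≤ c * c := by
    refine (Finset.card_le_card hsub).trans ?_
    rw [Finset.card_product, Int.card_Icc]
    have : (b + 1 - a).toNat ≤ c := by omega
    exact Nat.mul_le_mul this this
  exact_mod_cast h1

/-- Boundedly many boxes. -/
theorem sum_few {q κ : ℝ} {n r : ℕ} (hW : H12S.Win q κ n) (T : Finset (ℤ × ℤ))
    (hT : ∀ t ∈ T, Adm n (2 * r * t.1 + r) (2 * r * t.2 + r) r) {c : ℝ}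
    (hc : (T.card : ℝ) ≤ c) : ∑ t ∈ T, Pt q n r t ≤ c * (1 / κ^7 * arm q n) := by
  have ha : 0 ≤ arm q n := arm_nonneg (by linarith [hW.lo]) (by linarith [hW.hi]) n
  have hk := kap_bounds hW
  have h1 : ∀ t ∈ T, Pt q n r t ≤ 1 / κ^7 * arm q n := by
    intro t ht
    refine (piv_le_arm hW (hT t ht)).trans ?_
    exact mul_le_mul_of_nonneg_right hk.2.2.1 ha
  calc ∑ t ∈ T, Pt q n r t ≤ T.card • (1 / κ^7 * arm q n) := Finset.sum_le_card_nsmul _ _ _ h1
    _ = T.card * (1 / κ^7 * arm q n) := by rw [nsmul_eq_mul]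
    _ ≤ _ := mul_le_mul_of_nonneg_right hc
        (mul_nonneg (by linarith [hk.2.1]) ha)

/-- The boxes near the boundary. -/
theorem sum_outer {q κ : ℝ} {n r : ℕ} (hn : 64 ≤ n) (hW : H12S.Win q κ n) (hr : 1 ≤ r)
    (hnr : 64 * r ≤ n) :
    ∑ t ∈ ((Er n r).filter (fun e => n < Mx e + 18 * r)).image (tt r), Pt q n r t ≤
      119 * (1 / κ^7 * arm q n * Real.sqrt (n / r)) := by
  set T := ((Er n r).filter (fun e => n < Mx e + 18 * r)).image (tt r) with hTdef
  have ha : 0 ≤ arm q n := arm_nonneg (by linarith [hW.lo]) (by linarith [hW.hi]) n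
  obtain ⟨-, hk7, -, hk5⟩ := kap_bounds hW
  have hr' : (1:ℝ) ≤ r := by exact_mod_cast hr
  have hnr' : (64:ℝ) * r ≤ n := by exact_mod_cast hnr
  have hT : ∀ t ∈ T, ∃ e ∈ Er n r, n < Mx e + 18 * r ∧ tt r e = t := by
    intro t ht
    rw [hTdef, Finset.mem_image] at ht
    obtain ⟨e, he, rfl⟩ := ht
    rw [Finset.mem_filter] at he
    exact ⟨e, he.1, he.2, rfl⟩
  have hadm : ∀ t ∈ T, Adm n (2 * r * t.1 + r) (2 * r * t.2 + r) r := by
    intro t ht
    obtain ⟨e, he, -, rfl⟩ := hT t ht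
    exact tt_adm hr he
  have hdis : ∀ t ∈ T, Disjoint (Bg (2 * r * t.1 + r) (2 * r * t.2 + r) r)
      (boxE (2 * (n / 8))) := by
    intro t ht
    obtain ⟨e, he, hM, rfl⟩ := hT t ht
    obtain ⟨⟨h1, h2⟩, h3, h4⟩ := tt_spec hr e
    rw [Finset.disjoint_left]
    intro g hg hg'
    unfold Bg at hg
    unfold boxE at hg'
    unfold Mx at hM
    generalize 2 * (r:ℤ) * (tt r e).1 + r = c1 at *
    generalize 2 * (r:ℤ) * (tt r e).2 + r = c2 at *
    obtain ⟨x, y, _ | _⟩ := g
    · rw [mem_RE_false] at hg hg'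
      push_cast at hg'
      omega
    · rw [mem_RE_true] at hg hg'
      push_cast at hg'
      omega
  have hcard : (T.card : ℝ) ≤ 44 * (n / r) := by
    set K : ℤ := (n:ℤ) / (2 * r) with hK
    have h2 : (0:ℤ) < 2 * r := by positivity
    have k1 := Int.mul_ediv_add_emod (n:ℤ) (2 * r)
    have k2 := Int.emod_nonneg (n:ℤ) h2.ne'
    have k3 := Int.emod_lt_of_pos (n:ℤ) h2
    have hK0 : 0 ≤ K := Int.ediv_nonneg (by positivity) (by positivity)
    set A : Finset ℤ := Finset.Icc (-K - 1) (-K + 9) ∪ Finset.Icc (K - 9) K with hA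
    set B : Finset ℤ := Finset.Icc (-K - 1) K with hB
    have hAc : A.card ≤ 21 := by
      refine (Finset.card_union_le _ _).trans ?_
      rw [Int.card_Icc, Int.card_Icc]
      omega
    have hBc : B.card = (2 * K + 2).toNat := by
      rw [hB, Int.card_Icc]
      congr 1
      ring
    have hsub : T ⊆ A ×ˢ B ∪ B ×ˢ A := by
      intro t ht
      obtain ⟨e, he, hM, rfl⟩ := hT t ht
      unfold Er at he
      rw [Finset.mem_filter] at he
      have hc := box_coord he.1
      unfold Mx at hM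
      unfold tt
      have q1 : ∀ z : ℤ, -(n:ℤ) ≤ z → z ≤ n → z / (2 * r) ∈ B := by
        intro z hz1 hz2
        rw [hB, Finset.mem_Icc]
        constructor
        · rw [Int.le_ediv_iff_mul_le h2]
          nlinarith
        · exact Int.ediv_le_ediv h2 hz2
      have q2 : ∀ z : ℤ, -(n:ℤ) ≤ z → z ≤ n → (n:ℤ) < z.natAbs + 18 * r →
          z / (2 * r) ∈ A := by
        intro z hz1 hz2 hz3
        rw [hA, Finset.mem_union, Finset.mem_Icc, Finset.mem_Icc]
        rcases le_or_gt 0 z with hz | hz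
        · right
          constructor
          · rw [Int.le_ediv_iff_mul_le h2]
            have : (z.natAbs : ℤ) = z := Int.natAbs_of_nonneg hz
            nlinarith
          · exact Int.ediv_le_ediv h2 hz2
        · left
          constructor
          · rw [Int.le_ediv_iff_mul_le h2]
            nlinarith
          · have : z / (2 * r) < -K + 10 := by
              rw [Int.ediv_lt_iff_lt_mul h2]
              have : (z.natAbs : ℤ) = -z := by omega
              nlinarith
            omega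
      rw [Finset.mem_union, Finset.mem_product, Finset.mem_product]
      rcases (show (n:ℤ) < e.1.natAbs + 18 * r ∨ (n:ℤ) < e.2.1.natAbs + 18 * r by omega) with h | h
      · left; exact ⟨q2 _ hc.1 hc.2.1 h, q1 _ hc.2.2.1 hc.2.2.2⟩
      · right; exact ⟨q1 _ hc.1 hc.2.1, q2 _ hc.2.2.1 hc.2.2.2 h⟩
    have hc1 : T.card ≤ 42 * (2 * K + 2).toNat := by
      refine (Finset.card_le_card hsub).trans ((Finset.card_union_le _ _).trans ?_)
      rw [Finset.card_product, Finset.card_product, hBc]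
      nlinarith
    have hc2 : (T.card : ℝ) ≤ 42 * (2 * K + 2) := by
      have h5 : (((2 * K + 2).toNat : ℤ) : ℝ) = 2 * K + 2 := by
        rw [Int.toNat_of_nonneg (by omega)]
        push_cast
        ring
      have h6 : (T.card : ℝ) ≤ 42 * (((2 * K + 2).toNat : ℤ) : ℝ) := by
        exact_mod_cast hc1
      rw [h5] at h6
      exact h6
    have hK2 : (K:ℝ) * (2 * r) ≤ n := by
      have : K * (2 * r) ≤ n := by nlinarith
      exact_mod_cast this
    have hrpos : (0:ℝ) < r := by linarith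
    have h7 : (K:ℝ) ≤ n / r / 2 := by
      rw [div_div, le_div_iff₀ (by positivity)]
      linarith
    have h8 : (64:ℝ) ≤ n / r := by
      rw [le_div_iff₀ hrpos]; exact hnr'
    linarith
  have hb := blk hW (r := r) (r1 := 2 * (n / 8)) (by omega) T hadm hdis
  have h44 : (0:ℝ) ≤ 44 * (n / r) := by positivity
  have hs1 := sqrt_aux (N := 44 * (n / r)) hk5 hW.kpos h44 ha (arm_r1 hn hW)
  have hs2 : Real.sqrt (44 * ((n:ℝ) / r)) ≤ 7 * Real.sqrt (n / r) := by
    rw [Real.sqrt_mul (by norm_num)]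
    refine mul_le_mul_of_nonneg_right ?_ (Real.sqrt_nonneg _)
    rw [Real.sqrt_le_left (by norm_num)]
    norm_num
  have ha1 : 0 ≤ arm q (2 * (n / 8)) := arm_nonneg (by linarith [hW.lo]) (by linarith [hW.hi]) _
  have hmono : Real.sqrt (T.card * (arm q n * arm q (2 * (n / 8)))) ≤
      Real.sqrt (44 * (n / r) * (arm q n * arm q (2 * (n / 8)))) :=
    Real.sqrt_le_sqrt (mul_le_mul_of_nonneg_right hcard (mul_nonneg ha ha1))
  have hk3 : 0 ≤ 1 / κ^3 := by have := hW.kpos; positivity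
  have hk4 : 0 ≤ 17 / κ^4 := by have := hW.kpos; positivity
  have hrw : 17 / κ^4 * (1 / κ^3 * (7 * Real.sqrt (n / r) * arm q n)) =
      119 * (1 / κ^7 * arm q n * Real.sqrt (n / r)) := by
    have := hW.kpos
    field_simp
    ring
  calc ∑ t ∈ T, Pt q n r t ≤ 17 / κ^4 * Real.sqrt (T.card * (arm q n * arm q (2 * (n / 8)))) := hb
    _ ≤ 17 / κ^4 * (1 / κ^3 * (7 * Real.sqrt (n / r) * arm q n)) := by
        refine mul_le_mul_of_nonneg_left ?_ hk4
        refine (hmono.trans hs1).trans ?_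
        refine mul_le_mul_of_nonneg_left ?_ hk3
        exact mul_le_mul_of_nonneg_right hs2 ha
    _ = _ := hrw

/-- All boxes at one scale. -/
theorem sum_boxes {q κ : ℝ} {n r : ℕ} (hn : 64 ≤ n) (hW : H12S.Win q κ n) (hr : 1 ≤ r)
    (hnr : 9 * r ≤ n) :
    ∑ t ∈ (Er n r).image (tt r), Pt q n r t ≤
      4489 * (1 / κ^7 * arm q n * Real.sqrt (n / r)) := by
  have ha : 0 ≤ arm q n := arm_nonneg (by linarith [hW.lo]) (by linarith [hW.hi]) n
  obtain ⟨-, hk7, -, hk5⟩ := kap_bounds hW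
  have hr' : (1:ℝ) ≤ r := by exact_mod_cast hr
  have hrpos : (0:ℝ) < r := by linarith
  have hnr' : (9:ℝ) * r ≤ n := by exact_mod_cast hnr
  have hs : 1 ≤ Real.sqrt (n / r) := by
    rw [Real.one_le_sqrt, le_div_iff₀ hrpos]
    linarith
  have hX : 0 ≤ 1 / κ^7 * arm q n := mul_nonneg (by linarith) ha
  have hXs : 1 / κ^7 * arm q n ≤ 1 / κ^7 * arm q n * Real.sqrt (n / r) :=
    le_mul_of_one_le_right hX hs
  have h2 : (0:ℤ) < 2 * r := by positivity
  have hadm : ∀ t ∈ (Er n r).image (tt r), Adm n (2 * r * t.1 + r) (2 * r * t.2 + r) r := by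
    intro t ht
    rw [Finset.mem_image] at ht
    obtain ⟨e, he, rfl⟩ := ht
    exact tt_adm hr he
  rcases Nat.lt_or_ge n (64 * r) with h64 | h64
  · -- few boxes
    have hsub : (Er n r).image (tt r) ⊆ Finset.Icc (-33) 33 ×ˢ Finset.Icc (-33) 33 := by
      rw [Finset.image_subset_iff]
      intro e he
      unfold Er at he
      rw [Finset.mem_filter] at he
      have hc := box_coord he.1
      have h64' : (n:ℤ) < 64 * r := by exact_mod_cast h64
      have q1 : ∀ z : ℤ, -(n:ℤ) ≤ z → z ≤ n → z / (2 * r) ∈ Finset.Icc (-33 : ℤ) 33 := by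
        intro z hz1 hz2
        rw [Finset.mem_Icc]
        constructor
        · rw [Int.le_ediv_iff_mul_le h2]
          linarith
        · have : z / (2 * r) < 34 := by
            rw [Int.ediv_lt_iff_lt_mul h2]
            linarith
          omega
      rw [Finset.mem_product]
      exact ⟨q1 _ hc.1 hc.2.1, q1 _ hc.2.2.1 hc.2.2.2⟩
    have hcard : (((Er n r).image (tt r)).card : ℝ) ≤ 4489 := by
      have h1 := card_boxes (c := 67) hsub (by norm_num)
      push_cast at h1
      linarith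
    refine (sum_few hW _ hadm hcard).trans ?_
    linarith
  · have hsplit : (Er n r).image (tt r) ⊆
        ((Er n r).filter (fun e => Mx e < 18 * r)).image (tt r) ∪
        ((Er n r).filter (fun e => n < Mx e + 18 * r)).image (tt r) := by
      intro t ht
      rw [Finset.mem_image] at ht
      obtain ⟨e, he, rfl⟩ := ht
      have he' := he
      unfold Er at he'
      rw [Finset.mem_filter] at he'
      rw [Finset.mem_union]
      rcases he'.2.2.2 with h | h
      · left
        exact Finset.mem_image_of_mem _ (Finset.mem_filter.2 ⟨he, h⟩)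
      · right
        exact Finset.mem_image_of_mem _ (Finset.mem_filter.2 ⟨he, h⟩)
    have hP0 : ∀ t, 0 ≤ Pt q n r t := fun t => Pr_nonneg (okWin hW) _ _
    have hin : ∑ t ∈ ((Er n r).filter (fun e => Mx e < 18 * r)).image (tt r), Pt q n r t ≤
        441 * (1 / κ^7 * arm q n) := by
      refine sum_few hW _ ?_ ?_
      · intro t ht
        refine hadm t ?_
        exact Finset.image_subset_image (Finset.filter_subset _ _) ht
      · have hsub : ((Er n r).filter (fun e => Mx e < 18 * r)).image (tt r) ⊆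
            Finset.Icc (-10) 10 ×ˢ Finset.Icc (-10) 10 := by
          intro t ht
          rw [Finset.mem_image] at ht
          obtain ⟨e, he, rfl⟩ := ht
          rw [Finset.mem_filter] at he
          have hM := he.2
          unfold Mx at hM
          have q1 : ∀ z : ℤ, z.natAbs < 18 * r → z / (2 * r) ∈ Finset.Icc (-10 : ℤ) 10 := by
            intro z hz
            rw [Finset.mem_Icc]
            constructor
            · rw [Int.le_ediv_iff_mul_le h2]
              omega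
            · have : z / (2 * r) < 11 := by
                rw [Int.ediv_lt_iff_lt_mul h2]
                omega
              omega
          rw [Finset.mem_product]
          exact ⟨q1 _ (by omega), q1 _ (by omega)⟩
        have h1 := card_boxes (c := 21) hsub (by norm_num)
        push_cast at h1
        linarith
    have hout := sum_outer hn hW hr h64
    calc ∑ t ∈ (Er n r).image (tt r), Pt q n r t
        ≤ ∑ t ∈ ((Er n r).filter (fun e => Mx e < 18 * r)).image (tt r) ∪
          ((Er n r).filter (fun e => n < Mx e + 18 * r)).image (tt r), Pt q n r t :=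
          Finset.sum_le_sum_of_subset_of_nonneg hsplit (fun t _ _ => hP0 t)
      _ ≤ ∑ t ∈ ((Er n r).filter (fun e => Mx e < 18 * r)).image (tt r), Pt q n r t +
          ∑ t ∈ ((Er n r).filter (fun e => n < Mx e + 18 * r)).image (tt r), Pt q n r t := by
          rw [← Finset.sum_union_inter]
          exact le_add_of_nonneg_right (Finset.sum_nonneg fun t _ => hP0 t)
      _ ≤ _ := by linarith

theorem sum_EA {q κ : ℝ} {n : ℕ} (hn : 64 ≤ n) (hW : H12S.Win q κ n) :
    ∑ e ∈ (boxE n).filter (fun e => Mx e < 9),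
      Pr (fun _ => q) ((boxE n).erase e) (PivA n e) ≤
        2312 * (1 / κ^7 * arm q n * Real.sqrt n) := by
  have ha : 0 ≤ arm q n := arm_nonneg (by linarith [hW.lo]) (by linarith [hW.hi]) n
  obtain ⟨-, hk7, -, -⟩ := kap_bounds hW
  have hn' : (64:ℝ) ≤ n := by exact_mod_cast hn
  have hs : 1 ≤ Real.sqrt n := by
    rw [Real.one_le_sqrt]
    linarith
  have h1 : ∀ e ∈ (boxE n).filter (fun e => Mx e < 9),
      Pr (fun _ => q) ((boxE n).erase e) (PivA n e) ≤ 4 * arm q n := by
    intro e he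
    rw [Finset.mem_filter] at he
    have h2 : q * Pr (fun _ => q) ((boxE n).erase e) (PivA n e) ≤ arm q n :=
      piv_le (okWin hW) he.1
    have h3 : 0 ≤ Pr (fun _ : Edg => q) ((boxE n).erase e) (PivA n e) := Pr_nonneg (okWin hW) _ _
    have h4 := hW.lo
    nlinarith
  have hcard : ((boxE n).filter (fun e => Mx e < 9)).card ≤ 578 := by
    have hsub : (boxE n).filter (fun e => Mx e < 9) ⊆
        Finset.Icc (-8) 8 ×ˢ (Finset.Icc (-8) 8 ×ˢ Finset.univ) := by
      intro e he
      rw [Finset.mem_filter] at he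
      have hM := he.2
      unfold Mx at hM
      rw [Finset.mem_product, Finset.mem_product, Finset.mem_Icc, Finset.mem_Icc]
      refine ⟨⟨by omega, by omega⟩, ⟨by omega, by omega⟩, Finset.mem_univ _⟩
    refine (Finset.card_le_card hsub).trans ?_
    rw [Finset.card_product, Finset.card_product, Int.card_Icc]
    decide
  have hX : arm q n ≤ 1 / κ^7 * arm q n * Real.sqrt n := by
    have h5 : arm q n ≤ 1 / κ^7 * arm q n := le_mul_of_one_le_left ha hk7
    exact h5.trans (le_mul_of_one_le_right (ha.trans h5) hs)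
  calc ∑ e ∈ (boxE n).filter (fun e => Mx e < 9), Pr (fun _ => q) ((boxE n).erase e) (PivA n e)
      ≤ ((boxE n).filter (fun e => Mx e < 9)).card • (4 * arm q n) :=
        Finset.sum_le_card_nsmul _ _ _ h1
    _ = ((boxE n).filter (fun e => Mx e < 9)).card * (4 * arm q n) := by rw [nsmul_eq_mul]
    _ ≤ 578 * (4 * arm q n) := by
        refine mul_le_mul_of_nonneg_right ?_ (by linarith)
        exact_mod_cast hcard
    _ ≤ _ := by linarith

theorem sum_EB {q κ : ℝ} {n : ℕ} (hn : 64 ≤ n) (hW : H12S.Win q κ n) :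
    ∑ e ∈ (boxE n).filter (fun e => n < Mx e + 9),
      Pr (fun _ => q) ((boxE n).erase e) (PivA n e) ≤
        45 * (1 / κ^7 * arm q n * Real.sqrt n) := by
  set EB := (boxE n).filter (fun e => n < Mx e + 9) with hEB
  have ha : 0 ≤ arm q n := arm_nonneg (by linarith [hW.lo]) (by linarith [hW.hi]) n
  have ha1 : 0 ≤ arm q (2 * (n / 8)) := arm_nonneg (by linarith [hW.lo]) (by linarith [hW.hi]) _
  obtain ⟨hk3, hk7, hk47, hk5⟩ := kap_bounds hW
  have hn' : (64:ℝ) ≤ n := by exact_mod_cast hn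
  have hsub : EB ⊆ boxE n \ boxE (2 * (n / 8)) := by
    intro e he
    rw [hEB, Finset.mem_filter] at he
    rw [Finset.mem_sdiff]
    refine ⟨he.1, ?_⟩
    intro h
    have := Mx_le h
    omega
  have hcard : (EB.card : ℝ) ≤ 216 * n := by
    set A : Finset ℤ := Finset.Icc (-n) (-n + 8) ∪ Finset.Icc (n - 8) n with hA
    set B : Finset ℤ := Finset.Icc (-n) n with hB
    have hAc : A.card ≤ 18 := by
      refine (Finset.card_union_le _ _).trans ?_
      rw [Int.card_Icc, Int.card_Icc]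
      omega
    have hBc : B.card = 2 * n + 1 := by
      rw [hB, Int.card_Icc]
      omega
    have hsub2 : EB ⊆ A ×ˢ (B ×ˢ Finset.univ) ∪ B ×ˢ (A ×ˢ Finset.univ) := by
      intro e he
      rw [hEB, Finset.mem_filter] at he
      have hc := box_coord he.1
      have hM := he.2
      unfold Mx at hM
      have q1 : ∀ z : ℤ, -(n:ℤ) ≤ z → z ≤ n → z ∈ B := by
        intro z hz1 hz2
        rw [hB, Finset.mem_Icc]
        exact ⟨hz1, hz2⟩
      have q2 : ∀ z : ℤ, -(n:ℤ) ≤ z → z ≤ n → n < z.natAbs + 9 → z ∈ A := by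
        intro z hz1 hz2 hz3
        rw [hA, Finset.mem_union, Finset.mem_Icc, Finset.mem_Icc]
        omega
      rw [Finset.mem_union, Finset.mem_product, Finset.mem_product, Finset.mem_product,
        Finset.mem_product]
      rcases (show n < e.1.natAbs + 9 ∨ n < e.2.1.natAbs + 9 by omega) with h | h
      · left; exact ⟨q2 _ hc.1 hc.2.1 h, q1 _ hc.2.2.1 hc.2.2.2, Finset.mem_univ _⟩
      · right; exact ⟨q1 _ hc.1 hc.2.1, q2 _ hc.2.2.1 hc.2.2.2 h, Finset.mem_univ _⟩
    have hc1 : EB.card ≤ 72 * (2 * n + 1) := by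
      refine (Finset.card_le_card hsub2).trans ((Finset.card_union_le _ _).trans ?_)
      rw [Finset.card_product, Finset.card_product, Finset.card_product, Finset.card_product, hBc,
        Finset.card_univ, Fintype.card_bool]
      nlinarith
    have hc2 : (EB.card : ℝ) ≤ 72 * (2 * n + 1) := by exact_mod_cast hc1
    linarith
  have hb := blk_edges hW.lo hW.hi (n := n) (r1 := 2 * (n / 8)) (by omega) EB hsub
  have h216 : (0:ℝ) ≤ 216 * n := by positivity
  have hs1 := sqrt_aux (N := 216 * n) hk5 hW.kpos h216 ha (arm_r1 hn hW)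
  have hs2 : Real.sqrt (216 * (n:ℝ)) ≤ 15 * Real.sqrt n := by
    rw [Real.sqrt_mul (by norm_num)]
    refine mul_le_mul_of_nonneg_right ?_ (Real.sqrt_nonneg _)
    rw [Real.sqrt_le_left (by norm_num)]
    norm_num
  have hmono : Real.sqrt (EB.card * (arm q n * arm q (2 * (n / 8)))) ≤
      Real.sqrt (216 * n * (arm q n * arm q (2 * (n / 8)))) :=
    Real.sqrt_le_sqrt (mul_le_mul_of_nonneg_right hcard (mul_nonneg ha ha1))
  have hk37 : 1 / κ^3 ≤ 1 / κ^7 := by
    have h0 := hW.kpos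
    have h1 : κ ≤ 1 := by linarith [hW.kle]
    exact one_div_le_one_div_of_le (pow_pos h0 7) (pow_le_pow_of_le_one h0.le h1 (by norm_num))
  have hZ : 0 ≤ Real.sqrt (n:ℝ) * arm q n := mul_nonneg (Real.sqrt_nonneg _) ha
  calc ∑ e ∈ EB, Pr (fun _ => q) ((boxE n).erase e) (PivA n e)
      ≤ 3 * Real.sqrt (EB.card * (arm q n * arm q (2 * (n / 8)))) := hb
    _ ≤ 3 * (1 / κ^3 * (15 * Real.sqrt n * arm q n)) := by
        refine mul_le_mul_of_nonneg_left ?_ (by norm_num)
        refine (hmono.trans hs1).trans ?_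
        refine mul_le_mul_of_nonneg_left ?_ (by linarith)
        exact mul_le_mul_of_nonneg_right hs2 ha
    _ = 45 * (1 / κ^3 * (Real.sqrt n * arm q n)) := by ring
    _ ≤ 45 * (1 / κ^7 * (Real.sqrt n * arm q n)) := by
        refine mul_le_mul_of_nonneg_left ?_ (by norm_num)
        exact mul_le_mul_of_nonneg_right hk37 hZ
    _ = _ := by ring

theorem dArm_le : ∃ C : ℝ, 0 < C ∧ ∀ (q κ : ℝ) (n : ℕ), 64 ≤ n → H12S.Win q κ n →
    dArm q n ≤ C / κ^7 * arm q n * (Real.sqrt n +
      ∑ k ∈ (range n).filter (fun k => 9 * 2^k ≤ n),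
        Real.sqrt (n / (2:ℝ)^k) * ((4:ℝ)^k * H12S.a4 q (3 * 2^k))) := by
  classical
  refine ⟨100000, by norm_num, ?_⟩
  intro q κ n hn hW
  set f : Edg → ℝ := fun e => Pr (fun _ => q) ((boxE n).erase e) (PivA n e) with hf
  have hf0 : ∀ e, 0 ≤ f e := fun e => Pr_nonneg (okWin hW) _ _
  set Ks := (range n).filter (fun k => 9 * 2^k ≤ n) with hKs
  have h1 : dArm q n ≤ ∑ e ∈ (boxE n).filter (fun e => Mx e < 9), f e +
      ∑ e ∈ (boxE n).filter (fun e => n < Mx e + 9), f e +
      ∑ k ∈ Ks, ∑ e ∈ Er n (2^k), f e := by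
    have hpt : ∀ e ∈ boxE n, f e ≤ (if Mx e < 9 then f e else 0) +
        (if n < Mx e + 9 then f e else 0) +
        ∑ k ∈ Ks, (if 9 * 2^k ≤ Mx e ∧ Mx e + 9 * 2^k ≤ n ∧
          (Mx e < 18 * 2^k ∨ n < Mx e + 18 * 2^k) then f e else 0) := by
      intro e he
      have hM := Mx_le he
      have hs0 : 0 ≤ ∑ k ∈ Ks, (if 9 * 2^k ≤ Mx e ∧ Mx e + 9 * 2^k ≤ n ∧
          (Mx e < 18 * 2^k ∨ n < Mx e + 18 * 2^k) then f e else 0) := by
        refine Finset.sum_nonneg fun k _ => ?_
        split_ifs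
        · exact hf0 e
        · exact le_rfl
      by_cases h9 : Mx e < 9
      · rw [if_pos h9]
        have : 0 ≤ (if n < Mx e + 9 then f e else 0) := by
          split_ifs
          · exact hf0 e
          · exact le_rfl
        linarith
      · by_cases h9' : n < Mx e + 9
        · rw [if_neg h9, if_pos h9']
          linarith
        · rw [if_neg h9, if_neg h9', zero_add, zero_add]
          set Dm := min (Mx e) (n - Mx e) with hDm
          have hD9 : 9 ≤ Dm := by omega
          have hD9' : Dm / 9 ≠ 0 := by omega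
          set k := Nat.log 2 (Dm / 9) with hk
          have hk1 : 2^k ≤ Dm / 9 := Nat.pow_log_le_self 2 hD9'
          have hk2 : Dm / 9 < 2^(k+1) := Nat.lt_pow_succ_log_self (by norm_num) _
          have hk3 : 9 * 2^k ≤ Dm := by omega
          have hk4 : Dm < 18 * 2^k := by
            rw [pow_succ] at hk2
            omega
          have hk5 : k < 2^k := Nat.lt_two_pow_self
          have hkK : k ∈ Ks := by
            rw [hKs, Finset.mem_filter, Finset.mem_range]
            constructor <;> omega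
          have hcond : 9 * 2^k ≤ Mx e ∧ Mx e + 9 * 2^k ≤ n ∧
              (Mx e < 18 * 2^k ∨ n < Mx e + 18 * 2^k) := by
            refine ⟨by omega, by omega, by omega⟩
          have := Finset.single_le_sum (f := fun k => (if 9 * 2^k ≤ Mx e ∧ Mx e + 9 * 2^k ≤ n ∧
            (Mx e < 18 * 2^k ∨ n < Mx e + 18 * 2^k) then f e else 0)) (s := Ks) (by
              intro k _
              split_ifs
              · exact hf0 e
              · exact le_rfl) hkK
          refine le_trans (le_of_eq ?_) this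
          rw [if_pos hcond]
    have h2 : dArm q n ≤ ∑ e ∈ boxE n, ((if Mx e < 9 then f e else 0) +
        (if n < Mx e + 9 then f e else 0) +
        ∑ k ∈ Ks, (if 9 * 2^k ≤ Mx e ∧ Mx e + 9 * 2^k ≤ n ∧
          (Mx e < 18 * 2^k ∨ n < Mx e + 18 * 2^k) then f e else 0)) := by
      unfold dArm
      exact Finset.sum_le_sum hpt
    refine h2.trans (le_of_eq ?_)
    rw [Finset.sum_add_distrib, Finset.sum_add_distrib, Finset.sum_filter, Finset.sum_filter,
      Finset.sum_comm]
    congr 1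
    refine Finset.sum_congr rfl fun k _ => ?_
    unfold Er
    rw [Finset.sum_filter]
  have hA := sum_EA hn hW
  have hB := sum_EB hn hW
  have hC : ∑ k ∈ Ks, ∑ e ∈ Er n (2^k), f e ≤ 80802 * (1 / κ^7 * arm q n *
      ∑ k ∈ Ks, Real.sqrt (n / (2:ℝ)^k) * ((4:ℝ)^k * H12S.a4 q (3 * 2^k))) := by
    rw [Finset.mul_sum, Finset.mul_sum]
    refine Finset.sum_le_sum fun k hk => ?_
    rw [hKs, Finset.mem_filter] at hk
    have hr : 1 ≤ 2^k := Nat.one_le_two_pow
    have h3 := sum_Er_le hW hr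
    have h4 := sum_boxes hn hW hr hk.2
    have h5 : 0 ≤ 18 * (((2^k : ℕ) : ℝ))^2 * H12S.a4 q (3 * 2^k) :=
      mul_nonneg (by positivity) (a4_nonneg hW _)
    refine h3.trans ((mul_le_mul_of_nonneg_left h4 h5).trans (le_of_eq ?_))
    have h6 : (((2^k : ℕ) : ℝ)) = (2:ℝ)^k := by push_cast; rfl
    have h7 : ((2:ℝ)^k)^2 = (4:ℝ)^k := by
      rw [← pow_mul, mul_comm, pow_mul]; norm_num
    rw [h6, h7]
    ring
  have ha : 0 ≤ arm q n := arm_nonneg (by linarith [hW.lo]) (by linarith [hW.hi]) n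
  obtain ⟨-, hk7, -, -⟩ := kap_bounds hW
  have hX : 0 ≤ 1 / κ^7 * arm q n := mul_nonneg (by linarith) ha
  have hS : 0 ≤ ∑ k ∈ Ks, Real.sqrt (n / (2:ℝ)^k) * ((4:ℝ)^k * H12S.a4 q (3 * 2^k)) :=
    Finset.sum_nonneg fun k _ => mul_nonneg (Real.sqrt_nonneg _)
      (mul_nonneg (by positivity) (a4_nonneg hW _))
  have h8 : 0 ≤ 1 / κ^7 * arm q n * Real.sqrt n := mul_nonneg hX (Real.sqrt_nonneg _)
  have h9 := mul_nonneg hX hS
  have h10 : 100000 / κ^7 * arm q n * (Real.sqrt n +
      ∑ k ∈ Ks, Real.sqrt (n / (2:ℝ)^k) * ((4:ℝ)^k * H12S.a4 q (3 * 2^k))) =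
      100000 * (1 / κ^7 * arm q n * Real.sqrt n) + 100000 * (1 / κ^7 * arm q n *
        ∑ k ∈ Ks, Real.sqrt (n / (2:ℝ)^k) * ((4:ℝ)^k * H12S.a4 q (3 * 2^k))) := by ring
  rw [h10]
  linarith

end H31K
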