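import Pool.Agent.H12R2.Sep.Defs
import Pool.Agent.H974R2.FinalFin
import Pool.Agent.H974R2.GammaInf

/-!
PART III [F], K6-K8: one-arm stability below the correlation length, `β = 5/36`, `γ = 43/18`.
Definitions and the exact inputs.
-/

set_option maxHeartbeats 400000

namespace H31K

open H974 Finset

/-- The inputs of the last step (Kesten scaling), for bond percolation on `ℤ²`. -/
structure Inp : Prop where
  /-- one-arm exponent `5/48` at the critical point -/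
  arm : ∀ ε : ℝ, 0 < ε → ∃ C : ℝ, 0 < C ∧ ∀ n : ℕ, 1 ≤ n →
    arm (1/2) n ≤ C * (n:ℝ)^(-(5/48) + ε) ∧ (n:ℝ)^(-(5/48) - ε) ≤ C * arm (1/2) n
  /-- RSW and the four-arm bound in the near-critical window -/
  near : ∀ ε : ℝ, 0 < ε → ∃ κ B : ℝ, 0 < κ ∧ 0 < B ∧ ∀ n : ℕ, 1 ≤ n → ∀ q : ℝ,
    |q - 1/2| ≤ κ * (n:ℝ)^(-(3/4) - ε) → H12S.Win q κ n ∧
      ∀ m : ℕ, 1 ≤ m → m ≤ n → H12S.a4 q m ≤ B * (m:ℝ)^(-(5/4) + ε)
  /-- crossing probabilities outside the window -/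
  far : ∀ ε : ℝ, 0 < ε → ∃ N0 : ℕ, ∀ N : ℕ, N0 ≤ N → ∀ p : ℝ,
    1/2 + (N:ℝ)^(-(3/4) + ε) ≤ p → p ≤ 1 → eps p N ≤ 1/100

/-- The box around `c` used for the circuits. -/
noncomputable def Bg (c1 c2 : ℤ) (r : ℕ) : Finset Edg :=
  RE (c1 - 8 * r) (c1 + 8 * r) (c2 - 8 * r) (c2 + 8 * r)

/-- An open circuit around `c` between distance `4r` and `8r`. -/
def OC (c1 c2 : ℤ) (r : ℕ) (F : Finset Edg) : Prop :=
  Circ ((4 * r : ℕ) : ℤ) ((8 * r : ℕ) : ℤ) ((trl (-c1) (-c2)).mp F)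

/-- A closed dual circuit around `c` between distance `4r` and `8r`. -/
def DC (c1 c2 : ℤ) (r : ℕ) (F : Finset Edg) : Prop :=
  Blk ((4 * r : ℕ) : ℤ) ((8 * r : ℕ) : ℤ) ((trl (-c1) (-c2)).mp F)

/-- The box `Lam c r` (radius `4r`) is pivotal for the one-arm event. -/
def PB (n : ℕ) (c1 c2 : ℤ) (r : ℕ) (F : Finset Edg) : Prop :=
  Arm n (F ∪ Lam c1 c2 r) ∧ ¬ Arm n (F \ Lam c1 c2 r)

/-- Admissible boxes: the box of radius `8r` is inside `[-n,n]²` and does not contain the origin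
in its interior. -/
structure Adm (n : ℕ) (c1 c2 : ℤ) (r : ℕ) : Prop where
  pos : 1 ≤ r
  l1 : -(n:ℤ) ≤ c1 - 8 * r
  u1 : c1 + 8 * r ≤ n
  l2 : -(n:ℤ) ≤ c2 - 8 * r
  u2 : c2 + 8 * r ≤ n
  or0 : 0 ≤ c1 - 8 * r ∨ c1 + 8 * r ≤ 0 ∨ 0 ≤ c2 - 8 * r ∨ c2 + 8 * r ≤ 0

/-- Probability of the open circuit. -/
noncomputable def pO (q : ℝ) (c1 c2 : ℤ) (r : ℕ) : ℝ := Pr (fun _ => q) (Bg c1 c2 r) (OC c1 c2 r)

/-- Probability of the dual circuit. -/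
noncomputable def pD (q : ℝ) (c1 c2 : ℤ) (r : ℕ) : ℝ := Pr (fun _ => q) (Bg c1 c2 r) (DC c1 c2 r)

/-- The centred variable of the box. -/
noncomputable def VV (q : ℝ) (c1 c2 : ℤ) (r : ℕ) (F : Finset Edg) : ℝ :=
  ind (OC c1 c2 r F) / pO q c1 c2 r - ind (DC c1 c2 r F) / pD q c1 c2 r

/-- The derivative of the one-arm probability. -/
noncomputable def dArm (q : ℝ) (n : ℕ) : ℝ :=
  ∑ e ∈ boxE n, Pr (fun _ => q) ((boxE n).erase e) (PivA n e)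

end H31K
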