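import Pool.Agent.H31R3.Kes.Defs

/-!
# T10: the mean cluster size is at most the sum of the two-point function (by helper114)
-/

set_option maxHeartbeats 400000

namespace H31K

open H974 Finset MeasureTheory

/-- Two-point function in the infinite volume. -/
noncomputable def tau (p : unitInterval) (x : Vtx) : ℝ :=
  (bondLaw p).real {ω | x ∈ cluster0 ω}

theorem t10_reach {ω : sqLattice.edgeSet → Bool} {x : Vtx} (h : x ∈ cluster0 ω) :
    Reach (opn ω) (0, 0) x := (open_reach ω _ _).mp h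

theorem tau_le_arm (p : unitInterval) {x : Vtx} {r : ℕ} (hx : (r:ℤ) ≤ |x.1| ∨ (r:ℤ) ≤ |x.2|) :
    tau p x ≤ arm p r := by
  rw [← law_armE]
  unfold tau
  refine measureReal_mono ?_
  intro ω hω
  rw [armE_iff]
  have h1 : x.1 ≤ -(r:ℤ) ∨ (r:ℤ) ≤ x.1 ∨ x.2 ≤ -(r:ℤ) ∨ (r:ℤ) ≤ x.2 := by
    rcases hx with h | h
    · rcases le_abs.mp h with h | h
      · exact Or.inr (Or.inl h)
      · exact Or.inl (by omega)
    · rcases le_abs.mp h with h | h
      · exact Or.inr (Or.inr (Or.inr h))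
      · exact Or.inr (Or.inr (Or.inl (by omega)))
  obtain ⟨w, k1, k2, k3⟩ := first_exit (a := -r) (b := r) (c := -r) (d := r)
      (by unfold inR; simp) (t10_reach hω) h1
  exact ⟨w, ⟨k1, k2⟩, k3⟩

theorem t10_sub {x1 x2 : ℤ} {r : ℕ} (hx : 2 * (r:ℤ) < |x1| ∨ 2 * (r:ℤ) < |x2|)
    {S : Finset Edg} (hA : boxE r ⊆ S) (hB : RE (x1 - r) (x1 + r) (x2 - r) (x2 + r) ⊆ S)
    {ω : sqLattice.edgeSet → Bool} (hω : ((x1, x2) : Vtx) ∈ cluster0 ω) :
    Arm r (FF S ω) ∧ Arm r ((trl (-x1) (-x2)).mp (FF S ω)) := by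
  have hreach := t10_reach hω
  have h0 : (0:ℤ) ≤ r := by positivity
  have h1 : x1 < -(2 * (r:ℤ)) ∨ 2 * (r:ℤ) < x1 ∨ x2 < -(2 * (r:ℤ)) ∨ 2 * (r:ℤ) < x2 := by
    rcases hx with h | h
    · rcases lt_abs.mp h with h | h
      · exact Or.inr (Or.inl h)
      · exact Or.inl (by omega)
    · rcases lt_abs.mp h with h | h
      · exact Or.inr (Or.inr (Or.inr h))
      · exact Or.inr (Or.inr (Or.inl (by omega)))
  constructor
  · obtain ⟨w, k1, k2, k3⟩ := first_exit (a := -r) (b := r) (c := -r) (d := r)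
      (by unfold inR; simp) hreach (by simp only; omega)
    refine ⟨w, ⟨k1, k2⟩, k3.mono ?_⟩
    rw [FF_coe]
    rintro e ⟨he1, he2⟩
    exact ⟨⟨he1, hA he2⟩, he2⟩
  · obtain ⟨w, k1, k2, k3⟩ := first_exit (a := x1 - r) (b := x1 + r) (c := x2 - r) (d := x2 + r)
      (u := (x1, x2)) (by unfold inR; simp only; omega) hreach.symm (by simp only; omega)
    obtain ⟨w1, w2⟩ := w
    have k4 := (trl (-x1) (-x2)).reach k3
    rw [trl_ψ, trl_ψ] at k4
    have e1 : x1 + -x1 = 0 := by ring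
    have e2 : x2 + -x2 = 0 := by ring
    rw [e1, e2] at k4
    unfold inR at k1
    simp only at k1 k2
    refine ⟨(w1 + -x1, w2 + -x2), ⟨?_, ?_⟩, k4.mono ?_⟩
    · unfold inR
      simp only
      omega
    · simp only
      omega
    · have e3 : boxE r = (trl (-x1) (-x2)).mp (RE (x1 - r) (x1 + r) (x2 - r) (x2 + r)) := by
        rw [trl_RE]; unfold boxE; congr 1 <;> ring
      rw [e3, LSym.coe_mp, LSym.coe_mp, FF_coe]
      rintro _ ⟨e, ⟨he1, he2⟩, rfl⟩
      exact ⟨⟨e, ⟨he1, hB he2⟩, rfl⟩, ⟨e, he2, rfl⟩⟩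

theorem t10_disj {x1 x2 : ℤ} {r : ℕ} (hx : 2 * (r:ℤ) < |x1| ∨ 2 * (r:ℤ) < |x2|) :
    Disjoint (boxE r) (RE (x1 - r) (x1 + r) (x2 - r) (x2 + r)) := by
  have h1 : x1 < -(2 * (r:ℤ)) ∨ 2 * (r:ℤ) < x1 ∨ x2 < -(2 * (r:ℤ)) ∨ 2 * (r:ℤ) < x2 := by
    rcases hx with h | h
    · rcases lt_abs.mp h with h | h
      · exact Or.inr (Or.inl h)
      · exact Or.inl (by omega)
    · rcases lt_abs.mp h with h | h
      · exact Or.inr (Or.inr (Or.inr h))
      · exact Or.inr (Or.inr (Or.inl (by omega)))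
  rw [Finset.disjoint_left]
  unfold boxE
  rintro ⟨u, v, _ | _⟩ he1 he2
  · simp only [mem_RE_false] at he1 he2; omega
  · simp only [mem_RE_true] at he1 he2; omega

theorem t10_indep (q : ℝ) {x1 x2 : ℤ} {r : ℕ} (hx : 2 * (r:ℤ) < |x1| ∨ 2 * (r:ℤ) < |x2|)
    {S : Finset Edg} (hA : boxE r ⊆ S) (hB : RE (x1 - r) (x1 + r) (x2 - r) (x2 + r) ⊆ S) :
    Pr (fun _ => q) S (fun F => Arm r F ∧ Arm r ((trl (-x1) (-x2)).mp F)) =
      arm q r * arm q r := by
  have hB' : ∀ F : Finset Edg, F ⊆ S → (Arm r ((trl (-x1) (-x2)).mp F) ↔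
      Arm r ((trl (-x1) (-x2)).mp (F ∩ RE (x1 - r) (x1 + r) (x2 - r) (x2 + r)))) := by
    intro F _
    rw [LSym.mp_inter]
    have e3 : (trl (-x1) (-x2)).mp (RE (x1 - r) (x1 + r) (x2 - r) (x2 + r)) = boxE r := by
      rw [trl_RE]; unfold boxE; congr 1 <;> ring
    rw [e3]
    exact Arm_local (Finset.Subset.refl _)
  have h3 := Pr_indep (p := fun _ => q) hA hB (t10_disj hx) (A := Arm r)
    (B := fun F => Arm r ((trl (-x1) (-x2)).mp F))
    (fun F _ => Arm_local (Finset.Subset.refl _)) hB'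
  have h4 := pr_Arm q hA
  have h5 := pr_shift_arm q hB
  rw [h4, h5] at h3
  exact h3

theorem tau_le_arm_sq (p : unitInterval) {x : Vtx} {r : ℕ}
    (hx : 2 * (r:ℤ) < |x.1| ∨ 2 * (r:ℤ) < |x.2|) : tau p x ≤ (arm p r)^2 := by
  obtain ⟨x1, x2⟩ := x
  have hx' : 2 * (r:ℤ) < |x1| ∨ 2 * (r:ℤ) < |x2| := hx
  have hA : boxE r ⊆ boxE r ∪ RE (x1 - r) (x1 + r) (x2 - r) (x2 + r) := Finset.subset_union_left
  have hB : RE (x1 - r) (x1 + r) (x2 - r) (x2 + r) ⊆
      boxE r ∪ RE (x1 - r) (x1 + r) (x2 - r) (x2 + r) := Finset.subset_union_right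
  generalize boxE r ∪ RE (x1 - r) (x1 + r) (x2 - r) (x2 + r) = S at hA hB
  have h1 : tau p (x1, x2) ≤ (bondLaw p).real {ω | (fun F => Arm r F ∧
      Arm r ((trl (-x1) (-x2)).mp F)) (FF S ω)} :=
    measureReal_mono (fun ω hω => t10_sub hx' hA hB hω)
  rw [law_event p S (fun F => Arm r F ∧ Arm r ((trl (-x1) (-x2)).mp F)),
    t10_indep (p : ℝ) hx' hA hB] at h1
  rw [sq]
  exact h1

/-- the cluster event is a union of local events -/
theorem t10_union (x : Vtx) : {ω | x ∈ cluster0 ω} = ⋃ n : ℕ, {ω | TP x (FF (boxE n) ω)} := by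
  ext ω
  simp only [Set.mem_iUnion]
  constructor
  · intro h
    have h1 := t10_reach h
    have key : ∀ w, Reach (opn ω) (0, 0) w → ∃ n : ℕ, Reach (opn ω ∩ ↑(boxE n)) (0, 0) w := by
      intro w hw
      induction hw with
      | refl => exact ⟨0, Reach.refl _ _⟩
      | tail _ hs ih =>
        obtain ⟨n, hn⟩ := ih
        obtain ⟨e, he, hcase⟩ := hs
        set N := max n (e.1.natAbs + e.2.1.natAbs + 1) with hN
        have h2 : boxE n ⊆ boxE N := boxE_mono (le_max_left _ _)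
        have h3 : e ∈ boxE N := by
          have h4 : e.1.natAbs + e.2.1.natAbs + 1 ≤ N := le_max_right _ _
          unfold boxE
          obtain ⟨a, b, _ | _⟩ := e
          · simp only [mem_RE_false] at h4 ⊢; omega
          · simp only [mem_RE_true] at h4 ⊢; omega
        refine ⟨N, (hn.mono (Set.inter_subset_inter_right _ (by exact_mod_cast h2))).trans ?_⟩
        exact Relation.ReflTransGen.single ⟨e, ⟨he, h3⟩, hcase⟩
    obtain ⟨n, hn⟩ := key x h1
    refine ⟨n, ?_⟩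
    show Reach (↑(FF (boxE n) ω) : Set Edg) (0, 0) x
    rw [FF_coe]
    exact hn
  · rintro ⟨n, hn⟩
    have h3 : Reach (↑(FF (boxE n) ω) : Set Edg) (0, 0) x := hn
    rw [FF_coe] at h3
    exact (open_reach ω _ _).mpr (h3.mono Set.inter_subset_left)

theorem t10_meas (x : Vtx) : MeasurableSet {ω | x ∈ cluster0 ω} := by
  rw [t10_union]
  exact MeasurableSet.iUnion fun n => meas_event (boxE n) (TP x)

theorem sigma_le (p : unitInterval) : sigma p ≤ ∑' x : Vtx, ENNReal.ofReal (tau p x) := by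
  have h1 : ∀ ω : sqLattice.edgeSet → Bool, ((cluster0 ω).encard : ENNReal) =
      ∑' x : Vtx, Set.indicator {ω | x ∈ cluster0 ω} (fun _ => (1 : ENNReal)) ω := by
    intro ω
    rw [← ENNReal.tsum_set_one, tsum_subtype (cluster0 ω) (fun _ => (1 : ENNReal))]
    rfl
  unfold sigma
  rw [lintegral_congr h1, lintegral_tsum]
  · refine le_of_eq (tsum_congr fun x => ?_)
    have h2 : ∫⁻ ω, Set.indicator {ω | x ∈ cluster0 ω} (fun _ => (1 : ENNReal)) ω ∂(bondLaw p) =
        (bondLaw p) {ω | x ∈ cluster0 ω} := lintegral_indicator_one (t10_meas x)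
    rw [h2]
    unfold tau
    rw [measureReal_def, ENNReal.ofReal_toReal (measure_ne_top _ _)]
  · intro x
    exact (measurable_one.indicator (t10_meas x)).aemeasurable

/-- a finite set containing the shell of radius `r` -/
noncomputable def t10_T (r : ℕ) : Finset Vtx :=
  (({(r:ℤ), -(r:ℤ)} : Finset ℤ) ×ˢ Finset.Icc (-(r:ℤ)) r) ∪
    (Finset.Icc (-(r:ℤ)) r ×ˢ ({(r:ℤ), -(r:ℤ)} : Finset ℤ))

theorem t10_T_card (r : ℕ) : ((t10_T r).card : ℝ) ≤ 8 * (r + 1) := by
  have h1 : (t10_T r).card ≤ 2 * (2 * r + 1) + (2 * r + 1) * 2 := by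
    unfold t10_T
    refine (Finset.card_union_le _ _).trans ?_
    rw [Finset.card_product, Finset.card_product, Int.card_Icc]
    have e : Int.toNat ((r:ℤ) + 1 - -r) = 2 * r + 1 := by omega
    rw [e]
    have h2 : ({(r:ℤ), -(r:ℤ)} : Finset ℤ).card ≤ 2 := Finset.card_le_two
    exact add_le_add (Nat.mul_le_mul_right _ h2) (Nat.mul_le_mul_left _ h2)
  have h2 : ((t10_T r).card : ℝ) ≤ ((2 * (2 * r + 1) + (2 * r + 1) * 2 : ℕ) : ℝ) := by
    exact_mod_cast h1
  push_cast at h2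
  linarith

theorem t10_T_mem (x : Vtx) : x ∈ t10_T (max x.1.natAbs x.2.natAbs) := by
  obtain ⟨a, b⟩ := x
  unfold t10_T
  simp only [Finset.mem_union, Finset.mem_product, Finset.mem_insert, Finset.mem_singleton,
    Finset.mem_Icc]
  omega

/-- Summation over shells. -/
theorem sigma_le_shell (p : unitInterval) {f : ℕ → ℝ} (hf0 : ∀ r, 0 ≤ f r)
    (hf : ∀ x : Vtx, tau p x ≤ f (max x.1.natAbs x.2.natAbs)) :
    sigma p ≤ ∑' r : ℕ, ENNReal.ofReal (8 * (r + 1) * f r) := by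
  classical
  calc sigma p ≤ ∑' x : Vtx, ENNReal.ofReal (tau p x) := sigma_le p
    _ ≤ ∑' x : Vtx, ∑' r : ℕ, (if x ∈ t10_T r then ENNReal.ofReal (f r) else 0) := by
        refine ENNReal.tsum_le_tsum fun x => ?_
        refine (ENNReal.ofReal_le_ofReal (hf x)).trans ?_
        have h1 := ENNReal.le_tsum (f := fun r : ℕ =>
          (if x ∈ t10_T r then ENNReal.ofReal (f r) else 0)) (max x.1.natAbs x.2.natAbs)
        rw [if_pos (t10_T_mem x)] at h1
        exact h1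
    _ = ∑' r : ℕ, ∑' x : Vtx, (if x ∈ t10_T r then ENNReal.ofReal (f r) else 0) :=
        ENNReal.tsum_comm
    _ ≤ ∑' r : ℕ, ENNReal.ofReal (8 * (r + 1) * f r) := by
        refine ENNReal.tsum_le_tsum fun r => ?_
        rw [tsum_eq_sum (s := t10_T r) (fun x hx => if_neg hx),
          Finset.sum_congr rfl (fun x hx => if_pos hx), Finset.sum_const, nsmul_eq_mul]
        have h1 : ((t10_T r).card : ENNReal) = ENNReal.ofReal ((t10_T r).card : ℝ) := by
          rw [ENNReal.ofReal_natCast]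
        rw [h1, ← ENNReal.ofReal_mul (by positivity)]
        exact ENNReal.ofReal_le_ofReal (mul_le_mul_of_nonneg_right (t10_T_card r) (hf0 r))

end H31K
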