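import Pool.Agent.H31R3.Kes.Decay
import Pool.Agent.H31R3.Kes.SigUp

/-!
Upper bound for the mean cluster size below the critical point.
-/

set_option maxHeartbeats 400000

namespace H31K

open H974 Finset MeasureTheory

/-- Interpolation between the two bounds. -/
theorem interp {T A B θ : ℝ} (hT : 0 ≤ T) (hA : T ≤ A) (hB : T ≤ B) (h0 : 0 < θ) (h1 : θ < 1) :
    T ≤ A^(1-θ) * B^θ := by
  have h2 : T = T^(1-θ) * T^θ := by
    rw [← Real.rpow_add' hT (by norm_num)]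
    simp
  rw [h2]
  exact mul_le_mul (Real.rpow_le_rpow hT hA (by linarith)) (Real.rpow_le_rpow hT hB h0.le)
    (Real.rpow_nonneg hT _) (Real.rpow_nonneg (hT.trans hA) _)

theorem exp_neg_cube {z : ℝ} (hz : 0 < z) : Real.exp (-z) ≤ 6 / z^3 := by
  have h := Real.pow_div_factorial_le_exp z hz.le 3
  rw [Real.exp_neg, inv_le_comm₀ (Real.exp_pos _) (by positivity)]
  refine le_trans (le_of_eq ?_) h
  rw [inv_div]
  norm_num [Nat.factorial]

theorem sum_near {N : ℕ} (hN : 2 ≤ N) {C a a' : ℝ} (hC : 0 ≤ C) (h0 : 0 ≤ a') (ha : a' ≤ a)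
    (h1 : a ≤ 1) :
    ∑ r ∈ Finset.range (2*N), 8 * ((r:ℝ) + 1) * (C * ((r:ℝ)+1)^(-a)) ≤
      32 * C * (N:ℝ)^(2 - a') := by
  have hN' : (2:ℝ) ≤ N := by exact_mod_cast hN
  have h2N : (1:ℝ) ≤ 2 * N := by linarith
  have h3 : ∀ r ∈ Finset.range (2*N), 8 * ((r:ℝ) + 1) * (C * ((r:ℝ)+1)^(-a)) ≤
      8 * C * (2 * (N:ℝ))^(1-a) := by
    intro r hr
    have hr1 : (r:ℝ) + 1 ≤ 2 * N := by
      have : r + 1 ≤ 2 * N := Finset.mem_range.mp hr
      exact_mod_cast this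
    have hr0 : (0:ℝ) < (r:ℝ) + 1 := by positivity
    have h5 : ((r:ℝ)+1) * ((r:ℝ)+1)^(-a) = ((r:ℝ)+1)^(1-a) := by
      rw [show (1:ℝ) - a = 1 + (-a) by ring, Real.rpow_add hr0, Real.rpow_one]
    have h6 : ((r:ℝ)+1)^(1-a) ≤ (2 * (N:ℝ))^(1-a) :=
      Real.rpow_le_rpow hr0.le hr1 (by linarith)
    calc 8 * ((r:ℝ) + 1) * (C * ((r:ℝ)+1)^(-a)) = 8 * C * (((r:ℝ)+1) * ((r:ℝ)+1)^(-a)) := by ring
      _ = 8 * C * ((r:ℝ)+1)^(1-a) := by rw [h5]
      _ ≤ _ := mul_le_mul_of_nonneg_left h6 (by positivity)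
  refine (Finset.sum_le_sum h3).trans ?_
  rw [Finset.sum_const, Finset.card_range, nsmul_eq_mul]
  push_cast
  have h4 : 2 * (N:ℝ) * (2 * (N:ℝ))^(1-a) ≤ 4 * (N:ℝ)^(2-a') := by
    have e1 : 2 * (N:ℝ) * (2 * (N:ℝ))^(1-a) = (2 * (N:ℝ))^(2-a) := by
      rw [show (2:ℝ) - a = 1 + (1 - a) by ring, Real.rpow_add (by positivity), Real.rpow_one]
    rw [e1]
    calc (2 * (N:ℝ))^(2-a) ≤ (2 * (N:ℝ))^(2-a') :=
          Real.rpow_le_rpow_of_exponent_le h2N (by linarith)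
      _ = (2:ℝ)^(2-a') * (N:ℝ)^(2-a') := Real.mul_rpow (by norm_num) (by positivity)
      _ ≤ 4 * (N:ℝ)^(2-a') := by
          apply mul_le_mul_of_nonneg_right _ (by positivity)
          calc (2:ℝ)^(2-a') ≤ (2:ℝ)^(2:ℝ) :=
                Real.rpow_le_rpow_of_exponent_le (by norm_num) (by linarith)
            _ = 4 := by norm_num
  nlinarith [mul_le_mul_of_nonneg_left h4 hC]

theorem sum_far {N : ℕ} (hN : 2 ≤ N) {D a' : ℝ} (hD : 0 ≤ D) (M : ℕ) :
    ∑ r ∈ Finset.Ico (2*N) M, 8 * ((r:ℝ) + 1) * (D * (N:ℝ)^(-a') * ((N:ℝ)/r)^3) ≤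
      16 * D * (N:ℝ)^(2 - a') := by
  have hN' : (2:ℝ) ≤ N := by exact_mod_cast hN
  have hN0 : (0:ℝ) < N := by linarith
  have h1 : ∀ r ∈ Finset.Ico (2*N) M, 8 * ((r:ℝ) + 1) * (D * (N:ℝ)^(-a') * ((N:ℝ)/r)^3) ≤
      16 * D * (N:ℝ)^(-a') * (N:ℝ)^3 * ((r:ℝ)^2)⁻¹ := by
    intro r hr
    have hr1 : 2 * N ≤ r := (Finset.mem_Ico.mp hr).1
    have hr2 : (1:ℝ) ≤ r := by exact_mod_cast (by omega : 1 ≤ r)
    have hr0 : (0:ℝ) < r := by linarith
    have e1 : ((N:ℝ)/r)^3 = (N:ℝ)^3 * ((r:ℝ)^2)⁻¹ / r := by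
      field_simp
    rw [e1]
    have e2 : 8 * ((r:ℝ) + 1) * (D * (N:ℝ)^(-a') * ((N:ℝ)^3 * ((r:ℝ)^2)⁻¹ / r)) =
      (8 * ((r:ℝ) + 1) / r) * (D * (N:ℝ)^(-a') * (N:ℝ)^3 * ((r:ℝ)^2)⁻¹) := by ring
    rw [e2]
    have e3 : 8 * ((r:ℝ) + 1) / r ≤ 16 := by
      rw [div_le_iff₀ hr0]; linarith
    calc (8 * ((r:ℝ) + 1) / r) * (D * (N:ℝ)^(-a') * (N:ℝ)^3 * ((r:ℝ)^2)⁻¹) ≤
        16 * (D * (N:ℝ)^(-a') * (N:ℝ)^3 * ((r:ℝ)^2)⁻¹) :=
          mul_le_mul_of_nonneg_right e3 (by positivity)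
      _ = _ := by ring
  refine (Finset.sum_le_sum h1).trans ?_
  rw [← Finset.mul_sum]
  have h2 : ∑ r ∈ Finset.Ico (2*N) M, ((r:ℝ)^2)⁻¹ ≤ 1 / N := by
    have h3 : Finset.Ico (2*N) M = Finset.Ioo (2*N-1) M := by
      ext r; simp only [Finset.mem_Ico, Finset.mem_Ioo]; omega
    rw [h3]
    refine (sum_Ioo_inv_sq_le (2*N-1) M).trans (le_of_eq ?_)
    have : ((2 * N - 1 : ℕ) : ℝ) + 1 = 2 * N := by
      have : (2 * N - 1 : ℕ) + 1 = 2 * N := by omega
      exact_mod_cast this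
    rw [this]
    field_simp
  refine (mul_le_mul_of_nonneg_left h2 (by positivity)).trans (le_of_eq ?_)
  have e4 : (N:ℝ)^(2 - a') = (N:ℝ)^(-a') * (N:ℝ)^2 := by
    rw [show (2:ℝ) - a' = -a' + 2 by ring, Real.rpow_add hN0]
    norm_num
  rw [e4]
  field_simp

theorem tau_nonneg (p : unitInterval) (x : Vtx) : 0 ≤ tau p x := measureReal_nonneg

theorem tau_le_one (p : unitInterval) (x : Vtx) : tau p x ≤ 1 := by
  have h := tau_le_arm p (x := x) (r := 0) (Or.inl (by simp))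
  rwa [arm_zero] at h

/-- Power bound for the two-point function at and below the critical point. -/
theorem tau_le_pow (I : Inp) {δ : ℝ} (hδ : 0 < δ) (hδ1 : δ ≤ 1/16) : ∃ C : ℝ, 1 ≤ C ∧
    ∀ p : unitInterval, (p:ℝ) ≤ 1/2 → ∀ x : Vtx,
      tau p x ≤ C * (((max x.1.natAbs x.2.natAbs : ℕ) : ℝ) + 1)^(-(5/24 - 2*δ)) := by
  obtain ⟨C0, hC0, h⟩ := I.arm δ hδ
  refine ⟨8 * C0^2 + 3, by nlinarith [sq_nonneg C0], ?_⟩
  intro p hp x
  set r := max x.1.natAbs x.2.natAbs with hr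
  have hp0 : (0:ℝ) ≤ p := p.2.1
  have hr0 : (0:ℝ) < (r:ℝ) + 1 := by positivity
  by_cases h3 : r ≤ 2
  · have h4 : (1:ℝ)/3 ≤ ((r:ℝ) + 1)^(-(5/24 - 2*δ)) := by
      have h5 : (r:ℝ) + 1 ≤ 3 := by
        have : (r:ℝ) ≤ 2 := by exact_mod_cast h3
        linarith
      calc (1:ℝ)/3 = (3:ℝ)^(-1:ℝ) := by rw [Real.rpow_neg_one]; norm_num
        _ ≤ (3:ℝ)^(-(5/24 - 2*δ)) :=
            Real.rpow_le_rpow_of_exponent_le (by norm_num) (by linarith)
        _ ≤ ((r:ℝ) + 1)^(-(5/24 - 2*δ)) :=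
            Real.rpow_le_rpow_of_nonpos hr0 h5 (by linarith)
    have h6 := tau_le_one p x
    have h7 : 0 ≤ 8 * C0^2 * ((r:ℝ) + 1)^(-(5/24 - 2*δ)) := by positivity
    nlinarith
  · have h8 : 1 ≤ (r-1)/2 := by omega
    have h9 : r + 1 ≤ 8 * ((r-1)/2) := by omega
    have h10 : 2 * (((r-1)/2 : ℕ):ℤ) < |x.1| ∨ 2 * (((r-1)/2 : ℕ):ℤ) < |x.2| := by
      have : r = x.1.natAbs ∨ r = x.2.natAbs := by
        rcases max_choice x.1.natAbs x.2.natAbs with h | h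
        · left; rw [hr, h]
        · right; rw [hr, h]
      rw [Int.abs_eq_natAbs, Int.abs_eq_natAbs]
      rcases this with h | h
      · left; omega
      · right; omega
    have h11 := tau_le_arm_sq p h10
    set m := (r-1)/2 with hm
    have hm0 : (0:ℝ) < m := by exact_mod_cast (by omega : 0 < m)
    have h12 : arm p m ≤ C0 * (m:ℝ)^(-(5/48) + δ) :=
      (arm_mono_param hp0 hp (by norm_num) m).trans (h m h8).1
    have h13 : (arm p m)^2 ≤ (C0 * (m:ℝ)^(-(5/48) + δ))^2 :=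
      pow_le_pow_left₀ (arm_nonneg hp0 (by linarith) m) h12 2
    have h14 : (C0 * (m:ℝ)^(-(5/48) + δ))^2 = C0^2 * (m:ℝ)^(-(5/24 - 2*δ)) := by
      rw [mul_pow, ← Real.rpow_natCast ((m:ℝ)^(-(5/48) + δ)), ← Real.rpow_mul hm0.le]
      congr 2
      push_cast
      ring
    have h15 : (m:ℝ)^(-(5/24 - 2*δ)) ≤ (((r:ℝ)+1)/8)^(-(5/24 - 2*δ)) := by
      apply Real.rpow_le_rpow_of_nonpos (by positivity) _ (by linarith)
      have : ((r + 1 : ℕ):ℝ) ≤ ((8 * m : ℕ) : ℝ) := by exact_mod_cast h9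
      push_cast at this
      linarith
    have h16 : (((r:ℝ)+1)/8)^(-(5/24 - 2*δ)) ≤ 8 * ((r:ℝ)+1)^(-(5/24 - 2*δ)) := by
      rw [Real.div_rpow hr0.le (by norm_num)]
      rw [div_eq_mul_inv, mul_comm]
      apply mul_le_mul_of_nonneg_right _ (by positivity)
      rw [← Real.rpow_neg (by norm_num), neg_neg]
      calc (8:ℝ)^(5/24 - 2*δ) ≤ (8:ℝ)^(1:ℝ) :=
            Real.rpow_le_rpow_of_exponent_le (by norm_num) (by linarith)
        _ = 8 := Real.rpow_one _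
    have h17 : 0 ≤ ((r:ℝ)+1)^(-(5/24 - 2*δ)) := by positivity
    calc tau p x ≤ (arm p m)^2 := h11
      _ ≤ C0^2 * (m:ℝ)^(-(5/24 - 2*δ)) := h13.trans h14.le
      _ ≤ C0^2 * (8 * ((r:ℝ)+1)^(-(5/24 - 2*δ))) :=
          mul_le_mul_of_nonneg_left (h15.trans h16) (by positivity)
      _ ≤ _ := by nlinarith

/-- Exponential bound beyond the correlation length. -/
theorem tau_le_exp (p : unitInterval) {N : ℕ} (hN : 2 ≤ N) (he : eps (1 - (p:ℝ)) N ≤ 1/100)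
    (x : Vtx) (hx : 2 * N ≤ max x.1.natAbs x.2.natAbs) :
    tau p x ≤ Real.exp (-(((max x.1.natAbs x.2.natAbs : ℕ) : ℝ) / (4 * N))) := by
  set r := max x.1.natAbs x.2.natAbs with hr
  set m := r / (2 * N) with hm
  have hm1 : 1 ≤ m := by
    rw [hm, Nat.one_le_div_iff (by omega)]
    exact hx
  set j := Nat.log 2 m with hj
  have h1 : 2^j ≤ m := Nat.pow_log_le_self 2 (by omega)
  have h2 : m < 2^(j+1) := Nat.lt_pow_succ_log_self (by norm_num) m
  have h3 : m * (2 * N) ≤ r := Nat.div_mul_le_self r (2*N)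
  have h4 : r < (m + 1) * (2 * N) := by
    have := Nat.lt_mul_div_succ r (show 0 < 2 * N by omega)
    rw [← hm] at this
    calc r < 2 * N * (m + 1) := this
      _ = (m + 1) * (2 * N) := by ring
  have h5 : 2 * (2^j * N) ≤ r := by
    calc 2 * (2^j * N) = 2^j * (2 * N) := by ring
      _ ≤ m * (2 * N) := Nat.mul_le_mul_right _ h1
      _ ≤ r := h3
  have h6 : ((2 * (2^j * N) : ℕ):ℤ) ≤ |x.1| ∨ ((2 * (2^j * N) : ℕ):ℤ) ≤ |x.2| := by
    have : r = x.1.natAbs ∨ r = x.2.natAbs := by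
      rcases max_choice x.1.natAbs x.2.natAbs with h | h
      · left; rw [hr, h]
      · right; rw [hr, h]
    generalize 2 * (2^j * N) = t at h5
    rw [Int.abs_eq_natAbs, Int.abs_eq_natAbs]
    rcases this with h | h
    · left; omega
    · right; omega
  have h7 := (tau_le_arm p h6).trans (arm_decay_far p.2.1 p.2.2 hN he j)
  refine h7.trans ?_
  have hN0 : (0:ℝ) < N := by exact_mod_cast (by omega : 0 < N)
  have h8 : ((r:ℝ) / (4 * N)) ≤ (2:ℝ)^j := by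
    rw [div_le_iff₀ (by positivity)]
    have h9 : r ≤ 2^j * (4 * N) := by
      have : (m + 1) * (2 * N) ≤ 2^(j+1) * (2 * N) := Nat.mul_le_mul_right _ h2
      have e : 2^(j+1) * (2 * N) = 2^j * (4 * N) := by ring
      omega
    exact_mod_cast h9
  have h10 : (1/4 : ℝ) ≤ Real.exp (-1) := by
    rw [Real.exp_neg, one_div]
    apply inv_anti₀ (Real.exp_pos _)
    have := Real.exp_one_lt_d9
    linarith
  calc ((1:ℝ)/4)^(2^j) ≤ (Real.exp (-1))^(2^j) := pow_le_pow_left₀ (by norm_num) h10 _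
    _ = Real.exp (-((2:ℝ)^j)) := by
        rw [← Real.exp_nat_mul]
        congr 1
        push_cast
        ring
    _ ≤ _ := Real.exp_le_exp.mpr (by linarith)

theorem gamma_upper (I : Inp) {ε : ℝ} (he : 0 < ε) : ∃ C : ℝ, 0 < C ∧ ∀ p : unitInterval,
    (p : ℝ) < 1/2 → sigma p ≤ ENNReal.ofReal (C * (1/2 - (p:ℝ))^(-(43/18) - ε)) := by
  set δ : ℝ := min ε 1 / 16 with hδ
  have hδ0 : 0 < δ := by rw [hδ]; positivity
  have hδ1 : δ ≤ 1/16 := by rw [hδ]; linarith [min_le_right ε 1]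
  have hδ2 : 16 * δ ≤ ε := by rw [hδ]; linarith [min_le_left ε 1]
  obtain ⟨C, hC1, hC⟩ := tau_le_pow I hδ0 hδ1
  obtain ⟨N0, hN0⟩ := I.far δ hδ0
  set a : ℝ := 5/24 - 2*δ with ha
  set a' : ℝ := a * (1 - δ) with ha'
  have ha0 : 0 < a := by rw [ha]; linarith
  have ha1 : a ≤ 1 := by rw [ha]; linarith
  have ha'0 : 0 ≤ a' := by rw [ha']; exact mul_nonneg ha0.le (by linarith)
  have ha'a : a' ≤ a := by rw [ha']; nlinarith
  set D : ℝ := 384 * C / δ^3 with hD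
  have hD0 : 0 < D := by rw [hD]; positivity
  set K : ℝ := (32 * C + 16 * D) * ((N0:ℝ) + 4)^2 with hK
  refine ⟨K, by rw [hK]; positivity, ?_⟩
  intro p hp
  have hp0 : (0:ℝ) ≤ p := p.2.1
  set s : ℝ := 1/2 - (p:ℝ) with hs
  have hs0 : 0 < s := by rw [hs]; linarith
  have hs1 : s ≤ 1/2 := by rw [hs]; linarith
  set b : ℝ := 3/4 - δ with hb
  have hb0 : 0 < b := by rw [hb]; linarith
  set N1 : ℕ := ⌈s^(-(1/b))⌉₊ with hN1
  set N : ℕ := N1 + N0 + 2 with hN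
  have hN2 : 2 ≤ N := by omega
  have hsb : 1 ≤ s^(-(1/b)) := by
    apply Real.one_le_rpow_of_pos_of_le_one_of_nonpos hs0 (by linarith)
    have : 0 < 1/b := by positivity
    linarith
  have hNge : s^(-(1/b)) ≤ N := by
    have h1 := Nat.le_ceil (s^(-(1/b)))
    have h2 : ((N1:ℕ):ℝ) ≤ N := by exact_mod_cast (by omega : N1 ≤ N)
    exact h1.trans h2
  have hNle : (N:ℝ) ≤ ((N0:ℝ) + 4) * s^(-(1/b)) := by
    have h1 : (N1:ℝ) < s^(-(1/b)) + 1 := Nat.ceil_lt_add_one (by linarith)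
    rw [hN]
    push_cast
    have h3 : (0:ℝ) ≤ N0 := Nat.cast_nonneg _
    nlinarith
  have hNpos : (0:ℝ) < N := by exact_mod_cast (by omega : 0 < N)
  have hNs : (N:ℝ)^(-(3/4) + δ) ≤ s := by
    have h1 : (N:ℝ)^(-(3/4) + δ) ≤ (s^(-(1/b)))^(-(3/4) + δ) :=
      Real.rpow_le_rpow_of_nonpos (by positivity) hNge (by linarith)
    rw [← Real.rpow_mul hs0.le] at h1
    have h2 : -(1/b) * (-(3/4) + δ) = 1 := by
      rw [show (-(3/4) + δ) = -b by rw [hb]; ring]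
      field_simp
    rwa [h2, Real.rpow_one] at h1
  have heps : eps (1 - (p:ℝ)) N ≤ 1/100 := by
    apply hN0 N (by omega)
    · have : 1 - (p:ℝ) = 1/2 + s := by rw [hs]; ring
      rw [this]
      linarith
    · linarith
  -- the function `f`
  set f : ℕ → ℝ := fun r => if r < 2 * N then C * ((r:ℝ)+1)^(-a)
    else D * (N:ℝ)^(-a') * ((N:ℝ)/r)^3 with hf
  have hf0 : ∀ r, 0 ≤ f r := by
    intro r
    rw [hf]
    simp only
    split_ifs
    · positivity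
    · positivity
  have hfx : ∀ x : Vtx, tau p x ≤ f (max x.1.natAbs x.2.natAbs) := by
    intro x
    rw [hf]
    simp only
    split_ifs with h
    · exact hC p hp.le x
    · rw [not_lt] at h
      have h1 := hC p hp.le x
      have h2 := tau_le_exp p hN2 heps x h
      set r := max x.1.natAbs x.2.natAbs with hr
      have hrN : (2:ℝ) * N ≤ r := by exact_mod_cast h
      have hr0 : (0:ℝ) < r := by linarith
      have h3 := interp (tau_nonneg p x) h1 h2 hδ0 (by linarith : δ < 1)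
      refine h3.trans ?_
      have h4 : (C * ((r:ℝ) + 1)^(-a))^(1-δ) ≤ C * (N:ℝ)^(-a') := by
        rw [Real.mul_rpow (by linarith) (by positivity), ← Real.rpow_mul (by positivity)]
        have e1 : -a * (1 - δ) = -a' := by rw [ha']; ring
        rw [e1]
        apply mul_le_mul
        · calc C^(1-δ) ≤ C^(1:ℝ) := Real.rpow_le_rpow_of_exponent_le hC1 (by linarith)
            _ = C := Real.rpow_one _
        · exact Real.rpow_le_rpow_of_nonpos hNpos (by linarith) (by linarith)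
        · positivity
        · linarith
      have h5 : (Real.exp (-((r:ℝ) / (4 * N))))^δ ≤ 384 / δ^3 * ((N:ℝ)/r)^3 := by
        rw [← Real.exp_mul]
        have e2 : -((r:ℝ) / (4 * N)) * δ = -(δ * r / (4 * N)) := by ring
        rw [e2]
        refine (exp_neg_cube (by positivity)).trans (le_of_eq ?_)
        field_simp
        ring
      calc (C * ((r:ℝ) + 1)^(-a))^(1-δ) * (Real.exp (-((r:ℝ) / (4 * N))))^δ ≤
          (C * (N:ℝ)^(-a')) * (384 / δ^3 * ((N:ℝ)/r)^3) :=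
            mul_le_mul h4 h5 (by positivity) (by positivity)
        _ = D * (N:ℝ)^(-a') * ((N:ℝ)/r)^3 := by rw [hD]; ring
  refine (sigma_le_shell p hf0 hfx).trans ?_
  rw [ENNReal.tsum_eq_iSup_nat]
  apply iSup_le
  intro M
  rw [← ENNReal.ofReal_sum_of_nonneg (fun r _ => mul_nonneg (by positivity) (hf0 r))]
  apply ENNReal.ofReal_le_ofReal
  have hsum : ∑ r ∈ range M, 8 * ((r:ℝ) + 1) * f r ≤ (32 * C + 16 * D) * (N:ℝ)^(2 - a') := by
    have h1 : ∑ r ∈ range M, 8 * ((r:ℝ) + 1) * f r ≤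
        ∑ r ∈ range (max M (2*N)), 8 * ((r:ℝ) + 1) * f r := by
      apply Finset.sum_le_sum_of_subset_of_nonneg
      · exact Finset.range_subset_range.mpr (le_max_left _ _)
      · intro r _ _
        exact mul_nonneg (by positivity) (hf0 r)
    refine h1.trans ?_
    rw [← Finset.sum_range_add_sum_Ico _ (le_max_right M (2*N))]
    have h2 : ∑ r ∈ range (2*N), 8 * ((r:ℝ) + 1) * f r ≤ 32 * C * (N:ℝ)^(2 - a') := by
      refine le_trans (le_of_eq ?_) (sum_near hN2 (by linarith) ha'0 ha'a ha1)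
      apply Finset.sum_congr rfl
      intro r hr
      rw [hf]
      simp only
      rw [if_pos (Finset.mem_range.mp hr)]
    have h3 : ∑ r ∈ Finset.Ico (2*N) (max M (2*N)), 8 * ((r:ℝ) + 1) * f r ≤
        16 * D * (N:ℝ)^(2 - a') := by
      refine le_trans (le_of_eq ?_) (sum_far hN2 hD0.le (max M (2*N)))
      apply Finset.sum_congr rfl
      intro r hr
      rw [hf]
      simp only
      rw [if_neg (not_lt.mpr (Finset.mem_Ico.mp hr).1)]
    linarith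
  refine hsum.trans ?_
  have h4 : (N:ℝ)^(2 - a') ≤ ((N0:ℝ) + 4)^2 * s^(-(43/18) - ε) := by
    have h5 : (N:ℝ)^(2 - a') ≤ (((N0:ℝ) + 4) * s^(-(1/b)))^(2 - a') :=
      Real.rpow_le_rpow hNpos.le hNle (by linarith)
    rw [Real.mul_rpow (by positivity) (by positivity), ← Real.rpow_mul hs0.le] at h5
    refine h5.trans (mul_le_mul ?_ ?_ (by positivity) (by positivity))
    · calc ((N0:ℝ) + 4)^(2 - a') ≤ ((N0:ℝ) + 4)^(2:ℝ) :=
            Real.rpow_le_rpow_of_exponent_le (by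
              have : (0:ℝ) ≤ N0 := Nat.cast_nonneg _
              linarith) (by linarith)
        _ = ((N0:ℝ) + 4)^2 := by norm_num
    · apply Real.rpow_le_rpow_of_exponent_ge hs0 (by linarith)
      have h6 : (2 - a') ≤ (43/18 + ε) * b := by
        rw [ha', hb, ha]
        nlinarith
      have h7 : (1/b) * (2 - a') ≤ 43/18 + ε := by
        rw [one_div, inv_mul_le_iff₀ hb0]
        linarith
      linarith
  calc (32 * C + 16 * D) * (N:ℝ)^(2 - a') ≤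
      (32 * C + 16 * D) * (((N0:ℝ) + 4)^2 * s^(-(43/18) - ε)) :=
        mul_le_mul_of_nonneg_left h4 (by positivity)
    _ = K * s^(-(43/18) - ε) := by rw [hK]; ring

end H31K
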