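import Pool.Agent.H31R3.Kes.GLow
import Pool.Agent.H31R3.Kes.GUp

/-!
The exponent of the mean cluster size: `γ = 43/18`.
-/

set_option maxHeartbeats 400000

namespace H31K

open H974 Finset MeasureTheory

/-- A function squeezed between powers with exponents arbitrarily close to `b` has the exponent
`b` in the logarithmic sense. -/
theorem log_ratio {g : ℝ → ℝ} {b : ℝ}
    (hu : ∀ ε : ℝ, 0 < ε → ∃ C : ℝ, 0 < C ∧ ∀ s : ℝ, 0 < s → s ≤ 1/2 → g s ≤ C * s^(b - ε))
    (hl : ∀ ε : ℝ, 0 < ε → ∃ c : ℝ, 0 < c ∧ ∀ s : ℝ, 0 < s → s ≤ 1/2 → c * s^(b + ε) ≤ g s) :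
    Filter.Tendsto (fun s : ℝ => Real.log (g s) / Real.log s)
      (nhdsWithin 0 (Set.Ioi 0)) (nhds b) := by
  have hlog : Filter.Tendsto Real.log (nhdsWithin 0 (Set.Ioi 0)) Filter.atBot :=
    Real.tendsto_log_nhdsGT_zero
  have hK : ∀ K : ℝ, Filter.Tendsto (fun s : ℝ => K / Real.log s)
      (nhdsWithin 0 (Set.Ioi 0)) (nhds 0) := fun K => hlog.const_div_atBot K
  have hsm : ∀ᶠ s : ℝ in nhdsWithin 0 (Set.Ioi 0), 0 < s ∧ s ≤ 1/2 := by
    have h1 : Set.Ioc (0:ℝ) (1/2) ∈ nhdsWithin (0:ℝ) (Set.Ioi 0) :=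
      Ioc_mem_nhdsGT (by norm_num)
    filter_upwards [h1] with s hs using ⟨hs.1, hs.2⟩
  rw [tendsto_order]
  constructor
  · intro a ha
    obtain ⟨C, hC, h⟩ := hu ((b - a)/2) (by linarith)
    have h2 := (tendsto_order.mp (hK (Real.log C))).1 (-((b-a)/2)) (by linarith)
    obtain ⟨c, hc, h3⟩ := hl 1 one_pos
    filter_upwards [hsm, h2] with s hs h2
    have hg : 0 < g s := lt_of_lt_of_le (mul_pos hc (Real.rpow_pos_of_pos hs.1 _))
      (h3 s hs.1 hs.2)
    have hls : Real.log s < 0 := Real.log_neg hs.1 (by linarith [hs.2])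
    have h4 : Real.log (g s) ≤ Real.log C + (b - (b-a)/2) * Real.log s := by
      have := Real.log_le_log hg (h s hs.1 hs.2)
      rwa [Real.log_mul hC.ne' (Real.rpow_pos_of_pos hs.1 _).ne', Real.log_rpow hs.1] at this
    rw [lt_div_iff_of_neg hls]
    rw [lt_div_iff_of_neg hls] at h2
    nlinarith
  · intro a ha
    obtain ⟨c, hc, h⟩ := hl ((a - b)/2) (by linarith)
    have h2 := (tendsto_order.mp (hK (Real.log c))).2 ((a-b)/2) (by linarith)
    filter_upwards [hsm, h2] with s hs h2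
    have hls : Real.log s < 0 := Real.log_neg hs.1 (by linarith [hs.2])
    have h4 : Real.log c + (b + (a-b)/2) * Real.log s ≤ Real.log (g s) := by
      have := Real.log_le_log (mul_pos hc (Real.rpow_pos_of_pos hs.1 _)) (h s hs.1 hs.2)
      rwa [Real.log_mul hc.ne' (Real.rpow_pos_of_pos hs.1 _).ne', Real.log_rpow hs.1] at this
    rw [div_lt_iff_of_neg hls]
    rw [div_lt_iff_of_neg hls] at h2
    nlinarith

theorem gamma_eq (I : Inp) : Filter.Tendsto
    (fun s : ℝ => Real.log (sigma (Set.projIcc 0 1 zero_le_one (1/2 - s))).toReal / Real.log s)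
    (nhdsWithin 0 (Set.Ioi 0)) (nhds (-(43/18))) := by
  have hproj : ∀ s : ℝ, 0 < s → s ≤ 1/2 →
      ((Set.projIcc (0:ℝ) 1 zero_le_one (1/2 - s) : unitInterval) : ℝ) = 1/2 - s := by
    intro s h0 h1
    rw [Set.projIcc_of_mem zero_le_one (⟨by linarith, by linarith⟩ : 1/2 - s ∈ Set.Icc (0:ℝ) 1)]
  refine log_ratio (g := fun s : ℝ =>
    (sigma (Set.projIcc 0 1 zero_le_one (1/2 - s))).toReal) ?_ ?_
  · intro ε he
    obtain ⟨C, hC, h⟩ := gamma_upper I he
    refine ⟨C, hC, fun s h0 h1 => ?_⟩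
    have hp := hproj s h0 h1
    have h2 := h (Set.projIcc 0 1 zero_le_one (1/2 - s)) (by rw [hp]; linarith)
    rw [hp, show (1:ℝ)/2 - (1/2 - s) = s by ring] at h2
    exact ENNReal.toReal_le_of_le_ofReal (by positivity) h2
  · intro ε he
    obtain ⟨C, hC, h⟩ := gamma_upper I he
    obtain ⟨c, hc, h'⟩ := gamma_lower I he
    refine ⟨c, hc, fun s h0 h1 => ?_⟩
    have hp := hproj s h0 h1
    have h2 := h (Set.projIcc 0 1 zero_le_one (1/2 - s)) (by rw [hp]; linarith)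
    have h3 := h' (Set.projIcc 0 1 zero_le_one (1/2 - s)) (by rw [hp]; linarith)
    rw [hp, show (1:ℝ)/2 - (1/2 - s) = s by ring] at h3
    exact (ENNReal.ofReal_le_iff_le_toReal (ne_top_of_le_ne_top ENNReal.ofReal_ne_top h2)).mp h3

end H31K
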