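import Pool.Agent.H31R3.Kes.Stab

/-!
Lower bound for the mean cluster size below the critical point (`γ = 43/18`).
-/

set_option maxHeartbeats 400000

namespace H31K

open H974 Finset

theorem gl_sum {p κ C b : ℝ} {r : ℕ} (hr : 1 ≤ r) (hW : H12S.Win p κ (4 * r))
    (hA : arm (1/2) (4 * r) ≤ 3 * arm p (4 * r)) (hC : 0 < C)
    (hb : ((4 * r : ℕ):ℝ)^(-b) ≤ C * arm (1/2) (4 * r)) :
    κ^4 / (36 * C^2) * ((4 * r : ℕ):ℝ)^(2 - 2 * b) ≤
      ∑ x ∈ boxV r, Pr (fun _ => p) (boxE (5 * r)) (TP x) := by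
  have h0 : 0 ≤ p := by linarith [hW.lo]
  have h1 : p ≤ 1 := by linarith [hW.hi]
  have hκ := hW.kpos
  set n : ℝ := ((4 * r : ℕ):ℝ) with hn
  have hn4 : n = 4 * (r:ℝ) := by rw [hn]; push_cast; ring
  have hr1 : (1:ℝ) ≤ r := by exact_mod_cast hr
  have hn0 : 0 < n := by rw [hn4]; linarith
  have hnb : 0 < n^(-b) := Real.rpow_pos_of_pos hn0 _
  have a1 : n^(-b) / (3 * C) ≤ arm p (4 * r) := by
    rw [div_le_iff₀ (by positivity)]
    have : C * arm (1/2) (4 * r) ≤ C * (3 * arm p (4 * r)) := mul_le_mul_of_nonneg_left hA hC.le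
    linarith
  have a2 : n^(-b) / (3 * C) ≤ arm p (3 * r) := a1.trans (arm_anti h0 h1 (by omega))
  have a3 : κ ≤ hh p ((6 * r : ℕ) : ℤ) ((2 * r : ℕ) : ℤ) := by
    have h := hW.pri (2 * r) (by omega) (by omega)
    refine h.trans (hh_mono h0 h1 (by push_cast; omega) (by push_cast; omega) le_rfl)
  have hterm : ∀ x ∈ boxV r, (n^(-b) / (3 * C))^2 * κ^4 ≤
      Pr (fun _ => p) (boxE (5 * r)) (TP x) := by
    intro x hx
    have t := two_point h0 h1 (r := r) (by omega) (mem_boxV hx) (Finset.Subset.refl _)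
    refine le_trans ?_ t
    have b1 : (n^(-b) / (3 * C)) * (n^(-b) / (3 * C)) ≤ arm p (3 * r) * arm p (4 * r) :=
      mul_le_mul a2 a1 (by positivity) (arm_nonneg h0 h1 _)
    have b2 := pow_le_pow_left₀ hκ.le a3 4
    rw [sq]
    exact mul_le_mul b1 b2 (by positivity)
      (mul_nonneg (arm_nonneg h0 h1 _) (arm_nonneg h0 h1 _))
  have hs := Finset.sum_le_sum hterm
  rw [Finset.sum_const, nsmul_eq_mul, card_boxV] at hs
  refine le_trans ?_ hs
  have e1 : n^(2 - 2 * b) = n^2 * (n^(-b))^2 := by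
    rw [← Real.rpow_natCast n 2, ← Real.rpow_natCast (n^(-b)) 2, ← Real.rpow_mul hn0.le,
      ← Real.rpow_add hn0]
    congr 1
    push_cast
    ring
  rw [e1]
  have e2 : n^2 ≤ 4 * (2 * (r:ℝ) + 1)^2 := by
    rw [hn4]
    nlinarith
  have e3 : κ^4 / (36 * C^2) * (n^2 * (n^(-b))^2) ≤
      κ^4 / (36 * C^2) * ((4 * (2 * (r:ℝ) + 1)^2) * (n^(-b))^2) := by
    apply mul_le_mul_of_nonneg_left _ (by positivity)
    exact mul_le_mul_of_nonneg_right e2 (by positivity)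
  refine e3.trans (le_of_eq ?_)
  field_simp
  ring

theorem gl_core (I : Inp) {ε : ℝ} (he : 0 < ε) (he1 : ε ≤ 1) : ∃ c : ℝ, 0 < c ∧
    ∀ p : unitInterval, (p : ℝ) < 1/2 →
      ENNReal.ofReal (c * (1/2 - (p:ℝ))^(-(43/18) + ε)) ≤ sigma p := by
  obtain ⟨κ, hκ, hst⟩ := stab_inp I (ε := ε/6) (by positivity)
  obtain ⟨C, hC, har⟩ := I.arm (ε/6) (by positivity)
  set a : ℝ := 3/4 + ε/6 with ha
  set b : ℝ := 5/48 + ε/6 with hb
  have ha0 : 0 < a := by positivity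
  have ha1 : a ≤ 1 := by rw [ha]; linarith
  have h2b : 0 < 2 - 2 * b := by rw [hb]; linarith
  set e : ℝ := (2 - 2 * b) / a with hedef
  have hexp : 43/18 - ε ≤ e := by
    rw [hedef, le_div_iff₀ ha0, ha, hb]
    nlinarith
  have hD : 0 < κ^4 / (36 * C^2) * ((1/2 : ℝ)^(2 - 2 * b) * κ^e) := by positivity
  have hE : 0 < (κ/4)^(43/18 - ε) := by positivity
  refine ⟨min (κ^4 / (36 * C^2) * ((1/2 : ℝ)^(2 - 2 * b) * κ^e)) ((κ/4)^(43/18 - ε)),
    lt_min hD hE, fun p hp => ?_⟩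
  set s : ℝ := 1/2 - (p:ℝ) with hs
  have hs0 : 0 < s := by rw [hs]; linarith
  have hs1 : s ≤ 1 := by
    have := p.2.1
    rw [hs]; linarith
  have hsp : 0 < s^(-(43/18) + ε) := Real.rpow_pos_of_pos hs0 _
  set x : ℝ := (κ/s)^(1/a) with hx
  have hx0 : 0 < x := by positivity
  have hxa : x^a = κ/s := by
    rw [hx, ← Real.rpow_mul (by positivity), one_div_mul_cancel ha0.ne', Real.rpow_one]
  by_cases hx4 : x < 4
  · -- small scale
    refine le_trans ?_ (sigma_ge_one p)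
    rw [← ENNReal.ofReal_one]
    apply ENNReal.ofReal_le_ofReal
    have h1 : κ / s ≤ 4 := by
      rw [← hxa]
      calc x^a ≤ 4^a := Real.rpow_le_rpow hx0.le hx4.le ha0.le
        _ ≤ 4^(1:ℝ) := Real.rpow_le_rpow_of_exponent_le (by norm_num) ha1
        _ = 4 := Real.rpow_one _
    have h2 : κ / 4 ≤ s := by
      rw [div_le_iff₀ hs0] at h1
      linarith
    have h3 : (κ/4)^(43/18 - ε) ≤ s^(43/18 - ε) :=
      Real.rpow_le_rpow (by positivity) h2 (by linarith)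
    calc min (κ^4 / (36 * C^2) * ((1/2 : ℝ)^(2 - 2 * b) * κ^e)) ((κ/4)^(43/18 - ε)) *
          s^(-(43/18) + ε) ≤ s^(43/18 - ε) * s^(-(43/18) + ε) :=
          mul_le_mul_of_nonneg_right ((min_le_right _ _).trans h3) hsp.le
      _ = 1 := by
          rw [← Real.rpow_add hs0]
          norm_num
  · push Not at hx4
    obtain ⟨r, hr, hr1, hr2, hr3⟩ : ∃ r : ℕ, 1 ≤ r ∧ ((4 * r : ℕ):ℝ) ≤ x ∧
        1/2 * x ≤ ((4 * r : ℕ):ℝ) ∧ 0 < r := by
      have h4 : 1 ≤ x/4 := by linarith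
      refine ⟨⌊x/4⌋₊, Nat.le_floor (by exact_mod_cast h4), ?_, ?_, ?_⟩
      · have := Nat.floor_le (show 0 ≤ x/4 by positivity)
        push_cast
        linarith
      · have h5 := Nat.lt_floor_add_one (x/4)
        have h6 : (1:ℝ) ≤ (⌊x/4⌋₊ : ℝ) := by
          have : 1 ≤ ⌊x/4⌋₊ := Nat.le_floor (by exact_mod_cast h4)
          exact_mod_cast this
        push_cast
        linarith
      · exact Nat.floor_pos.mpr h4
    set n : ℝ := ((4 * r : ℕ):ℝ) with hn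
    have hn0 : 0 < n := by
      rw [hn]; exact_mod_cast (by omega : 0 < 4 * r)
    have hwin : |(p:ℝ) - 1/2| ≤ κ * n^(-(3/4) - ε/6) := by
      rw [abs_sub_comm, abs_of_pos (by linarith)]
      have e1 : (-(3/4) - ε/6 : ℝ) = -a := by rw [ha]; ring
      rw [e1, Real.rpow_neg hn0.le, ← div_eq_mul_inv, le_div_iff₀ (by positivity)]
      have h7 : n^a ≤ κ/s := by
        rw [← hxa]
        exact Real.rpow_le_rpow hn0.le hr1 ha0.le
      rw [le_div_iff₀ hs0] at h7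
      calc (1/2 - (p:ℝ)) * n^a = n^a * s := by rw [hs]; ring
        _ ≤ κ := h7
    obtain ⟨hW, -, hA⟩ := hst (4 * r) (by omega) p hwin
    obtain ⟨-, hb'⟩ := har (4 * r) (by omega)
    have e2 : (-(5/48) - ε/6 : ℝ) = -b := by rw [hb]; ring
    rw [e2] at hb'
    have hsum := gl_sum hr hW hA hC hb'
    refine le_trans (ENNReal.ofReal_le_ofReal ?_) (sigma_ge p (boxE (5 * r)) (boxV r))
    refine le_trans ?_ hsum
    have h8 : (1/2 * x)^(2 - 2 * b) ≤ n^(2 - 2 * b) :=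
      Real.rpow_le_rpow (by positivity) hr2 h2b.le
    have h9 : (1/2 * x)^(2 - 2 * b) = (1/2 : ℝ)^(2 - 2 * b) * (κ^e * s^(-e)) := by
      rw [Real.mul_rpow (by norm_num) hx0.le, hx, ← Real.rpow_mul (by positivity)]
      have e3 : 1 / a * (2 - 2 * b) = e := by rw [hedef]; ring
      rw [e3, Real.div_rpow hκ.le hs0.le, Real.rpow_neg hs0.le, div_eq_mul_inv (κ^e)]
    have h10 : s^(-(43/18) + ε) ≤ s^(-e) :=
      Real.rpow_le_rpow_of_exponent_ge hs0 hs1 (by linarith)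
    calc min (κ^4 / (36 * C^2) * ((1/2 : ℝ)^(2 - 2 * b) * κ^e)) ((κ/4)^(43/18 - ε)) *
          s^(-(43/18) + ε)
        ≤ κ^4 / (36 * C^2) * ((1/2 : ℝ)^(2 - 2 * b) * κ^e) * s^(-e) :=
          mul_le_mul (min_le_left _ _) h10 hsp.le hD.le
      _ = κ^4 / (36 * C^2) * (1/2 * x)^(2 - 2 * b) := by rw [h9]; ring
      _ ≤ κ^4 / (36 * C^2) * n^(2 - 2 * b) := mul_le_mul_of_nonneg_left h8 (by positivity)

/-- Lower bound for the mean cluster size below the critical point. -/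
theorem gamma_lower (I : Inp) {ε : ℝ} (he : 0 < ε) : ∃ c : ℝ, 0 < c ∧ ∀ p : unitInterval,
    (p : ℝ) < 1/2 → ENNReal.ofReal (c * (1/2 - (p:ℝ))^(-(43/18) + ε)) ≤ sigma p := by
  obtain ⟨c, hc, h⟩ := gl_core I (ε := min ε 1) (lt_min he one_pos) (min_le_right _ _)
  refine ⟨c, hc, fun p hp => le_trans (ENNReal.ofReal_le_ofReal ?_) (h p hp)⟩
  have hs0 : 0 < 1/2 - (p:ℝ) := by linarith
  have hs1 : 1/2 - (p:ℝ) ≤ 1 := by
    have := p.2.1
    linarith
  apply mul_le_mul_of_nonneg_left _ hc.le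
  exact Real.rpow_le_rpow_of_exponent_ge hs0 hs1 (by linarith [min_le_left ε 1])

end H31K
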