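import Pool.Agent.H31R3.Kes.Defs

/-!
The structure `Inp` from the interface statements `W1`, `R3` and the one-arm exponent.
-/

set_option maxHeartbeats 400000

namespace H31K

open H974 Finset

/-- Near-critical RSW and four-arm exponent (interface statement). -/
def W1 : Prop := ∃ κ : ℝ, 0 < κ ∧ ∀ ε : ℝ, 0 < ε → ∃ n0 : ℕ, ∀ n : ℕ, n0 ≤ n → ∀ q : ℝ,
  |q - 1/2| ≤ (n:ℝ)^(-(3/4) - ε) → H12S.Win q κ n ∧
    (n:ℝ)^(-(5/4) - ε) ≤ H12S.a4 q n ∧ H12S.a4 q n ≤ (n:ℝ)^(-(5/4) + ε)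

/-- Supercritical crossings beyond the correlation length (interface statement). -/
def R3 : Prop := ∀ ε : ℝ, 0 < ε → ∃ h0 : ℝ, 0 < h0 ∧ ∀ h : ℝ, 0 < h → h < h0 →
  ∃ N : ℕ, 2 ≤ N ∧ (N:ℝ) ≤ h^(-(4/3) - ε) ∧ eps (1/2 + h) N ≤ 1/100

/-- The one-arm exponent. -/
def A1 : Prop := ∀ ε : ℝ, 0 < ε → ∃ C : ℝ, 0 < C ∧ ∀ n : ℕ, 1 ≤ n →
    arm (1/2) n ≤ C * (n:ℝ)^(-(5/48) + ε) ∧ (n:ℝ)^(-(5/48) - ε) ≤ C * arm (1/2) n

theorem Win_kap {q κ κ' : ℝ} {n : ℕ} (h : H12S.Win q κ n) (h0 : 0 < κ') (h1 : κ' ≤ κ) :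
    H12S.Win q κ' n :=
  ⟨h0, h1.trans h.kle, h.lo, h.hi, fun k a b => h1.trans (h.pri k a b),
    fun k a b => h1.trans (h.dua k a b)⟩

theorem a4_le_two {q : ℝ} (h0 : 0 ≤ q) (h1 : q ≤ 1) (m : ℕ) : H12S.a4 q m ≤ 2 := by
  unfold H12S.a4
  have a := Pr_le_one (okq h0 h1) (boxE m)
    (fun F => H12S.A4 (-(m:ℤ)) m (-(m:ℤ)) m (H12S.e0 true) (↑F : Set Edg))
  have b := Pr_le_one (okq h0 h1) (boxE m)
    (fun F => H12S.A4 (-(m:ℤ)) m (-(m:ℤ)) m (H12S.e0 false) (↑F : Set Edg))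
  linarith

theorem near_of_W1 (h : W1) : ∀ ε : ℝ, 0 < ε → ∃ κ B : ℝ, 0 < κ ∧ 0 < B ∧ ∀ n : ℕ, 1 ≤ n →
    ∀ q : ℝ, |q - 1/2| ≤ κ * (n:ℝ)^(-(3/4) - ε) → H12S.Win q κ n ∧
      ∀ m : ℕ, 1 ≤ m → m ≤ n → H12S.a4 q m ≤ B * (m:ℝ)^(-(5/4) + ε) := by
  obtain ⟨κ, hκ, h⟩ := h
  intro ε he
  obtain ⟨n0', h⟩ := h ε he
  set n0 : ℕ := n0' + 1 with hn0
  have hn0r : (1:ℝ) ≤ n0 := by rw [hn0]; push_cast; linarith [Nat.cast_nonneg (α := ℝ) n0']
  have hn0p : (0:ℝ) < n0 := by linarith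
  set K : ℝ := (n0:ℝ)^(-(3/4) - ε) with hK
  have hKp : 0 < K := Real.rpow_pos_of_pos hn0p _
  have hK1 : K ≤ 1 := Real.rpow_le_one_of_one_le_of_nonpos hn0r (by linarith)
  set κ' : ℝ := min κ K with hκ'
  have hκ'p : 0 < κ' := lt_min hκ hKp
  have hκ'κ : κ' ≤ κ := min_le_left _ _
  have hκ'K : κ' ≤ K := min_le_right _ _
  set B : ℝ := 2 * (n0:ℝ)^(5/4 : ℝ) with hB
  have hn54 : (1:ℝ) ≤ (n0:ℝ)^(5/4 : ℝ) := Real.one_le_rpow hn0r (by norm_num)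
  have hBp : 0 < B := by rw [hB]; linarith
  refine ⟨κ', B, hκ'p, hBp, fun n hn q hq => ?_⟩
  have hnr : (1:ℝ) ≤ n := by exact_mod_cast hn
  have hpow1 : (n:ℝ)^(-(3/4) - ε) ≤ 1 :=
    Real.rpow_le_one_of_one_le_of_nonpos hnr (by linarith)
  have hpow0 : 0 < (n:ℝ)^(-(3/4) - ε) := Real.rpow_pos_of_pos (by linarith) _
  have hqn : |q - 1/2| ≤ (n:ℝ)^(-(3/4) - ε) := by
    refine hq.trans ?_
    calc κ' * (n:ℝ)^(-(3/4) - ε) ≤ 1 * (n:ℝ)^(-(3/4) - ε) :=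
          mul_le_mul_of_nonneg_right (hκ'K.trans hK1) hpow0.le
      _ = _ := one_mul _
  have hqK : |q - 1/2| ≤ K := by
    refine hq.trans ?_
    calc κ' * (n:ℝ)^(-(3/4) - ε) ≤ κ' * 1 := mul_le_mul_of_nonneg_left hpow1 hκ'p.le
      _ ≤ K := by rw [mul_one]; exact hκ'K
  have hW0 : H12S.Win q κ n0 := (h n0 (by omega) q hqK).1
  have hW : H12S.Win q κ' n := by
    rcases le_total n n0 with hle | hle
    · exact Win_kap (hW0.anti hle) hκ'p hκ'κ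
    · exact Win_kap (h n (by omega) q hqn).1 hκ'p hκ'κ
  refine ⟨hW, fun m hm hmn => ?_⟩
  have hmr : (1:ℝ) ≤ m := by exact_mod_cast hm
  have hmp : (0:ℝ) < m := by linarith
  rcases le_total n0 m with hle | hle
  · have hqm : |q - 1/2| ≤ (m:ℝ)^(-(3/4) - ε) := by
      refine hqn.trans ?_
      apply Real.rpow_le_rpow_of_nonpos hmp (by exact_mod_cast hmn) (by linarith)
    have h2 := (h m (by omega) q hqm).2.2
    have h3 : 0 < (m:ℝ)^(-(5/4) + ε) := Real.rpow_pos_of_pos hmp _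
    have h4 : 1 ≤ B := by rw [hB]; linarith
    nlinarith
  · have h2 := a4_le_two (q := q) (by linarith [hW.lo]) (by linarith [hW.hi]) m
    refine h2.trans ?_
    have h3 : (m:ℝ)^(-(5/4) : ℝ) ≤ (m:ℝ)^(-(5/4) + ε) :=
      Real.rpow_le_rpow_of_exponent_le hmr (by linarith)
    have h4 : (n0:ℝ)^(-(5/4) : ℝ) ≤ (m:ℝ)^(-(5/4) : ℝ) :=
      Real.rpow_le_rpow_of_nonpos hmp (by exact_mod_cast hle) (by norm_num)
    have h5 : (n0:ℝ)^(5/4 : ℝ) * (n0:ℝ)^(-(5/4) : ℝ) = 1 := by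
      rw [← Real.rpow_add hn0p]; norm_num
    calc (2:ℝ) = 2 * ((n0:ℝ)^(5/4 : ℝ) * (n0:ℝ)^(-(5/4) : ℝ)) := by rw [h5]; ring
      _ = B * (n0:ℝ)^(-(5/4) : ℝ) := by rw [hB]; ring
      _ ≤ B * (m:ℝ)^(-(5/4) + ε) := mul_le_mul_of_nonneg_left (h4.trans h3) hBp.le

/-- From one scale to all larger ones. -/
theorem eps_all {p : ℝ} (h0 : 0 ≤ p) (h1 : p ≤ 1) {M : ℕ} (hM : 2 ≤ M)
    (he : eps p M ≤ 1/100) {N : ℕ} (hN : 4 * M ≤ N) : eps p N ≤ 1/100 := by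
  set d := N / M with hd
  have hd4 : 4 ≤ d := (Nat.le_div_iff_mul_le (by omega)).mpr hN
  set j := Nat.log 2 d with hj
  have hj1 : 2^j ≤ d := Nat.pow_log_le_self 2 (by omega)
  have hj2 : d < 2^(j + 1) := Nat.lt_pow_succ_log_self (by norm_num) d
  have hj3 : 2 ≤ j := by
    have : 2^2 ≤ d := hd4
    exact (Nat.le_log_iff_pow_le (by norm_num) (by omega)).mpr this
  set K := 2^j * M with hK
  have hKN : K ≤ N := by
    calc K ≤ d * M := Nat.mul_le_mul_right M hj1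
      _ ≤ N := Nat.div_mul_le_self N M
  have hNK : N < 2 * K := by
    have h2 : N < (d + 1) * M := by
      have h0' := Nat.div_add_mod N M
      have h1' := Nat.mod_lt N (show 0 < M by omega)
      rw [← hd] at h0'
      calc N = M * d + N % M := h0'.symm
        _ < M * d + M := by omega
        _ = (d + 1) * M := by ring
    have h3 : (d + 1) * M ≤ 2^(j + 1) * M := Nat.mul_le_mul_right M hj2
    calc N < (d + 1) * M := h2
      _ ≤ 2^(j + 1) * M := h3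
      _ = 2 * K := by rw [hK]; ring
  have hK2 : 2 ≤ K := le_trans hM (Nat.le_mul_of_pos_left M (by positivity))
  have h2 := eps_pow h0 h1 hM he j
  have h3 := long_cross h0 h1 hK2
  have h4 : hh p (4 * K) (K - 1) ≤ hh p (2 * N) (N - 1) := by
    have a1 : (K:ℤ) ≤ N := by exact_mod_cast hKN
    have a2 : (N:ℤ) < 2 * K := by exact_mod_cast hNK
    have a3 : (2:ℤ) ≤ K := by exact_mod_cast hK2
    exact hh_mono h0 h1 (by omega) (by omega) (by omega)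
  have h5 : ((1:ℝ)/4)^(j + 1) ≤ (1/4)^3 :=
    pow_le_pow_of_le_one (by norm_num) (by norm_num) (by omega)
  have h6 : eps p N = 1 - hh p (2 * N) (N - 1) := rfl
  rw [← hK] at h2
  norm_num at h5
  linarith

theorem far_of_R3 (h : R3) : ∀ ε : ℝ, 0 < ε → ∃ N0 : ℕ, ∀ N : ℕ, N0 ≤ N → ∀ p : ℝ,
    1/2 + (N:ℝ)^(-(3/4) + ε) ≤ p → p ≤ 1 → eps p N ≤ 1/100 := by
  intro ε he
  by_cases hbig : 3/4 ≤ ε
  · refine ⟨1, fun N hN p hp hp1 => ?_⟩
    exfalso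
    have hNr : (1:ℝ) ≤ N := by exact_mod_cast hN
    have : (1:ℝ) ≤ (N:ℝ)^(-(3/4) + ε) := Real.one_le_rpow hNr (by linarith)
    linarith
  · push Not at hbig
    obtain ⟨h0, hh0, hR⟩ := h ε he
    -- limits
    have t1 : Filter.Tendsto (fun N : ℕ => (N:ℝ)^(-(3/4) + ε)) Filter.atTop (nhds 0) := by
      have := (tendsto_rpow_neg_atTop (y := 3/4 - ε) (by linarith)).comp
        (tendsto_natCast_atTop_atTop (R := ℝ))
      refine this.congr (fun N => ?_)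
      simp only [Function.comp]
      congr 1; ring
    have t2 : Filter.Tendsto (fun N : ℕ => (N:ℝ)^(ε/2)) Filter.atTop Filter.atTop :=
      (tendsto_rpow_atTop (by linarith)).comp tendsto_natCast_atTop_atTop
    have e1 := t1.eventually (gt_mem_nhds hh0)
    have e2 := t2.eventually (Filter.eventually_ge_atTop (4:ℝ))
    obtain ⟨N0, hN0⟩ := Filter.eventually_atTop.mp (e1.and (e2.and
      (Filter.eventually_ge_atTop 1)))
    refine ⟨N0, fun N hN p hp hp1 => ?_⟩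
    obtain ⟨k1, k2, k3⟩ := hN0 N hN
    have hNr : (1:ℝ) ≤ N := by exact_mod_cast k3
    have hNp : (0:ℝ) < N := by linarith
    set x : ℝ := (N:ℝ)^(-(3/4) + ε) with hx
    have hxp : 0 < x := Real.rpow_pos_of_pos hNp _
    obtain ⟨M, hM2, hMle, hMe⟩ := hR x hxp k1
    have hx1 : 1/2 + x ≤ 1 := hp.trans hp1
    have h4M : 4 * M ≤ N := by
      have e : x^(-(4/3) - ε) = (N:ℝ)^((-(3/4) + ε) * (-(4/3) - ε)) := by
        rw [hx, ← Real.rpow_mul hNp.le]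
      have e3 : (N:ℝ)^((-(3/4) + ε) * (-(4/3) - ε)) ≤ (N:ℝ)^(1 - ε/2) := by
        apply Real.rpow_le_rpow_of_exponent_le hNr
        nlinarith
      have e4 : (N:ℝ)^(1 - ε/2) * (N:ℝ)^(ε/2) = N := by
        rw [← Real.rpow_add hNp]
        simp
      have e5 : (M:ℝ) ≤ (N:ℝ)^(1 - ε/2) := by rw [e] at hMle; exact hMle.trans e3
      have e6 : 0 < (N:ℝ)^(1 - ε/2) := Real.rpow_pos_of_pos hNp _
      have : 4 * (M:ℝ) ≤ N := by
        calc 4 * (M:ℝ) ≤ 4 * (N:ℝ)^(1 - ε/2) := by linarith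
          _ ≤ (N:ℝ)^(ε/2) * (N:ℝ)^(1 - ε/2) := mul_le_mul_of_nonneg_right k2 e6.le
          _ = N := by rw [mul_comm]; exact e4
      exact_mod_cast this
    have h1 := eps_all (p := 1/2 + x) (by linarith) hx1 hM2 hMe h4M
    have h2 : hh (1/2 + x) (2 * N) (N - 1) ≤ hh p (2 * N) (N - 1) :=
      hh_mono_param (by linarith) hp hp1 _ _
    have h3 : eps p N = 1 - hh p (2 * N) (N - 1) := rfl
    have h4 : eps (1/2 + x) N = 1 - hh (1/2 + x) (2 * N) (N - 1) := rfl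
    linarith

/-- The inputs from the interface statements. -/
theorem Inp.of (h1 : A1) (h2 : W1) (h3 : R3) : Inp :=
  ⟨h1, near_of_W1 h2, far_of_R3 h3⟩

end H31K
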