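import Pool.Agent.H31R3.Kes.Defs

/-!
Stubs (statements only) of the modules of `Pool/Agent/H31R3/Kes`.
-/

set_option maxHeartbeats 400000

namespace H31K

open H974 Finset

/-! ## T1 (file `Circuits.lean`): topology -/

theorem OC_arm {n : ℕ} {c1 c2 : ℤ} {r : ℕ} (ha : Adm n c1 c2 r) {F : Finset Edg}
    (hO : OC c1 c2 r F) (h : Arm n (F ∪ Lam c1 c2 r)) : Arm n F := by
  sorry

theorem DC_arm {n : ℕ} {c1 c2 : ℤ} {r : ℕ} (ha : Adm n c1 c2 r) {F : Finset Edg}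
    (hD : DC c1 c2 r F) (h : Arm n F) : Arm n (F \ Lam c1 c2 r) := by
  sorry

/-! ## T2 (file `Prob.lean`): probabilities of the circuits -/

theorem OC_local {c1 c2 : ℤ} {r : ℕ} (hr : 1 ≤ r) {S : Finset Edg} (hS : Bg c1 c2 r ⊆ S)
    (F : Finset Edg) : OC c1 c2 r F ↔ OC c1 c2 r (F ∩ S) := by
  sorry

theorem DC_local {c1 c2 : ℤ} {r : ℕ} (hr : 1 ≤ r) {S : Finset Edg} (hS : Bg c1 c2 r ⊆ S)
    (F : Finset Edg) : DC c1 c2 r F ↔ DC c1 c2 r (F ∩ S) := by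
  sorry

theorem OC_mono {c1 c2 : ℤ} {r : ℕ} {F G : Finset Edg} (h : F ⊆ G) (hF : OC c1 c2 r F) :
    OC c1 c2 r G := by
  sorry

theorem DC_anti {c1 c2 : ℤ} {r : ℕ} {F G : Finset Edg} (h : F ⊆ G) (hG : DC c1 c2 r G) :
    DC c1 c2 r F := by
  sorry

theorem pO_ge {q κ : ℝ} {n : ℕ} (hW : H12S.Win q κ n) (c1 c2 : ℤ) {r : ℕ} (hr : 1 ≤ r)
    (hn : r + 1 ≤ n) : κ^4 ≤ pO q c1 c2 r := by
  sorry

theorem pD_ge {q κ : ℝ} {n : ℕ} (hW : H12S.Win q κ n) (c1 c2 : ℤ) {r : ℕ} (hr : 1 ≤ r)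
    (hn : r + 1 ≤ n) : κ^4 ≤ pD q c1 c2 r := by
  sorry

theorem arm_glue_win {q κ : ℝ} {r n : ℕ} (hW : H12S.Win q κ (2 * r)) (hr : 1 ≤ r)
    (h2 : 2 * r ≤ n) (h3 : n ≤ 32 * r) : κ^5 * arm q (2 * r) ≤ arm q n := by
  sorry

/-! ## T3 (file `Blk.lean`): the block inequality -/

theorem VV_local (q : ℝ) {c1 c2 : ℤ} {r : ℕ} (hr : 1 ≤ r) {S : Finset Edg}
    (hS : Bg c1 c2 r ⊆ S) (F : Finset Edg) : VV q c1 c2 r F = VV q c1 c2 r (F ∩ S) := by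
  sorry

theorem VV_mean {q κ : ℝ} {n : ℕ} (hW : H12S.Win q κ n) (c1 c2 : ℤ) {r : ℕ} (hr : 1 ≤ r)
    (hn : r + 1 ≤ n) {S : Finset Edg} (hS : Bg c1 c2 r ⊆ S) :
    Ex (fun _ => q) S (VV q c1 c2 r) = 0 := by
  sorry

theorem VV_abs {q κ : ℝ} {n : ℕ} (hW : H12S.Win q κ n) (c1 c2 : ℤ) {r : ℕ} (hr : 1 ≤ r)
    (hn : r + 1 ≤ n) (F : Finset Edg) : |VV q c1 c2 r F| ≤ 1 / κ^4 := by
  sorry

/-- FKG: the pivotality of the box is at most the correlation with `VV`. -/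
theorem piv_VV {q κ : ℝ} {n : ℕ} (hW : H12S.Win q κ n) {c1 c2 : ℤ} {r : ℕ}
    (ha : Adm n c1 c2 r) :
    Pr (fun _ => q) (boxE n) (PB n c1 c2 r) ≤
      Ex (fun _ => q) (boxE n) (fun F => ind (Arm n F) * VV q c1 c2 r F) := by
  sorry

/-- Consequence: a pivotal box costs only a constant. -/
theorem piv_le_arm {q κ : ℝ} {n : ℕ} (hW : H12S.Win q κ n) {c1 c2 : ℤ} {r : ℕ}
    (ha : Adm n c1 c2 r) : Pr (fun _ => q) (boxE n) (PB n c1 c2 r) ≤ 1 / κ^4 * arm q n := by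
  sorry

/-- Cauchy-Schwarz given the inner arm. -/
theorem cs_arm {q : ℝ} (h0 : 0 ≤ q) (h1 : q ≤ 1) {n r1 : ℕ} (hr : r1 ≤ n)
    {G : Finset Edg → ℝ} (hG : ∀ F, F ⊆ boxE n → G F = G (F ∩ (boxE n \ boxE r1))) {M : ℝ}
    (hM : Ex (fun _ => q) (boxE n) (fun F => (G F)^2) ≤ M) :
    Ex (fun _ => q) (boxE n) (fun F => ind (Arm n F) * G F) ≤
      Real.sqrt (arm q n * arm q r1 * M) := by
  sorry

/-- The block inequality for boxes of a grid. -/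
theorem blk {q κ : ℝ} {n : ℕ} (hW : H12S.Win q κ n) {r r1 : ℕ} (hr1 : r1 ≤ n)
    (T : Finset (ℤ × ℤ)) (hT : ∀ t ∈ T, Adm n (2 * r * t.1 + r) (2 * r * t.2 + r) r)
    (hd : ∀ t ∈ T, Disjoint (Bg (2 * r * t.1 + r) (2 * r * t.2 + r) r) (boxE r1)) :
    ∑ t ∈ T, Pr (fun _ => q) (boxE n) (PB n (2 * r * t.1 + r) (2 * r * t.2 + r) r) ≤
      17 / κ^4 * Real.sqrt (T.card * (arm q n * arm q r1)) := by
  sorry

/-- The same for single edges. -/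
theorem blk_edges {q : ℝ} (h0 : 1/4 ≤ q) (h1 : q ≤ 3/4) {n r1 : ℕ} (hr1 : r1 ≤ n)
    (T : Finset Edg) (hT : T ⊆ boxE n \ boxE r1) :
    ∑ e ∈ T, Pr (fun _ => q) ((boxE n).erase e) (PivA n e) ≤
      3 * Real.sqrt (T.card * (arm q n * arm q r1)) := by
  sorry

/-! ## T4 (file `Four.lean`): the local four-arm event -/

theorem pr_F4_le {q : ℝ} (h0 : 0 ≤ q) (h1 : q ≤ 1) {c1 c2 : ℤ} {r : ℕ} (hr : 1 ≤ r) {e : Edg}
    (he : e ∈ Cor c1 c2 r) :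
    Pr (fun _ => q) ((Lam c1 c2 r).erase e) (F4 src tgt (BL c1 c2 r) e) ≤
      H12S.a4 q (3 * r) := by
  sorry

theorem piv_le_PB {q : ℝ} (h0 : 0 ≤ q) (h1 : q ≤ 1) {n : ℕ} {c1 c2 : ℤ} {r : ℕ}
    (ha : Adm n c1 c2 r) {e : Edg} (he : e ∈ Cor c1 c2 r) :
    Pr (fun _ => q) ((boxE n).erase e) (PivA n e) ≤
      Pr (fun _ => q) (boxE n) (PB n c1 c2 r) * H12S.a4 q (3 * r) := by
  sorry

/-! ## T5 (file `Count.lean`): summation over all edges (uses T1-T4) -/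

theorem dArm_le : ∃ C : ℝ, 0 < C ∧ ∀ (q κ : ℝ) (n : ℕ), 64 ≤ n → H12S.Win q κ n →
    dArm q n ≤ C / κ^7 * arm q n * (Real.sqrt n +
      ∑ k ∈ (range n).filter (fun k => 9 * 2^k ≤ n),
        Real.sqrt (n / (2:ℝ)^k) * ((4:ℝ)^k * H12S.a4 q (3 * 2^k))) := by
  sorry

/-! ## T6 (file `Stab.lean`): stability of the one-arm probability (uses T5) -/

/-- K6. -/
theorem stab {κ B ε : ℝ} (hκ : 0 < κ) (hB : 0 < B) (he : 0 < ε) (he1 : ε ≤ 1/4) :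
    ∃ c : ℝ, 0 < c ∧ ∀ (n : ℕ) (δ : ℝ), 1 ≤ n → 0 ≤ δ → δ * (n:ℝ)^(3/4 + ε) ≤ c →
      (∀ q : ℝ, |q - 1/2| ≤ δ → H12S.Win q κ n ∧
        ∀ m : ℕ, 1 ≤ m → m ≤ n → H12S.a4 q m ≤ B * (m:ℝ)^(-(5/4) + ε)) →
      ∀ q : ℝ, |q - 1/2| ≤ δ → arm q n ≤ 3 * arm (1/2) n ∧ arm (1/2) n ≤ 3 * arm q n := by
  sorry

/-- K6 from the inputs. -/
theorem stab_inp (I : Inp) {ε : ℝ} (he : 0 < ε) : ∃ κ : ℝ, 0 < κ ∧ ∀ n : ℕ, 1 ≤ n → ∀ q : ℝ,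
    |q - 1/2| ≤ κ * (n:ℝ)^(-(3/4) - ε) →
      H12S.Win q κ n ∧ arm q n ≤ 3 * arm (1/2) n ∧ arm (1/2) n ≤ 3 * arm q n := by
  sorry

/-! ## T7 (file `Beta.lean`): `β = 5/36` -/

theorem beta_upper (I : Inp) {ε : ℝ} (he : 0 < ε) : ∃ C : ℝ, 0 < C ∧ ∀ p : unitInterval,
    (1/2 : ℝ) < p → theta p ≤ C * ((p:ℝ) - 1/2)^(5/36 - ε) := by
  sorry

theorem beta_lower (I : Inp) {ε : ℝ} (he : 0 < ε) : ∃ c : ℝ, 0 < c ∧ ∀ p : unitInterval,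
    (1/2 : ℝ) < p → c * ((p:ℝ) - 1/2)^(5/36 + ε) ≤ theta p := by
  sorry

theorem beta_eq (I : Inp) : Filter.Tendsto
    (fun s : ℝ => Real.log (theta (Set.projIcc 0 1 zero_le_one (1/2 + s))) / Real.log s)
    (nhdsWithin 0 (Set.Ioi 0)) (nhds (5/36)) := by
  sorry

/-! ## T8 (file `GLow.lean`): lower bound for the mean cluster size -/

theorem gamma_lower (I : Inp) {ε : ℝ} (he : 0 < ε) : ∃ c : ℝ, 0 < c ∧ ∀ p : unitInterval,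
    (p : ℝ) < 1/2 → ENNReal.ofReal (c * (1/2 - (p:ℝ))^(-(43/18) + ε)) ≤ sigma p := by
  sorry

/-! ## T9 (file `Decay.lean`): exponential decay below the critical point -/

/-- Doubly exponential decay along dyadic scales. -/
theorem eps_pow2 {p : ℝ} (h0 : 0 ≤ p) (h1 : p ≤ 1) {N : ℕ} (hN : 2 ≤ N)
    (he : eps p N ≤ 1/100) (j : ℕ) : 25 * eps p (2^j * N) ≤ (1/4)^(2^j) := by
  sorry

/-- If dual crossings exist at scale `N`, the arm to distance `2^j N` is unlikely. -/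
theorem arm_le_eps {p : ℝ} (h0 : 0 ≤ p) (h1 : p ≤ 1) {N : ℕ} (hN : 2 ≤ N) :
    arm p (2 * N) ≤ 20 * eps (1 - p) N := by
  sorry

theorem arm_decay_far {p : ℝ} (h0 : 0 ≤ p) (h1 : p ≤ 1) {N : ℕ} (hN : 2 ≤ N)
    (he : eps (1 - p) N ≤ 1/100) (j : ℕ) : arm p (2 * (2^j * N)) ≤ (1/4)^(2^j) := by
  sorry

/-! ## T10 (file `SigUp.lean`): the mean cluster size is at most the sum of the two-point
function -/

/-- Two-point function in the infinite volume. -/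
noncomputable def tau (p : unitInterval) (x : Vtx) : ℝ :=
  (bondLaw p).real {ω | x ∈ cluster0 ω}

theorem tau_le_arm (p : unitInterval) {x : Vtx} {r : ℕ} (hx : (r:ℤ) ≤ |x.1| ∨ (r:ℤ) ≤ |x.2|) :
    tau p x ≤ arm p r := by
  sorry

theorem tau_le_arm_sq (p : unitInterval) {x : Vtx} {r : ℕ}
    (hx : 2 * (r:ℤ) < |x.1| ∨ 2 * (r:ℤ) < |x.2|) : tau p x ≤ (arm p r)^2 := by
  sorry

theorem sigma_le (p : unitInterval) : sigma p ≤ ∑' x : Vtx, ENNReal.ofReal (tau p x) := by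
  sorry

/-- Summation over shells. -/
theorem sigma_le_shell (p : unitInterval) {f : ℕ → ℝ} (hf0 : ∀ r, 0 ≤ f r)
    (hf : ∀ x : Vtx, tau p x ≤ f (max x.1.natAbs x.2.natAbs)) :
    sigma p ≤ ∑' r : ℕ, ENNReal.ofReal (8 * (r + 1) * f r) := by
  sorry

/-! ## T11 (file `GUp.lean`): upper bound for the mean cluster size (uses T9, T10) -/

theorem gamma_upper (I : Inp) {ε : ℝ} (he : 0 < ε) : ∃ C : ℝ, 0 < C ∧ ∀ p : unitInterval,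
    (p : ℝ) < 1/2 → sigma p ≤ ENNReal.ofReal (C * (1/2 - (p:ℝ))^(-(43/18) - ε)) := by
  sorry

theorem gamma_eq (I : Inp) : Filter.Tendsto
    (fun s : ℝ => Real.log (sigma (Set.projIcc 0 1 zero_le_one (1/2 - s))).toReal / Real.log s)
    (nhdsWithin 0 (Set.Ioi 0)) (nhds (-(43/18))) := by
  sorry

end H31K
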